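import Pool.Agent.Work.MP_49847a_an.Rat.RDefs

/-!
# Module Ban: a polynomial without zeros on the hull has approximate inverses

Proof.  If `X` is empty, `G = 0`.  Let `𝒜 ⊂ C(X, ℂ)` be the closure of the subalgebra of the (restrictions
of the) holomorphic polynomials (`Subalgebra.topologicalClosure` of the range of an algebra
homomorphism `MvPolynomial (Fin n) ℂ →ₐ[ℂ] C(X, ℂ)`, `aeval` of the coordinate functions): a commutative
complete normed algebra (`X` compact).  If `q|_X` is not a unit of `𝒜`, there is a character `φ` of `𝒜`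
with `φ(q) = 0` (`WeakDual.CharacterSpace.exists_apply_eq_zero`); `a_i = φ(z_i)`; then `φ(p) = p(a)` and
`|p(a)| ≤ ‖p‖_X` (characters have norm at most one, `AlgHom.norm_apply_le_self`), so `a ∈ hull X`
and `q(a) = 0`: contradiction.  So `q|_X` has an inverse in `𝒜`, which is a uniform limit of polynomials
`G` on `X`, and `|1 - q G| ≤ ‖q‖_X ‖q⁻¹ - G‖_X < δ`.
-/

namespace Pool.Agent.Work.MP_49847a_an

open MvPolynomial

theorem ban {n : ℕ} {X : Set (Fin n → ℂ)} (hX : IsCompact X) {q : MvPolynomial (Fin n) ℂ}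
    (hq : ∀ a ∈ hull X, eval a q ≠ 0) {δ : ℝ} (hδ : 0 < δ) :
    ∃ G : MvPolynomial (Fin n) ℂ, ∀ z ∈ X, ‖1 - eval z q * eval z G‖ < δ := by
  have : CompactSpace X := isCompact_iff_compactSpace.1 hX
  let co : Fin n → C(X, ℂ) := fun i =>
    ⟨fun z : X => z.1 i, (continuous_apply i).comp continuous_subtype_val⟩
  let Φ : MvPolynomial (Fin n) ℂ →ₐ[ℂ] C(X, ℂ) := aeval co
  have hΦ : ∀ (p : MvPolynomial (Fin n) ℂ) (z : X), Φ p z = eval z.1 p := by
    intro p z
    induction p using MvPolynomial.induction_on with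
    | C a =>
      have e1 : Φ (C a) = algebraMap ℂ C(X, ℂ) a := aeval_C _ _
      rw [e1, eval_C]
      rfl
    | add p q hp hq =>
      rw [map_add, map_add, ContinuousMap.add_apply, hp, hq]
    | mul_X p i hp =>
      have e1 : Φ (MvPolynomial.X i) = co i := aeval_X _ _
      rw [map_mul, map_mul, ContinuousMap.mul_apply, hp, eval_X, e1]
      rfl
  let A : Subalgebra ℂ C(X, ℂ) := Φ.range.topologicalClosure
  have hAcl : IsClosed (A : Set C(X, ℂ)) := Subalgebra.isClosed_topologicalClosure _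
  have : CompleteSpace A := hAcl.completeSpace_coe
  have hmem : ∀ p, Φ p ∈ A := fun p => Subalgebra.le_topologicalClosure _ ⟨p, rfl⟩
  let Ψ : MvPolynomial (Fin n) ℂ →ₐ[ℂ] A := Φ.codRestrict A hmem
  have hu : IsUnit (Ψ q) := by
    by_contra hnu
    obtain ⟨f, hf⟩ := WeakDual.CharacterSpace.exists_apply_eq_zero hnu
    have hne : Nonempty X := by
      by_contra hne
      rw [not_nonempty_iff] at hne
      refine hnu ?_
      have h1 : (Ψ q) = 1 := by
        apply Subtype.ext
        ext z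
        exact (hne.false z).elim
      rw [h1]
      exact isUnit_one
    let g : A →ₐ[ℂ] ℂ := WeakDual.CharacterSpace.toAlgHom f
    let a : Fin n → ℂ := fun i => g (Ψ (MvPolynomial.X i))
    have hga : ∀ p, g (Ψ p) = eval a p := by
      intro p
      induction p using MvPolynomial.induction_on with
      | C c =>
        have e1 : Ψ (C c) = algebraMap ℂ A c := AlgHom.commutes Ψ c
        rw [e1, eval_C]
        exact AlgHom.commutes g c
      | add p q hp hq => rw [map_add, map_add, map_add, hp, hq]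
      | mul_X p i hp => rw [map_mul, map_mul, map_mul, hp, eval_X]
    refine hq a ?_ ?_
    · intro p c hc
      have hc0 : 0 ≤ c := by
        obtain ⟨z⟩ := hne
        exact (norm_nonneg _).trans (hc z.1 z.2)
      have h1 : ‖(1 : A)‖ ≤ 1 := by
        show ‖(1 : C(X, ℂ))‖ ≤ 1
        rw [ContinuousMap.norm_le _ zero_le_one]
        intro z
        simp
      have h2 : ‖Ψ p‖ ≤ c := by
        show ‖Φ p‖ ≤ c
        rw [ContinuousMap.norm_le _ hc0]
        intro z
        rw [hΦ]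
        exact hc z.1 z.2
      have h3 := AlgHom.norm_apply_le_self_mul_norm_one g (Ψ p)
      rw [hga] at h3
      refine h3.trans ?_
      calc ‖Ψ p‖ * ‖(1 : A)‖ ≤ c * 1 := mul_le_mul h2 h1 (norm_nonneg _) hc0
        _ = c := mul_one c
    · rw [← hga]
      exact hf
  obtain ⟨b, hb⟩ := hu.exists_right_inv
  have hbcl : (b : C(X, ℂ)) ∈ closure (Φ.range : Set C(X, ℂ)) := b.2
  obtain ⟨y, hy, hby⟩ := Metric.mem_closure_iff.1 hbcl (δ / (‖Φ q‖ + 1)) (by positivity)
  obtain ⟨G, rfl⟩ := hy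
  refine ⟨G, fun z hz => ?_⟩
  have h1 : Φ q * (b : C(X, ℂ)) = 1 := congrArg Subtype.val hb
  have h2 : 1 - eval z q * eval z G = (Φ q * ((b : C(X, ℂ)) - Φ G)) ⟨z, hz⟩ := by
    rw [mul_sub, h1, ContinuousMap.sub_apply, ContinuousMap.mul_apply, hΦ, hΦ]
    rfl
  rw [h2]
  refine (ContinuousMap.norm_coe_le_norm _ _).trans_lt ?_
  refine (norm_mul_le _ _).trans_lt ?_
  have h3 : ‖(b : C(X, ℂ)) - Φ G‖ < δ / (‖Φ q‖ + 1) := by
    rw [← dist_eq_norm]
    exact hby
  have h4 : 0 < ‖Φ q‖ + 1 := by positivity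
  calc ‖Φ q‖ * ‖(b : C(X, ℂ)) - Φ G‖ ≤ (‖Φ q‖ + 1) * ‖(b : C(X, ℂ)) - Φ G‖ :=
        mul_le_mul_of_nonneg_right (by linarith) (norm_nonneg _)
    _ < (‖Φ q‖ + 1) * (δ / (‖Φ q‖ + 1)) := mul_lt_mul_of_pos_left h3 h4
    _ = δ := by field_simp

theorem subset_hull {n : ℕ} (X : Set (Fin n → ℂ)) : X ⊆ hull X :=
  fun a ha _ _ h => h a ha

end Pool.Agent.Work.MP_49847a_an
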