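import Pool.Agent.Work.MP_49847a_an.Rat.SJL
import Pool.Agent.Work.MP_49847a_an.PolH

/-!
# Module HullT: two points of the hull

Proof.  Let `a ≠ b`, `l` affine with `l(a) = 1`, `l(b) = -1` (as in module `OnlyInj`), `ev F = |l|²`.
`R_c = C c - F`; for `c ≥ c₀`, `R_c > 0` on the compact set `X`.  By `h`, `ev R_c = nrm p` on `X`, so
(`hab` for the real polynomial `R_c - σ`, `ev σ = nrm p`, which vanishes on `X`; `pol_sub`)
`pol R_c a b = ∑_j p_j(a) conj(p_j(b))`.  Cauchy-Schwarz: `|pol R_c a b|² ≤ nrm p a * nrm p b`.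
For `a ∈ hull X`: `nrm p a ≤ sup_X nrm p ≤ c` (`nrm p = R_c ≤ c` on `X`): the vector version of the hull
inequality: with `u = conj (p(a))`, the polynomial `∑_j C (conj (p_j a)) p_j` is bounded on `X` by
`√(nrm p a) √c` (Cauchy-Schwarz), hence at `a`: `nrm p a ≤ √(nrm p a) √c`.  So `|pol R_c a b| ≤ c`, but
`pol R_c a b = c - l(a) conj(l(b)) = c + 1` (`pol_sub`, `pol_C`, `pol_sq`): contradiction.
-/

namespace Pool.Agent.Work.MP_49847a_an

open MvPolynomial

theorem nrm_nonneg {n m : ℕ} (p : Fin m → MvPolynomial (Fin n) ℂ) (z : Fin n → ℂ) :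
    0 ≤ nrm p z := Finset.sum_nonneg fun _ _ => sq_nonneg _

theorem cs_sum {m : ℕ} (u v : Fin m → ℂ) :
    ‖∑ j, u j * v j‖ ≤ Real.sqrt (∑ j, ‖u j‖ ^ 2) * Real.sqrt (∑ j, ‖v j‖ ^ 2) := by
  calc ‖∑ j, u j * v j‖ ≤ ∑ j, ‖u j * v j‖ := norm_sum_le _ _
    _ = ∑ j, ‖u j‖ * ‖v j‖ := Finset.sum_congr rfl fun j _ => norm_mul _ _
    _ ≤ _ := Real.sum_mul_le_sqrt_mul_sqrt _ _ _

theorem nrm_hull {n m : ℕ} {X : Set (Fin n → ℂ)} {p : Fin m → MvPolynomial (Fin n) ℂ} {c : ℝ}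
    (hc : 0 ≤ c) (hp : ∀ z ∈ X, nrm p z ≤ c) {a : Fin n → ℂ} (ha : a ∈ hull X) :
    nrm p a ≤ c := by
  set s := nrm p a with hs
  have hs0 : 0 ≤ s := nrm_nonneg p a
  set g : MvPolynomial (Fin n) ℂ := ∑ j, C ((starRingEnd ℂ) (eval a (p j))) * p j with hg
  have hge : ∀ z, eval z g = ∑ j, (starRingEnd ℂ) (eval a (p j)) * eval z (p j) := by
    intro z
    simp [hg]
  have h1 : ∀ z ∈ X, ‖eval z g‖ ≤ Real.sqrt s * Real.sqrt c := by
    intro z hz
    rw [hge]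
    refine (cs_sum _ _).trans ?_
    have e1 : ∑ j, ‖(starRingEnd ℂ) (eval a (p j))‖ ^ 2 = s := by
      rw [hs, nrm]
      refine Finset.sum_congr rfl fun j _ => ?_
      rw [RCLike.norm_conj]
    rw [e1]
    exact mul_le_mul_of_nonneg_left (Real.sqrt_le_sqrt (hp z hz)) (Real.sqrt_nonneg _)
  have h2 := ha g _ h1
  have h3 : eval a g = ((s : ℝ) : ℂ) := by
    rw [hge, hs, nrm]
    push_cast
    refine Finset.sum_congr rfl fun j _ => ?_
    rw [mul_comm, Complex.mul_conj, Complex.normSq_eq_norm_sq]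
    push_cast
    rfl
  rw [h3, Complex.norm_real, Real.norm_of_nonneg hs0] at h2
  rcases hs0.eq_or_lt with h0 | h0
  · rw [← h0]
    exact hc
  · have h4 : s = Real.sqrt s * Real.sqrt s := (Real.mul_self_sqrt hs0).symm
    have h5 : Real.sqrt s * Real.sqrt s ≤ Real.sqrt s * Real.sqrt c := by rwa [← h4]
    have h6 : Real.sqrt s ≤ Real.sqrt c := le_of_mul_le_mul_left h5 (Real.sqrt_pos.mpr h0)
    exact (Real.sqrt_le_sqrt_iff hc).mp h6

/-- the common part of the two versions -/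
theorem hull_core {n : ℕ} {X : Set (Fin n → ℂ)} (hX : IsCompact X)
    {a b : Fin n → ℂ} (ha : a ∈ hull X) (hb : b ∈ hull X)
    (h : ∀ R : MvPolynomial (Fin n ⊕ Fin n) ℝ, (∀ z ∈ X, 0 < ev R z) →
      ∃ (m : ℕ) (p : Fin m → MvPolynomial (Fin n) ℂ), (∀ z ∈ X, ev R z = nrm p z) ∧
        pol R a b = ∑ j, eval a (p j) * (starRingEnd ℂ) (eval b (p j))) : a = b := by
  by_contra hne
  obtain ⟨i, hi⟩ : ∃ i, a i ≠ b i := by
    by_contra hcon
    push Not at hcon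
    exact hne (funext hcon)
  have hd : a i - b i ≠ 0 := sub_ne_zero.mpr hi
  set l : MvPolynomial (Fin n) ℂ := C (2 / (a i - b i)) * MvPolynomial.X i - C ((a i + b i) / (a i - b i)) with hl
  have hle : ∀ z, eval z l = 2 / (a i - b i) * z i - (a i + b i) / (a i - b i) := by
    intro z
    simp [hl]
  have hla : eval a l = 1 := by
    rw [hle]
    field_simp
    ring
  have hlb : eval b l = -1 := by
    rw [hle]
    field_simp
    ring
  obtain ⟨F, hF⟩ := exists_norm_sq l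
  obtain ⟨c, hc⟩ := hX.exists_bound_of_continuousOn (ev_continuous F).continuousOn
  set c' : ℝ := |c| + 1 with hc'
  have hc0 : 0 < c' := by positivity
  obtain ⟨m, p, hp, hpab⟩ := h (C c' - F) (by
    intro z hz
    rw [ev_sub, ev_C]
    have h1 := hc z hz
    rw [Real.norm_eq_abs] at h1
    have h2 := le_abs_self (ev F z)
    have h3 := le_abs_self c
    linarith)
  have hpc : ∀ z ∈ X, nrm p z ≤ c' := by
    intro z hz
    rw [← hp z hz, ev_sub, ev_C, hF]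
    have : 0 ≤ ‖eval z l‖ ^ 2 := sq_nonneg _
    linarith
  have ha' := nrm_hull hc0.le hpc ha
  have hb' := nrm_hull hc0.le hpc hb
  have h1 : ‖∑ j, eval a (p j) * (starRingEnd ℂ) (eval b (p j))‖ ≤ c' := by
    refine (cs_sum _ _).trans ?_
    have e1 : ∑ j, ‖(starRingEnd ℂ) (eval b (p j))‖ ^ 2 = nrm p b := by
      rw [nrm]
      refine Finset.sum_congr rfl fun j _ => ?_
      rw [RCLike.norm_conj]
    have e2 : ∑ j, ‖eval a (p j)‖ ^ 2 = nrm p a := rfl
    rw [e1, e2]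
    calc Real.sqrt (nrm p a) * Real.sqrt (nrm p b) ≤ Real.sqrt c' * Real.sqrt c' :=
          mul_le_mul (Real.sqrt_le_sqrt ha') (Real.sqrt_le_sqrt hb') (Real.sqrt_nonneg _)
            (Real.sqrt_nonneg _)
      _ = c' := Real.mul_self_sqrt hc0.le
  rw [← hpab, pol_sub, pol_C, pol_sq hF, hla, hlb, map_neg, map_one, one_mul, sub_neg_eq_add,
    ← Complex.ofReal_one, ← Complex.ofReal_add, Complex.norm_real, Real.norm_of_nonneg
    (by positivity)] at h1
  linarith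

theorem hull_two {n : ℕ} {X : Set (Fin n → ℂ)} (hX : IsCompact X) (h : SumsOn X)
    {a b : Fin n → ℂ} (ha : a ∈ hull X) (hb : b ∈ hull X)
    (hab : ∀ F : MvPolynomial (Fin n ⊕ Fin n) ℝ, (∀ z ∈ X, ev F z = 0) → pol F a b = 0) :
    a = b := by
  refine hull_core hX ha hb fun R hR => ?_
  obtain ⟨m, p, hp⟩ := h R hR
  refine ⟨m, p, hp, ?_⟩
  obtain ⟨σ, hσ⟩ := exists_nrm p
  have h1 := hab (R - σ) (fun z hz => by rw [ev_sub, hp z hz, hσ, sub_self])
  rw [pol_sub, pol_nrm hσ, sub_eq_zero] at h1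
  exact h1

/-- the version modulo `‖P‖² - |q|²` -/
theorem hull_twoQ {n k : ℕ} {P : Fin k → MvPolynomial (Fin n) ℂ} {q : MvPolynomial (Fin n) ℂ}
    (hX : IsCompact (XQ P q)) (h : QuillenQ P q) {a b : Fin n → ℂ} (ha : a ∈ hull (XQ P q))
    (hb : b ∈ hull (XQ P q))
    (hab : ∑ j, eval a (P j) * (starRingEnd ℂ) (eval b (P j)) -
      eval a q * (starRingEnd ℂ) (eval b q) = 0) : a = b := by
  refine hull_core hX ha hb fun R hR => ?_
  obtain ⟨m, p, H, hp⟩ := h R hR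
  refine ⟨m, p, fun z hz => by rw [hp z, show rr P q z = 0 from hz, zero_mul, add_zero], ?_⟩
  obtain ⟨σ, hσ⟩ := exists_nrm p
  obtain ⟨A, hA⟩ := exists_nrm P
  obtain ⟨B, hB⟩ := exists_norm_sq q
  have hR' : R = σ + (A - B) * H := by
    apply ev_ext
    intro z
    rw [ev_add, ev_mul, ev_sub, hσ, hA, hB, hp z, rr]
  rw [hR', pol_add, pol_mul, pol_sub, pol_nrm hσ, pol_nrm hA, pol_sq hB, hab]
  ring

end Pool.Agent.Work.MP_49847a_an
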