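import Pool.Agent.Work.MP_49847a_an.Rat.SJL

/-!
# Module Arc: archimedean modules

Proof.  Call a holomorphic `f` bounded if `SJ J ((C N - A) * w)` for some `N`, where `ev A = |f|²`
(`exists_norm_sq`; by `ev_ext` the choice of `A` does not matter).  As in module `BdL`: constants are
bounded (`hw`), sums: `2N + 2N' - |f+g|² = 2(N - |f|²) + 2(N' - |g|²) + |f-g|²` times `w`; products
(`N ≥ 0` after enlarging): `N N' - |fg|² = N (N' - |g|²) + |g|² (N - |f|²)` times `w`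
(`SJ_mul` with `SJ_sq`, `SJ_C`); the variables are bounded by `hi`.  So every holomorphic polynomial is
bounded (`MvPolynomial.induction_on`), and for real `F`: `dec F` gives `ev F = nrm p - nrm p'` and
`(N - F) w = ∑_j (N_j - |p_j|²) w + nrm p' · w`.
-/

namespace Pool.Agent.Work.MP_49847a_an

open MvPolynomial

private def arcBd {n : ℕ} (J : Ideal (MvPolynomial (Fin n ⊕ Fin n) ℝ))
    (w : MvPolynomial (Fin n ⊕ Fin n) ℝ) (f : MvPolynomial (Fin n) ℂ) : Prop :=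
  ∃ N : ℝ, ∀ A : MvPolynomial (Fin n ⊕ Fin n) ℝ, (∀ z, ev A z = ‖eval z f‖ ^ 2) →
    SJ J ((C N - A) * w)

private theorem arcBd_C {n : ℕ} {J : Ideal (MvPolynomial (Fin n ⊕ Fin n) ℝ)}
    {w : MvPolynomial (Fin n ⊕ Fin n) ℝ} (c : ℂ) : arcBd J w (C c) := by
  refine ⟨‖c‖ ^ 2, fun A hA => SJ_congr (SJ_ideal J.zero_mem) fun z => ?_⟩
  rw [ev_mul, ev_sub, ev_C, hA z, eval_C, sub_self, zero_mul, ev_zero]

private theorem arcBd_add {n : ℕ} {J : Ideal (MvPolynomial (Fin n ⊕ Fin n) ℝ)}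
    {w : MvPolynomial (Fin n ⊕ Fin n) ℝ} (hw : SJ J w) {f g : MvPolynomial (Fin n) ℂ}
    (hf : arcBd J w f) (hg : arcBd J w g) : arcBd J w (f + g) := by
  obtain ⟨N, hN⟩ := hf
  obtain ⟨N', hN'⟩ := hg
  obtain ⟨A, hA⟩ := exists_norm_sq f
  obtain ⟨B, hB⟩ := exists_norm_sq g
  obtain ⟨D, hD⟩ := exists_norm_sq (f - g)
  refine ⟨2 * N + 2 * N', fun S hS => ?_⟩
  have h2 : SJ J (C 2 : MvPolynomial (Fin n ⊕ Fin n) ℝ) := SJ_C (by norm_num)
  refine SJ_congr (SJ_add (SJ_add (SJ_mul h2 (hN A hA)) (SJ_mul h2 (hN' B hB)))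
    (SJ_mul (SJ_sq hD) hw)) fun z => ?_
  simp only [ev_add, ev_sub, ev_mul, ev_C]
  have := parallelogram_law_with_norm ℝ (eval z f) (eval z g)
  rw [hS z, hA z, hB z, hD z, map_add, map_sub]
  linear_combination (-(ev w z)) * this

private theorem arcBd_mul {n : ℕ} {J : Ideal (MvPolynomial (Fin n ⊕ Fin n) ℝ)}
    {w : MvPolynomial (Fin n ⊕ Fin n) ℝ} (hw : SJ J w) {f g : MvPolynomial (Fin n) ℂ}
    (hf : arcBd J w f) (hg : arcBd J w g) : arcBd J w (f * g) := by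
  obtain ⟨N, hN⟩ := hf
  obtain ⟨N', hN'⟩ := hg
  obtain ⟨A, hA⟩ := exists_norm_sq f
  obtain ⟨B, hB⟩ := exists_norm_sq g
  have hpos : 0 ≤ N + |N| := by
    have := neg_abs_le N
    linarith
  have hN1 : SJ J ((C (N + |N|) - A) * w) := by
    refine SJ_congr (SJ_add (hN A hA) (SJ_mul (SJ_C (abs_nonneg N)) hw)) fun z => ?_
    simp only [ev_add, ev_sub, ev_mul, ev_C]
    ring
  refine ⟨(N + |N|) * N', fun S hS => ?_⟩
  refine SJ_congr (SJ_add (SJ_mul (SJ_C hpos) (hN' B hB)) (SJ_mul (SJ_sq hB) hN1)) fun z => ?_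
  simp only [ev_add, ev_sub, ev_mul, ev_C]
  rw [hS z, hA z, hB z, map_mul, norm_mul]
  ring

theorem arc {n : ℕ} {J : Ideal (MvPolynomial (Fin n ⊕ Fin n) ℝ)}
    {w : MvPolynomial (Fin n ⊕ Fin n) ℝ} (hw : SJ J w)
    (hi : ∀ i : Fin n, ∃ N : ℝ, SJ J ((C N - (X (Sum.inl i) ^ 2 + X (Sum.inr i) ^ 2)) * w))
    (F : MvPolynomial (Fin n ⊕ Fin n) ℝ) : ∃ N : ℝ, SJ J ((C N - F) * w) := by
  have hall : ∀ f : MvPolynomial (Fin n) ℂ, arcBd J w f := by
    intro f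
    induction f using MvPolynomial.induction_on with
    | C a => exact arcBd_C a
    | add p q hp hq => exact arcBd_add hw hp hq
    | mul_X p i hp =>
      refine arcBd_mul hw hp ?_
      obtain ⟨N, hN⟩ := hi i
      refine ⟨N, fun A hA => SJ_congr hN fun z => ?_⟩
      have h1 : ev A z = ev (X (Sum.inl i) ^ 2 + X (Sum.inr i) ^ 2) z := by
        rw [hA z, eval_X, ← Complex.normSq_eq_norm_sq, Complex.normSq_apply]
        simp only [ev, map_add, map_pow, eval_X, Sum.elim_inl, Sum.elim_inr]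
        ring
      rw [ev_mul, ev_sub, h1, ← ev_sub, ← ev_mul]
  obtain ⟨m, p, m', p', hF⟩ := dec F
  choose N hN using fun j => hall (p j)
  choose A hA using fun j => exists_norm_sq (p j)
  obtain ⟨B, hB⟩ := exists_nrm p'
  refine ⟨∑ j, N j, ?_⟩
  refine SJ_congr (SJ_add (SJ_sum Finset.univ (fun j => (C (N j) - A j) * w)
    (fun j _ => hN j (A j) (hA j))) (SJ_mul (SJ_nrm hB) hw)) fun z => ?_
  rw [ev_add, ev_sum, ev_mul, ev_mul, ev_sub, ev_C, hF z, hB z]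
  simp only [ev_mul, ev_sub, ev_C, hA]
  rw [← Finset.sum_mul, Finset.sum_sub_distrib, nrm]
  ring

end Pool.Agent.Work.MP_49847a_an
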