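import Pool.Agent.Work.MP_49847a_an.Rat.SJL

/-!
# Module Avg: averaging over roots of unity

Proof.  Let `ω = exp(2πi/(E+1))`, a primitive root of unity of order `E+1`
(`Complex.isPrimitiveRoot_exp`).  `g_j = ∑_{i ≤ E} g_j^{(i)}` (homogeneous components,
`MvPolynomial.sum_homogeneousComponent` and `totalDegree ≤ E`), and
`eval (ω^s ζ) g^{(i)} = ω^{s i} eval ζ g^{(i)}` (`IsHomogeneous.eval₂`/`IsHomogeneous.eval_smul` type
lemma).  So `∑_s |g_j(ω^s ζ)|² = ∑_{i, i'} g_j^{(i)}(ζ) conj(g_j^{(i')}(ζ)) ∑_s ω^{s(i - i')}`, and the inner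
sum is `E+1` for `i = i'` and `0` otherwise (`|i - i'| ≤ E`; `IsPrimitiveRoot.geom_sum_eq_zero`).
-/

namespace Pool.Agent.Work.MP_49847a_an

open MvPolynomial

/-- rotation by a root of unity of order `E + 1` -/
noncomputable def rot (E s : ℕ) : ℂ := Complex.exp (2 * Real.pi * Complex.I * s / (E + 1))

theorem norm_rot (E s : ℕ) : ‖rot E s‖ = 1 := by
  have h1 : rot E s = Complex.exp (((2 * Real.pi * s / (E + 1) : ℝ) : ℂ) * Complex.I) := by
    unfold rot
    congr 1
    push_cast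
    ring
  rw [h1, Complex.norm_exp_ofReal_mul_I]

private theorem avg_rot (E s : ℕ) : rot E s = rot E 1 ^ s := by
  unfold rot
  rw [← Complex.exp_nat_mul]
  congr 1
  push_cast
  ring

private theorem avg_prim (E : ℕ) : IsPrimitiveRoot (rot E 1) (E + 1) := by
  have h1 := Complex.isPrimitiveRoot_exp (E + 1) (Nat.succ_ne_zero E)
  have h2 : rot E 1 = Complex.exp (2 * Real.pi * Complex.I / ((E + 1 : ℕ) : ℂ)) := by
    unfold rot
    congr 1
    push_cast
    ring
  rw [h2]
  exact h1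

private theorem avg_conj (E s : ℕ) : rot E s * (starRingEnd ℂ) (rot E s) = 1 := by
  rw [Complex.mul_conj', norm_rot]
  simp

private theorem avg_orth (E i i' : ℕ) (hi : i < E + 1) (hi' : i' < E + 1) :
    ∑ s ∈ Finset.range (E + 1), rot E s ^ i * (starRingEnd ℂ) (rot E s) ^ i' =
      if i = i' then ((E : ℂ) + 1) else 0 := by
  have h1 : ∀ s, rot E s ^ i * (starRingEnd ℂ) (rot E s) ^ i' =
      (rot E 1 ^ i * (starRingEnd ℂ) (rot E 1) ^ i') ^ s := by
    intro s
    rw [avg_rot E s, map_pow]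
    ring
  rw [Finset.sum_congr rfl (fun s _ => h1 s)]
  by_cases h : i = i'
  · rw [if_pos h, h, ← mul_pow, avg_conj]
    simp
  · rw [if_neg h]
    set η := rot E 1 ^ i * (starRingEnd ℂ) (rot E 1) ^ i' with hη
    have h2 : η ≠ 1 := by
      intro h3
      apply h
      refine (avg_prim E).pow_inj hi hi' ?_
      calc rot E 1 ^ i = rot E 1 ^ i * (rot E 1 * (starRingEnd ℂ) (rot E 1)) ^ i' := by
            rw [avg_conj, one_pow, mul_one]
        _ = η * rot E 1 ^ i' := by
            rw [hη, mul_pow]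
            ring
        _ = rot E 1 ^ i' := by rw [h3, one_mul]
    have h3 : η ^ (E + 1) = 1 := by
      have h4 : rot E 1 ^ (E + 1) = 1 := (avg_prim E).pow_eq_one
      rw [hη, mul_pow, ← pow_mul, ← pow_mul, mul_comm i, mul_comm i', pow_mul, pow_mul, h4,
        ← map_pow, h4, map_one, one_pow, one_pow, one_mul]
    have h4 := geom_sum_eq h2 (E + 1)
    rw [h4, h3, sub_self, zero_div]

private theorem avg_one (E : ℕ) (c : ℕ → ℂ) :
    ∑ s ∈ Finset.range (E + 1), ‖∑ i ∈ Finset.range (E + 1), rot E s ^ i * c i‖ ^ 2 =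
      ((E : ℝ) + 1) * ∑ i ∈ Finset.range (E + 1), ‖c i‖ ^ 2 := by
  have h1 : ((∑ s ∈ Finset.range (E + 1),
      ‖∑ i ∈ Finset.range (E + 1), rot E s ^ i * c i‖ ^ 2 : ℝ) : ℂ) =
      ((((E : ℝ) + 1) * ∑ i ∈ Finset.range (E + 1), ‖c i‖ ^ 2 : ℝ) : ℂ) := by
    push_cast
    have h2 : ∀ s, ((‖∑ i ∈ Finset.range (E + 1), rot E s ^ i * c i‖ : ℂ)) ^ 2 =
        ∑ i ∈ Finset.range (E + 1), ∑ i' ∈ Finset.range (E + 1),
          (c i * (starRingEnd ℂ) (c i')) * (rot E s ^ i * (starRingEnd ℂ) (rot E s) ^ i') := by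
      intro s
      rw [← Complex.mul_conj']
      simp only [map_sum, map_mul, map_pow, Finset.sum_mul_sum]
      exact Finset.sum_congr rfl fun i _ => Finset.sum_congr rfl fun i' _ => by ring
    simp only [h2]
    rw [Finset.sum_comm, Finset.mul_sum]
    refine Finset.sum_congr rfl fun i hi => ?_
    rw [Finset.sum_comm]
    have h3 : ∀ i' ∈ Finset.range (E + 1), ∑ s ∈ Finset.range (E + 1),
        (c i * (starRingEnd ℂ) (c i')) * (rot E s ^ i * (starRingEnd ℂ) (rot E s) ^ i') =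
        if i = i' then ((E : ℂ) + 1) * (c i * (starRingEnd ℂ) (c i')) else 0 := by
      intro i' hi'
      rw [← Finset.mul_sum, avg_orth E i i' (Finset.mem_range.1 hi) (Finset.mem_range.1 hi')]
      split_ifs
      · ring
      · ring
    rw [Finset.sum_congr rfl h3, Finset.sum_ite_eq, if_pos hi, Complex.mul_conj']
  exact_mod_cast h1

private theorem avg_hom {m i : ℕ} (p : MvPolynomial (Fin m) ℂ) (hp : p.IsHomogeneous i) (t : ℂ)
    (ζ : Fin m → ℂ) : eval (fun j => t * ζ j) p = t ^ i * eval ζ p := by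
  rw [eval_eq, eval_eq, Finset.mul_sum]
  refine Finset.sum_congr rfl fun d hd => ?_
  have h1 : d.degree = i := by
    rw [Finsupp.degree_eq_weight_one]
    exact hp (mem_support_iff.1 hd)
  have h2 : ∏ j ∈ d.support, (t * ζ j) ^ d j = t ^ i * ∏ j ∈ d.support, ζ j ^ d j := by
    simp only [mul_pow]
    rw [Finset.prod_mul_distrib, Finset.prod_pow_eq_pow_sum]
    congr 2
  rw [h2]
  ring

private theorem avg_eval {m E : ℕ} (g : MvPolynomial (Fin m) ℂ) (hE : g.totalDegree ≤ E) (t : ℂ)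
    (ζ : Fin m → ℂ) : eval (fun j => t * ζ j) g =
      ∑ i ∈ Finset.range (E + 1), t ^ i * eval ζ (homogeneousComponent i g) := by
  have h1 : ∑ i ∈ Finset.range (E + 1), homogeneousComponent i g = g := by
    conv_rhs => rw [← sum_homogeneousComponent g]
    symm
    refine Finset.sum_subset (Finset.range_mono (by omega)) fun i _ hi => ?_
    exact homogeneousComponent_eq_zero _ _ (by
      rw [Finset.mem_range] at hi
      omega)
  conv_lhs => rw [← h1]
  rw [map_sum]
  exact Finset.sum_congr rfl fun i _ =>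
    avg_hom _ (homogeneousComponent_isHomogeneous i g) t ζ

theorem avg {m l E : ℕ} (g : Fin l → MvPolynomial (Fin m) ℂ)
    (hE : ∀ j, (g j).totalDegree ≤ E) (ζ : Fin m → ℂ) :
    ∑ s ∈ Finset.range (E + 1), nrm g (fun i => rot E s * ζ i) =
      (E + 1) * ∑ j, ∑ i ∈ Finset.range (E + 1),
        ‖eval ζ (homogeneousComponent i (g j))‖ ^ 2 := by
  unfold nrm
  rw [Finset.sum_comm, Finset.mul_sum]
  refine Finset.sum_congr rfl fun j _ => ?_
  rw [← avg_one E (fun i => eval ζ (homogeneousComponent i (g j)))]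
  refine Finset.sum_congr rfl fun s _ => ?_
  rw [avg_eval (g j) (hE j)]

end Pool.Agent.Work.MP_49847a_an
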