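import Pool.Agent.Work.MP_49847a_an.Rat.SJL

/-!
# Module Cop: a positive partition of unity by powers of `1 + ‖z‖²` and `2 + ‖z‖²`

Proof.  One real variable `t` (`= nn z`): `u = (1+t)^K` and `v = (2+t)^K'` are coprime in `ℝ[t]`
(`IsCoprime.pow`; `(2+t) - (1+t) = 1`): `a u + b v = 1`.  On `[0, N]`: `b/u + a/v = 1/(uv) > 0`, so the
continuous function `h = (b/u - a/v)/2` satisfies `- a/v < h < b/u`, with a margin `ε > 0` by compactness;
by Weierstrass (`exists_polynomial_near_of_continuousOn`) there is a polynomial `τ` with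
`|τ - h| < ε` on `[0, N]`.  `a' = a + τ v > 0`, `b' = b - τ u > 0` on `[0, N]` and `a' u + b' v = 1`.
`A`, `B` are `a'`, `b'` at the real polynomial `WW n 0` (`Polynomial.aeval`), `ev (WW n 0) z = nn z`.
-/

namespace Pool.Agent.Work.MP_49847a_an

open MvPolynomial

private theorem cop_ev {n : ℕ} (W : MvPolynomial (Fin n ⊕ Fin n) ℝ) (p : Polynomial ℝ)
    (z : Fin n → ℂ) : ev (Polynomial.aeval W p) z = p.eval (ev W z) := by
  unfold ev
  rw [Polynomial.aeval_def, Polynomial.hom_eval₂]
  have h1 : (eval (Sum.elim (fun i => (z i).re) (fun i => (z i).im))).comp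
      (algebraMap ℝ (MvPolynomial (Fin n ⊕ Fin n) ℝ)) = RingHom.id ℝ := by
    ext r
    simp
  rw [h1, Polynomial.eval₂_id]

/-- the one variable statement -/
private theorem cop_one (K K' : ℕ) (N : ℝ) (hN : 0 ≤ N) : ∃ A B : Polynomial ℝ,
    (∀ t ∈ Set.Icc 0 N, 0 < A.eval t ∧ 0 < B.eval t) ∧
      A * (Polynomial.X + Polynomial.C 1) ^ K + B * (Polynomial.X + Polynomial.C 2) ^ K' = 1 := by
  have hcop : IsCoprime ((Polynomial.X + Polynomial.C (1:ℝ)) ^ K)
      ((Polynomial.X + Polynomial.C (2:ℝ)) ^ K') := by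
    refine IsCoprime.pow ⟨-1, 1, ?_⟩
    have : (Polynomial.C (2:ℝ)) = Polynomial.C 1 + Polynomial.C 1 := by
      rw [← Polynomial.C_add]
      norm_num
    rw [this, Polynomial.C_1]
    ring
  obtain ⟨a, b, hab⟩ := hcop
  have hu : ∀ t : ℝ, ((Polynomial.X + Polynomial.C (1:ℝ)) ^ K).eval t = (t + 1) ^ K := by
    intro t
    simp
  have hv : ∀ t : ℝ, ((Polynomial.X + Polynomial.C (2:ℝ)) ^ K').eval t = (t + 2) ^ K' := by
    intro t
    simp
  have habt : ∀ t : ℝ, a.eval t * (t + 1) ^ K + b.eval t * (t + 2) ^ K' = 1 := by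
    intro t
    have := congrArg (Polynomial.eval t) hab
    rwa [Polynomial.eval_add, Polynomial.eval_mul, Polynomial.eval_mul, hu, hv,
      Polynomial.eval_one] at this
  set h : ℝ → ℝ := fun t => (b.eval t / (t + 1) ^ K - a.eval t / (t + 2) ^ K') / 2 with hh
  have hcont : ContinuousOn h (Set.Icc 0 N) := by
    refine ContinuousOn.div_const (ContinuousOn.sub ?_ ?_) 2
    · refine ContinuousOn.div b.continuous.continuousOn (by fun_prop) fun t ht => ?_
      have := ht.1
      positivity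
    · refine ContinuousOn.div a.continuous.continuousOn (by fun_prop) fun t ht => ?_
      have := ht.1
      positivity
  set ε : ℝ := 1 / (2 * ((N + 1) ^ K * (N + 2) ^ K')) with hε
  have hεpos : 0 < ε := by positivity
  obtain ⟨τ, hτ⟩ := exists_polynomial_near_of_continuousOn 0 N h hcont ε hεpos
  refine ⟨a + τ * (Polynomial.X + Polynomial.C 2) ^ K', b - τ * (Polynomial.X + Polynomial.C 1) ^ K,
    fun t ht => ?_, ?_⟩
  · have ht0 := ht.1
    have htN := ht.2
    have hupos : 0 < (t + 1) ^ K := by positivity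
    have hvpos : 0 < (t + 2) ^ K' := by positivity
    have hle : ε ≤ 1 / (2 * ((t + 1) ^ K * (t + 2) ^ K')) := by
      rw [hε]
      refine one_div_le_one_div_of_le (by positivity) ?_
      gcongr
    have hlt := abs_lt.1 (hτ t ht)
    have hsum : a.eval t / (t + 2) ^ K' + b.eval t / (t + 1) ^ K =
        1 / ((t + 1) ^ K * (t + 2) ^ K') := by
      have h5 : a.eval t / (t + 2) ^ K' + b.eval t / (t + 1) ^ K =
          (a.eval t * (t + 1) ^ K + b.eval t * (t + 2) ^ K') /
            ((t + 1) ^ K * (t + 2) ^ K') := by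
        field_simp
      rw [h5, habt t]
    have hhalf : 1 / (2 * ((t + 1) ^ K * (t + 2) ^ K')) =
        (a.eval t / (t + 2) ^ K' + b.eval t / (t + 1) ^ K) / 2 := by
      rw [hsum]
      field_simp
    rw [hhalf] at hle
    have hht : h t = (b.eval t / (t + 1) ^ K - a.eval t / (t + 2) ^ K') / 2 := rfl
    rw [hht] at hlt
    have h1 : 0 < a.eval t / (t + 2) ^ K' + τ.eval t := by linarith [hlt.1]
    have h2 : 0 < b.eval t / (t + 1) ^ K - τ.eval t := by linarith [hlt.2]
    constructor
    · rw [Polynomial.eval_add, Polynomial.eval_mul, hv]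
      have h3 := mul_pos h1 hvpos
      have h4 : (a.eval t / (t + 2) ^ K' + τ.eval t) * (t + 2) ^ K' =
          a.eval t + τ.eval t * (t + 2) ^ K' := by
        field_simp
      rw [h4] at h3
      exact h3
    · rw [Polynomial.eval_sub, Polynomial.eval_mul, hu]
      have h3 := mul_pos h2 hupos
      have h4 : (b.eval t / (t + 1) ^ K - τ.eval t) * (t + 1) ^ K =
          b.eval t - τ.eval t * (t + 1) ^ K := by
        field_simp
      rw [h4] at h3
      exact h3
  · rw [← hab]
    ring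

theorem cop (n K K' : ℕ) (N : ℝ) :
    ∃ A B : MvPolynomial (Fin n ⊕ Fin n) ℝ, (∀ z, nn z ≤ N → 0 < ev A z ∧ 0 < ev B z) ∧
      A * WW n 1 ^ K + B * WW n 2 ^ K' = 1 := by
  obtain ⟨A, B, h1, h2⟩ := cop_one K K' (max N 0) (le_max_right _ _)
  refine ⟨Polynomial.aeval (WW n 0) A, Polynomial.aeval (WW n 0) B, fun z hz => ?_, ?_⟩
  · rw [cop_ev, cop_ev, ev_WW, zero_add]
    exact h1 (nn z) ⟨nn_nonneg z, hz.trans (le_max_left _ _)⟩
  · have h3 := congrArg (Polynomial.aeval (WW n 0)) h2
    have hW : ∀ c : ℝ, WW n 0 + C c = WW n c := by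
      intro c
      unfold WW
      rw [C_0]
      ring
    simp only [map_add, map_mul, map_pow, Polynomial.aeval_X, Polynomial.aeval_C, map_one] at h3
    rw [← hW 1, ← hW 2, C_1]
    exact h3

end Pool.Agent.Work.MP_49847a_an
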