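import Pool.Agent.Work.MP_49847a_an.Rat.SJL

/-!
# Module CpxQ: compactness

Proof.  For `nn z ≥ max R₀ 1`, `rr P q z ≥ δ (nn z)^d > 0`; so `rr P q z ≤ 0` implies
`nn z ≤ max R₀ 1`.  Then closed (`rr` is continuous: `exists_rho`, `ev_continuous`) and bounded.
-/

namespace Pool.Agent.Work.MP_49847a_an

open MvPolynomial

variable {n k d : ℕ} {P : Fin k → MvPolynomial (Fin n) ℂ} {q : MvPolynomial (Fin n) ℂ}

theorem rr_le_bound (hL : Lead d P q) : ∃ R : ℝ, 0 < R ∧ ∀ z, rr P q z ≤ 0 → nn z < R := by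
  obtain ⟨_, _, δ, hδ, R₀, h⟩ := hL
  refine ⟨max R₀ 1, lt_of_lt_of_le one_pos (le_max_right _ _), fun z hz => ?_⟩
  by_contra hcon
  push Not at hcon
  have h1 := h z ((le_max_left _ _).trans hcon)
  have h2 : 0 < nn z := lt_of_lt_of_le one_pos ((le_max_right _ _).trans hcon)
  have h3 : 0 < δ * nn z ^ d := by positivity
  linarith

theorem isBounded_rr_le (hL : Lead d P q) : Bornology.IsBounded {z | rr P q z ≤ 0} := by
  obtain ⟨R, hR, h⟩ := rr_le_bound hL
  refine (Metric.isBounded_closedBall (x := (0 : Fin n → ℂ)) (r := R + 1)).subset ?_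
  intro z hz
  rw [mem_closedBall_zero_iff, pi_norm_le_iff_of_nonneg (by linarith)]
  intro i
  have h1 : ‖z i‖ ^ 2 ≤ nn z :=
    Finset.single_le_sum (f := fun i => ‖z i‖ ^ 2) (fun _ _ => by positivity) (Finset.mem_univ i)
  have h2 := h z hz
  by_contra hcon
  push Not at hcon
  nlinarith

theorem isCompact_XQ (hL : Lead d P q) : IsCompact (XQ P q) := by
  refine Metric.isCompact_of_isClosed_isBounded ?_
    ((isBounded_rr_le hL).subset fun z hz => le_of_eq hz)
  obtain ⟨ρ, hρ⟩ := exists_rho P q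
  have h1 : Continuous (rr P q) := by
    have h2 : rr P q = ev ρ := funext fun z => (hρ z).symm
    rw [h2]
    exact ev_continuous ρ
  exact isClosed_singleton.preimage h1

end Pool.Agent.Work.MP_49847a_an
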