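import Pool.Agent.Work.MP_49847a_an.Rat.SJL

/-!
# Module DgL: degrees of real polynomials

Proofs.  As in module `Dec` (`dec`), with degree bounds: `nrm_append`, `nrm_mul` with
`Fin.append`, `finProdFinEquiv` written out to see the degrees (`totalDegree_mul`:
`totalDegree (p * q) ≤ totalDegree p + totalDegree q`).
`(a - b)(a' - b') = (a a' + b b') - (a b' + b a')`.  (Dg_exists): `dec` and the maximum of the finitely many
degrees.  (Dg_rho): `nrm P - |q|²`.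
-/

namespace Pool.Agent.Work.MP_49847a_an

open MvPolynomial

variable {n : ℕ} {e e' : ℕ} {F G : MvPolynomial (Fin n ⊕ Fin n) ℝ}

private theorem app_deg {m m' e : ℕ} (p : Fin m → MvPolynomial (Fin n) ℂ)
    (q : Fin m' → MvPolynomial (Fin n) ℂ) (hp : ∀ j, (p j).totalDegree ≤ e)
    (hq : ∀ j, (q j).totalDegree ≤ e) :
    (∀ j, (Fin.append p q j).totalDegree ≤ e) ∧
      ∀ z, nrm (Fin.append p q) z = nrm p z + nrm q z := by
  refine ⟨fun j => ?_, fun z => ?_⟩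
  · refine Fin.addCases (fun l => ?_) (fun l => ?_) j
    · rw [Fin.append_left]
      exact hp l
    · rw [Fin.append_right]
      exact hq l
  · unfold nrm
    rw [Fin.sum_univ_add]
    simp

private theorem mul_deg {m m' e e' : ℕ} (p : Fin m → MvPolynomial (Fin n) ℂ)
    (q : Fin m' → MvPolynomial (Fin n) ℂ) (hp : ∀ j, (p j).totalDegree ≤ e)
    (hq : ∀ j, (q j).totalDegree ≤ e') :
    ∃ s : Fin (m * m') → MvPolynomial (Fin n) ℂ, (∀ j, (s j).totalDegree ≤ e + e') ∧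
      ∀ z, nrm s z = nrm p z * nrm q z := by
  refine ⟨fun i => p (finProdFinEquiv.symm i).1 * q (finProdFinEquiv.symm i).2, fun j => ?_,
    fun z => ?_⟩
  · exact (totalDegree_mul _ _).trans (add_le_add (hp _) (hq _))
  · unfold nrm
    rw [Finset.sum_mul_sum, ← Finset.sum_product', Finset.univ_product_univ]
    refine Fintype.sum_equiv finProdFinEquiv.symm _ _ fun i => ?_
    rw [map_mul, norm_mul, mul_pow]

theorem Dg_mono (h : Dg e F) (he : e ≤ e') : Dg e' F := by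
  obtain ⟨m, a, m', b, h1, h2, h3⟩ := h
  exact ⟨m, a, m', b, fun j => (h1 j).trans he, fun j => (h2 j).trans he, h3⟩

theorem Dg_add (h : Dg e F) (h' : Dg e G) : Dg e (F + G) := by
  obtain ⟨m, a, m', b, h1, h2, h3⟩ := h
  obtain ⟨l, c, l', d, h4, h5, h6⟩ := h'
  obtain ⟨u1, u2⟩ := app_deg a c h1 h4
  obtain ⟨v1, v2⟩ := app_deg b d h2 h5
  refine ⟨_, _, _, _, u1, v1, fun z => ?_⟩
  rw [ev_add, h3, h6, u2, v2]
  ring

theorem Dg_mul (h : Dg e F) (h' : Dg e' G) : Dg (e + e') (F * G) := by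
  obtain ⟨m, a, m', b, h1, h2, h3⟩ := h
  obtain ⟨l, c, l', d, h4, h5, h6⟩ := h'
  obtain ⟨ac, ac1, ac2⟩ := mul_deg a c h1 h4
  obtain ⟨bd, bd1, bd2⟩ := mul_deg b d h2 h5
  obtain ⟨ad, ad1, ad2⟩ := mul_deg a d h1 h5
  obtain ⟨bc, bc1, bc2⟩ := mul_deg b c h2 h4
  obtain ⟨u1, u2⟩ := app_deg ac bd ac1 bd1
  obtain ⟨v1, v2⟩ := app_deg ad bc ad1 bc1
  refine ⟨_, _, _, _, u1, v1, fun z => ?_⟩
  rw [ev_mul, h3, h6, u2, v2, ac2, bd2, ad2, bc2]
  ring

theorem Dg_C (c : ℝ) : Dg 0 (C c : MvPolynomial (Fin n ⊕ Fin n) ℝ) := by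
  rcases le_total 0 c with hc | hc
  · refine ⟨1, fun _ => C ((Real.sqrt c : ℝ) : ℂ), 0, Fin.elim0, fun j => ?_, fun j => ?_,
      fun z => ?_⟩
    · rw [totalDegree_C]
    · exact Fin.elim0 j
    · rw [ev_C]
      simp [nrm, Real.sq_sqrt hc]
  · refine ⟨0, Fin.elim0, 1, fun _ => C ((Real.sqrt (-c) : ℝ) : ℂ), fun j => ?_, fun j => ?_,
      fun z => ?_⟩
    · exact Fin.elim0 j
    · rw [totalDegree_C]
    · rw [ev_C]
      simp [nrm, Real.sq_sqrt (neg_nonneg.2 hc)]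

theorem Dg_pow (h : Dg e F) (K : ℕ) : Dg (K * e) (F ^ K) := by
  induction K with
  | zero =>
    rw [pow_zero, Nat.zero_mul, ← C_1]
    exact Dg_C 1
  | succ K ih =>
    rw [pow_succ, Nat.succ_mul]
    exact Dg_mul ih h

theorem Dg_WW {c : ℝ} (hc : 0 ≤ c) : Dg 1 (WW n c) := by
  obtain ⟨m, p, hp, hp'⟩ := exists_nrm_WW (n := n) hc
  refine ⟨m, p, 0, Fin.elim0, hp, fun j => Fin.elim0 j, fun z => ?_⟩
  rw [ev_WW, hp']
  simp [nrm]

theorem Dg_exists (F : MvPolynomial (Fin n ⊕ Fin n) ℝ) : ∃ e, Dg e F := by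
  obtain ⟨m, a, m', b, h⟩ := dec F
  refine ⟨(∑ j, (a j).totalDegree) + ∑ j, (b j).totalDegree, m, a, m', b, fun j => ?_,
    fun j => ?_, h⟩
  · have h1 := Finset.single_le_sum (f := fun j => (a j).totalDegree) (fun _ _ => Nat.zero_le _)
      (Finset.mem_univ j)
    exact h1.trans (Nat.le_add_right _ _)
  · have h1 := Finset.single_le_sum (f := fun j => (b j).totalDegree) (fun _ _ => Nat.zero_le _)
      (Finset.mem_univ j)
    exact h1.trans (Nat.le_add_left _ _)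

theorem Dg_rho {k d : ℕ} {P : Fin k → MvPolynomial (Fin n) ℂ} {q : MvPolynomial (Fin n) ℂ}
    (hL : Lead d P q) (hF : ∀ z, ev F z = rr P q z) : Dg d F :=
  ⟨k, P, 1, fun _ => q, hL.1, fun _ => hL.2.1, fun z => by rw [hF z, rr, nrm_one]⟩

private theorem eval_bound {e : ℕ} (p : MvPolynomial (Fin n) ℂ) (hp : p.totalDegree ≤ e) :
    ∃ M : ℝ, 0 ≤ M ∧ ∀ z, ‖eval z p‖ ^ 2 ≤ M * (1 + nn z) ^ e := by
  refine ⟨(∑ d ∈ p.support, ‖coeff d p‖) ^ 2, by positivity, fun z => ?_⟩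
  have h0 : 0 ≤ nn z := nn_nonneg z
  set R : ℝ := Real.sqrt (1 + nn z) with hR
  have hR1 : 1 ≤ R := by
    rw [hR]
    exact Real.one_le_sqrt.2 (by linarith)
  have hRz : ∀ i, ‖z i‖ ≤ R := by
    intro i
    rw [hR]
    refine Real.le_sqrt_of_sq_le ?_
    have h1 : ‖z i‖ ^ 2 ≤ nn z :=
      Finset.single_le_sum (f := fun i => ‖z i‖ ^ 2) (fun _ _ => by positivity)
        (Finset.mem_univ i)
    linarith
  have h1 : ‖eval z p‖ ≤ (∑ d ∈ p.support, ‖coeff d p‖) * R ^ e := by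
    rw [eval_eq', Finset.sum_mul]
    refine (norm_sum_le _ _).trans (Finset.sum_le_sum fun d hd => ?_)
    rw [norm_mul, norm_prod]
    refine mul_le_mul_of_nonneg_left ?_ (norm_nonneg _)
    calc ∏ i, ‖z i ^ d i‖ ≤ ∏ i, R ^ d i := by
          refine Finset.prod_le_prod (fun _ _ => norm_nonneg _) fun i _ => ?_
          rw [norm_pow]
          exact pow_le_pow_left₀ (norm_nonneg _) (hRz i) _
      _ = R ^ (∑ i, d i) := Finset.prod_pow_eq_pow_sum _ _ _
      _ ≤ R ^ e := by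
          refine pow_le_pow_right₀ hR1 ?_
          have h2 : (d.sum fun _ e => e) ≤ p.totalDegree := le_totalDegree hd
          have h3 : (d.sum fun _ e => e) = ∑ i, d i := by
            rw [Finsupp.sum_fintype _ _ fun _ => rfl]
          omega
  have hsq : (R ^ e) ^ 2 = (1 + nn z) ^ e := by
    rw [← pow_mul, mul_comm, pow_mul, hR, Real.sq_sqrt (by linarith)]
  calc ‖eval z p‖ ^ 2 ≤ ((∑ d ∈ p.support, ‖coeff d p‖) * R ^ e) ^ 2 :=
        pow_le_pow_left₀ (norm_nonneg _) h1 2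
    _ = _ := by rw [mul_pow, hsq]

private theorem nrm_bound {m e : ℕ} (a : Fin m → MvPolynomial (Fin n) ℂ)
    (ha : ∀ j, (a j).totalDegree ≤ e) : ∃ M : ℝ, 0 ≤ M ∧ ∀ z, nrm a z ≤ M * (1 + nn z) ^ e := by
  choose M hM hM' using fun j => eval_bound (a j) (ha j)
  refine ⟨∑ j, M j, Finset.sum_nonneg fun j _ => hM j, fun z => ?_⟩
  unfold nrm
  rw [Finset.sum_mul]
  exact Finset.sum_le_sum fun j _ => hM' j z

/-- growth of a polynomial of degree `e` -/
theorem Dg_bound (h : Dg e F) : ∃ M : ℝ, 0 ≤ M ∧ ∀ z, |ev F z| ≤ M * (1 + nn z) ^ e := by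
  obtain ⟨m, a, m', b, h1, h2, h3⟩ := h
  obtain ⟨M, hM, hM'⟩ := nrm_bound a h1
  obtain ⟨N, hN, hN'⟩ := nrm_bound b h2
  refine ⟨M + N, by positivity, fun z => ?_⟩
  have ha : 0 ≤ nrm a z := Finset.sum_nonneg fun _ _ => by positivity
  have hb : 0 ≤ nrm b z := Finset.sum_nonneg fun _ _ => by positivity
  rw [h3, abs_le]
  constructor
  · linarith [hM' z, hN' z]
  · linarith [hM' z, hN' z]

end Pool.Agent.Work.MP_49847a_an
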