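import Pool.Agent.Work.MP_49847a_an.Rat.UpL
import Pool.Agent.Work.MP_49847a_an.Jac

/-!
# Module Fib: the fibre of `(y, z) ↦ (q(z) y, P_1(z) y, …, P_k(z) y)`

`Psi P q : Fin (k+1) → MvPolynomial (Fin (n+1)) ℂ`, `Psi 0 = q(z) y`, `Psi (j+1) = P_j(z) y`.

Proof.  Let `x = Fin.tail ξ`, `q(x) ξ 0 = 1`, `x ∈ XQ P q`.  Apply `ideal_eq` (module Jac) to
`Psi P q` at the point `ξ`.
(hfib) If `Psi(ζ) = Psi(ξ)`, `z = Fin.tail ζ`, `y = ζ 0`: `q(z) y = 1` and `P_j(z) y = P_j(x) ξ₀`; so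
`‖P(z)‖² |y|² = ‖P(x)‖² |ξ₀|² = |q(x) ξ₀|² = 1 = |q(z) y|²`, i.e. `z ∈ XQ P q`, and
`P_j(z) q(x) = P_j(z) q(x) (q(z) y) = q(z) q(x) P_j(x) ξ₀ = P_j(x) q(z)`, so `z = x` by `InjQ`, and
`y = 1/q(x) = ξ₀`.
(himm) `v = (η, w)`; `dPsi(ξ) v = 0` reads `dq(x)w ξ₀ + q(x) η = 0`, `dP_j(x)w ξ₀ + P_j(x) η = 0`
(`pderiv` of a product and of `rename Fin.succ`; Leibniz).  With `κ = -η/ξ₀`: `dq(x) w = κ q(x)`,
`dP_j(x) w = κ P_j(x)`.  Then `∑_j (dP_j w) conj P_j - (dq w) conj q = κ rr(x) = 0` and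
`∑ |dP_j w|² - |dq w|² = |κ|² rr(x) = 0`, so `LeviQ` forces `w = 0`; then `q(x) η = 0`, `η = 0`.
-/

namespace Pool.Agent.Work.MP_49847a_an

open MvPolynomial

/-- `(q(z) y, P_1(z) y, …, P_k(z) y)` -/
noncomputable def Psi {n k : ℕ} (P : Fin k → MvPolynomial (Fin n) ℂ)
    (q : MvPolynomial (Fin n) ℂ) : Fin (k + 1) → MvPolynomial (Fin (n + 1)) ℂ :=
  Fin.cons (uph q * X 0) (fun j => uph (P j) * X 0)

private theorem fib_der {n : ℕ} (f : MvPolynomial (Fin n) ℂ) (ξ v : Fin (n + 1) → ℂ) :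
    ∑ i, eval ξ (pderiv i (uph f * X 0)) * v i =
      eval (Fin.tail ξ) f * v 0 + dq f (Fin.tail ξ) (Fin.tail v) * ξ 0 := by
  have h0 : pderiv (0 : Fin (n + 1)) (uph f) = 0 := by
    refine pderiv_eq_zero_of_notMem_vars fun h => ?_
    have h2 := vars_rename Fin.succ f h
    rw [Finset.mem_image] at h2
    obtain ⟨i, -, hi⟩ := h2
    exact Fin.succ_ne_zero i hi
  have h1 : ∀ i : Fin n, pderiv i.succ (uph f) = uph (pderiv i f) := fun i =>
    pderiv_rename (Fin.succ_injective n) i f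
  rw [Fin.sum_univ_succ]
  congr 1
  · rw [pderiv_mul, h0, pderiv_X_self, zero_mul, zero_add, mul_one, eval_uph]
  · unfold dq
    rw [Finset.sum_mul]
    refine Finset.sum_congr rfl fun i _ => ?_
    rw [pderiv_mul, h1, pderiv_X_of_ne (Fin.succ_ne_zero i).symm, mul_zero, add_zero, map_mul,
      eval_uph, eval_X]
    show _ = eval (Fin.tail ξ) (pderiv i f) * v i.succ * ξ 0
    ring

private theorem fib_e0 {n k : ℕ} (P : Fin k → MvPolynomial (Fin n) ℂ)
    (q : MvPolynomial (Fin n) ℂ) (ζ : Fin (n + 1) → ℂ) :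
    eval ζ (Psi P q 0) = eval (Fin.tail ζ) q * ζ 0 := by
  unfold Psi
  rw [Fin.cons_zero, map_mul, eval_uph, eval_X]

private theorem fib_e1 {n k : ℕ} (P : Fin k → MvPolynomial (Fin n) ℂ)
    (q : MvPolynomial (Fin n) ℂ) (ζ : Fin (n + 1) → ℂ) (j : Fin k) :
    eval ζ (Psi P q j.succ) = eval (Fin.tail ζ) (P j) * ζ 0 := by
  unfold Psi
  rw [Fin.cons_succ, map_mul, eval_uph, eval_X]

theorem fib {n k : ℕ} {P : Fin k → MvPolynomial (Fin n) ℂ} {q : MvPolynomial (Fin n) ℂ}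
    (hinj : InjQ P q) (hlevi : LeviQ P q) {ξ : Fin (n + 1) → ℂ}
    (hx : Fin.tail ξ ∈ XQ P q) (hq : eval (Fin.tail ξ) q * ξ 0 = 1) :
    Ideal.span (Set.range fun j => Psi P q j - C (eval ξ (Psi P q j))) =
      RingHom.ker (eval ξ) := by
  have hξ0 : ξ 0 ≠ 0 := right_ne_zero_of_mul_eq_one hq
  have hqx : eval (Fin.tail ξ) q ≠ 0 := left_ne_zero_of_mul_eq_one hq
  have hx' : nrm P (Fin.tail ξ) - ‖eval (Fin.tail ξ) q‖ ^ 2 = 0 := hx
  refine ideal_eq ?_ ?_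
  · intro ζ h
    have h0 : eval (Fin.tail ζ) q * ζ 0 = 1 := by
      have h2 := congrFun h 0
      have h3 : eval ζ (Psi P q 0) = eval ξ (Psi P q 0) := h2
      rw [fib_e0, fib_e0, hq] at h3
      exact h3
    have h1 : ∀ j, eval (Fin.tail ζ) (P j) * ζ 0 = eval (Fin.tail ξ) (P j) * ξ 0 := by
      intro j
      have h3 : eval ζ (Psi P q j.succ) = eval ξ (Psi P q j.succ) := congrFun h j.succ
      rw [fib_e1, fib_e1] at h3
      exact h3
    have hζ0 : ζ 0 ≠ 0 := right_ne_zero_of_mul_eq_one h0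
    have hz : Fin.tail ζ ∈ XQ P q := by
      show nrm P (Fin.tail ζ) - ‖eval (Fin.tail ζ) q‖ ^ 2 = 0
      have e1 : nrm P (Fin.tail ζ) * ‖ζ 0‖ ^ 2 = nrm P (Fin.tail ξ) * ‖ξ 0‖ ^ 2 := by
        unfold nrm
        rw [Finset.sum_mul, Finset.sum_mul]
        refine Finset.sum_congr rfl fun j _ => ?_
        rw [← mul_pow, ← mul_pow, ← norm_mul, ← norm_mul, h1]
      have e2 : ‖eval (Fin.tail ζ) q‖ ^ 2 * ‖ζ 0‖ ^ 2 = 1 := by
        rw [← mul_pow, ← norm_mul, h0]; simp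
      have e3 : ‖eval (Fin.tail ξ) q‖ ^ 2 * ‖ξ 0‖ ^ 2 = 1 := by
        rw [← mul_pow, ← norm_mul, hq]; simp
      have e4 : ‖ζ 0‖ ^ 2 ≠ 0 := by positivity
      refine (mul_eq_zero.1 (?_ : (nrm P (Fin.tail ζ) - ‖eval (Fin.tail ζ) q‖ ^ 2) *
        ‖ζ 0‖ ^ 2 = 0)).resolve_right e4
      rw [sub_mul, e1, e2, ← e3, ← sub_mul, hx', zero_mul]
    have hzx : Fin.tail ζ = Fin.tail ξ := by
      refine hinj _ hz _ hx fun j => ?_
      refine mul_right_cancel₀ (mul_ne_zero hζ0 hξ0) ?_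
      calc eval (Fin.tail ζ) (P j) * eval (Fin.tail ξ) q * (ζ 0 * ξ 0)
          = (eval (Fin.tail ζ) (P j) * ζ 0) * (eval (Fin.tail ξ) q * ξ 0) := by ring
        _ = (eval (Fin.tail ξ) (P j) * ξ 0) * (eval (Fin.tail ζ) q * ζ 0) := by
            rw [h1, hq, h0]
        _ = _ := by ring
    have h00 : ζ 0 = ξ 0 := by
      rw [hzx] at h0
      exact mul_left_cancel₀ hqx (h0.trans hq.symm)
    funext i
    refine Fin.cases h00 (fun i => ?_) i
    exact congrFun hzx i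
  · intro v hv
    have h0 : eval (Fin.tail ξ) q * v 0 + dq q (Fin.tail ξ) (Fin.tail v) * ξ 0 = 0 := by
      rw [← fib_der]
      exact hv 0
    have h1 : ∀ j, eval (Fin.tail ξ) (P j) * v 0 +
        dd P (Fin.tail ξ) (Fin.tail v) j * ξ 0 = 0 := by
      intro j
      have h2 := fib_der (P j) ξ v
      have h3 := hv j.succ
      have h4 : dd P (Fin.tail ξ) (Fin.tail v) j = dq (P j) (Fin.tail ξ) (Fin.tail v) := rfl
      rw [h4, ← h2]
      exact h3
    set κ : ℂ := -(v 0 / ξ 0) with hκ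
    have h0' : dq q (Fin.tail ξ) (Fin.tail v) = κ * eval (Fin.tail ξ) q := by
      rw [hκ]
      field_simp
      linear_combination h0
    have h1' : ∀ j, dd P (Fin.tail ξ) (Fin.tail v) j = κ * eval (Fin.tail ξ) (P j) := by
      intro j
      rw [hκ]
      field_simp
      linear_combination h1 j
    have hw : Fin.tail v = 0 := by
      by_contra hne
      have h2 := hlevi (Fin.tail ξ) hx (Fin.tail v) hne (by
        have e1 : ∑ j, dd P (Fin.tail ξ) (Fin.tail v) j *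
            (starRingEnd ℂ) (eval (Fin.tail ξ) (P j)) = κ * ((nrm P (Fin.tail ξ) : ℝ) : ℂ) := by
          unfold nrm
          push_cast
          rw [Finset.mul_sum]
          refine Finset.sum_congr rfl fun j _ => ?_
          rw [h1', mul_assoc, Complex.mul_conj, Complex.normSq_eq_norm_sq]
          push_cast
          ring
        have e2 : dq q (Fin.tail ξ) (Fin.tail v) * (starRingEnd ℂ) (eval (Fin.tail ξ) q) =
            κ * ((‖eval (Fin.tail ξ) q‖ ^ 2 : ℝ) : ℂ) := by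
          rw [h0', mul_assoc, Complex.mul_conj, Complex.normSq_eq_norm_sq]
        rw [e1, e2, ← mul_sub, ← Complex.ofReal_sub, hx', Complex.ofReal_zero, mul_zero])
      have e3 : ∑ j, ‖dd P (Fin.tail ξ) (Fin.tail v) j‖ ^ 2 -
          ‖dq q (Fin.tail ξ) (Fin.tail v)‖ ^ 2 = ‖κ‖ ^ 2 * 0 := by
        rw [← hx', mul_sub]
        unfold nrm
        rw [Finset.mul_sum, h0', norm_mul, mul_pow]
        congr 1
        refine Finset.sum_congr rfl fun j _ => ?_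
        rw [h1', norm_mul, mul_pow]
      rw [e3, mul_zero] at h2
      exact lt_irrefl _ h2
    have hv0 : v 0 = 0 := by
      have h2 : dq q (Fin.tail ξ) (Fin.tail v) = 0 := by
        rw [hw]
        unfold dq
        simp
      rw [h2, zero_mul, add_zero] at h0
      exact (mul_eq_zero.1 h0).resolve_left hqx
    funext i
    refine Fin.cases hv0 (fun i => ?_) i
    exact congrFun hw i

end Pool.Agent.Work.MP_49847a_an
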