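import Pool.Agent.Work.MP_49847a_an.Rat.DgL

/-!
# Module Glob: a positive polynomial on `XQ P q` is globally positive modulo `(‖P‖² - |q|²)²`

Proof.  `r = rr P q = ev ρ`.  Let `Dg e₀ f` (`Dg_exists`), `B = e₀ + 1`, `e = 2 d + B`;
`F_M = f + C M * ρ ^ 2 * WW n 1 ^ B`.  Degree: `Dg e F_M` for every `M` (`Dg_rho`, `Dg_WW`, `Dg_mul`, …).
By `Lead`, for `nn z ≥ R₀` (enlarge `R₀ ≥ 1`): `r² (1 + nn z)^B ≥ δ² (nn z)^(2d+B)`, and
`|f z| ≤ M₀ (1 + nn z)^e₀ ≤ M₀ (2 nn z)^e₀` (`Dg_bound`); so for `M ≥ 1` and `nn z ≥ R₁` (large,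
independent of `M`), `F_M(z) ≥ (δ²/2) (nn z)^e > 0`.
On the compact set `{nn z ≤ R₁, f z ≤ 0}` (closed and bounded; `ev_continuous`) `r ≠ 0`
(`f > 0` where `r = 0`), so `r² ≥ μ > 0` there and `|f| ≤ M₁`; for `M > M₁/μ`, `M ≥ 1`, `F_M > 0` there,
and where `f > 0`, `F_M ≥ f > 0`.
-/

namespace Pool.Agent.Work.MP_49847a_an

open MvPolynomial

private theorem gl_nn_cont {n : ℕ} : Continuous (nn : (Fin n → ℂ) → ℝ) := by
  unfold nn
  fun_prop

private theorem gl_bdd {n : ℕ} (R : ℝ) : Bornology.IsBounded {z : Fin n → ℂ | nn z ≤ R} := by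
  refine (Metric.isBounded_closedBall (x := (0 : Fin n → ℂ)) (r := Real.sqrt |R|)).subset
    fun z hz => ?_
  rw [mem_closedBall_zero_iff, pi_norm_le_iff_of_nonneg (Real.sqrt_nonneg _)]
  intro i
  refine Real.le_sqrt_of_sq_le ?_
  have h1 : ‖z i‖ ^ 2 ≤ nn z :=
    Finset.single_le_sum (f := fun i => ‖z i‖ ^ 2) (fun _ _ => by positivity) (Finset.mem_univ i)
  have h2 : nn z ≤ R := hz
  exact h1.trans (h2.trans (le_abs_self R))

theorem glob {n k d : ℕ} {P : Fin k → MvPolynomial (Fin n) ℂ} {q : MvPolynomial (Fin n) ℂ}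
    (hL : Lead d P q) {ρ : MvPolynomial (Fin n ⊕ Fin n) ℝ} (hρ : ∀ z, ev ρ z = rr P q z)
    {f : MvPolynomial (Fin n ⊕ Fin n) ℝ} (hf : ∀ z ∈ XQ P q, 0 < ev f z) :
    ∃ (M : ℝ) (B e : ℕ), Dg e (f + C M * ρ ^ 2 * WW n 1 ^ B) ∧
      (∀ z, 0 < ev (f + C M * ρ ^ 2 * WW n 1 ^ B) z) ∧ Gr e (f + C M * ρ ^ 2 * WW n 1 ^ B) := by
  obtain ⟨e₀, he₀⟩ := Dg_exists f
  obtain ⟨M₀, hM₀, hbd⟩ := Dg_bound he₀
  have hL' := hL
  obtain ⟨_, _, δ, hδ, R₀, hR₀⟩ := hL'
  set B : ℕ := e₀ + 1 with hB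
  set C₀ : ℝ := M₀ * 2 ^ e₀ with hC₀
  have hC₀0 : 0 ≤ C₀ := by positivity
  set R₁ : ℝ := max (max R₀ 1) (2 * C₀ / δ ^ 2) with hR₁
  have hevF : ∀ (M : ℝ) (z : Fin n → ℂ), ev (f + C M * ρ ^ 2 * WW n 1 ^ B) z =
      ev f z + M * rr P q z ^ 2 * (1 + nn z) ^ B := by
    intro M z
    rw [ev_add, ev_mul, ev_mul, ev_C, ev_pow, ev_pow, hρ, ev_WW]
  have hgrow : ∀ M : ℝ, 1 ≤ M → ∀ z : Fin n → ℂ, R₁ ≤ nn z →
      δ ^ 2 / 2 * nn z ^ (2 * d + B) ≤ ev (f + C M * ρ ^ 2 * WW n 1 ^ B) z := by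
    intro M hM z hz
    have hz0 : R₀ ≤ nn z := ((le_max_left _ _).trans (le_max_left _ _)).trans hz
    have hz1 : 1 ≤ nn z := ((le_max_right _ _).trans (le_max_left _ _)).trans hz
    have hz2 : 2 * C₀ / δ ^ 2 ≤ nn z := (le_max_right _ _).trans hz
    have hnn0 : 0 ≤ nn z := by linarith
    have h1 := hR₀ z hz0
    have h2 : (δ * nn z ^ d) ^ 2 ≤ rr P q z ^ 2 := pow_le_pow_left₀ (by positivity) h1 2
    have h3 : nn z ^ B ≤ (1 + nn z) ^ B := pow_le_pow_left₀ hnn0 (by linarith) B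
    have h4 : δ ^ 2 * nn z ^ (2 * d + B) ≤ M * rr P q z ^ 2 * (1 + nn z) ^ B := by
      calc δ ^ 2 * nn z ^ (2 * d + B) = 1 * (δ * nn z ^ d) ^ 2 * nn z ^ B := by
            rw [pow_add, mul_pow, ← pow_mul, mul_comm d 2]
            ring
        _ ≤ M * rr P q z ^ 2 * (1 + nn z) ^ B := by
            gcongr
    have h5 : |ev f z| ≤ C₀ * nn z ^ e₀ := by
      refine (hbd z).trans ?_
      calc M₀ * (1 + nn z) ^ e₀ ≤ M₀ * (2 * nn z) ^ e₀ := by
            gcongr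
            linarith
        _ = C₀ * nn z ^ e₀ := by
            rw [hC₀, mul_pow]
            ring
    have h6 : C₀ * nn z ^ e₀ ≤ δ ^ 2 / 2 * nn z ^ (2 * d + B) := by
      have h7 : C₀ ≤ δ ^ 2 / 2 * nn z := by
        rw [div_le_iff₀ (by positivity)] at hz2
        linarith
      have h8 : nn z ^ e₀ * nn z ≤ nn z ^ (2 * d + B) := by
        rw [← pow_succ]
        exact pow_le_pow_right₀ hz1 (by omega)
      calc C₀ * nn z ^ e₀ ≤ (δ ^ 2 / 2 * nn z) * nn z ^ e₀ :=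
            mul_le_mul_of_nonneg_right h7 (by positivity)
        _ = δ ^ 2 / 2 * (nn z ^ e₀ * nn z) := by ring
        _ ≤ _ := mul_le_mul_of_nonneg_left h8 (by positivity)
    have h9 := neg_abs_le (ev f z)
    rw [hevF]
    linarith
  -- the compact part
  have hrc : Continuous (rr P q) := by
    have : rr P q = ev ρ := by
      funext z
      exact (hρ z).symm
    rw [this]
    exact ev_continuous ρ
  set Kc : Set (Fin n → ℂ) := {z | nn z ≤ R₁} ∩ {z | ev f z ≤ 0} with hKc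
  have hcomp : IsCompact Kc := by
    refine Metric.isCompact_of_isClosed_isBounded ?_ ((gl_bdd R₁).subset Set.inter_subset_left)
    exact (isClosed_le gl_nn_cont continuous_const).inter
      (isClosed_le (ev_continuous f) continuous_const)
  have hr0 : ∀ z ∈ Kc, rr P q z ≠ 0 := by
    intro z hz h0
    have h1 := hf z h0
    have h2 : ev f z ≤ 0 := hz.2
    linarith
  obtain ⟨M₁, hM₁⟩ := hcomp.exists_bound_of_continuousOn
    (f := fun z => ev f z / rr P q z ^ 2)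
    (ContinuousOn.div (ev_continuous f).continuousOn (hrc.pow 2).continuousOn
      fun z hz => pow_ne_zero 2 (hr0 z hz))
  set M : ℝ := max 1 (M₁ + 1) with hM
  have hM1 : 1 ≤ M := le_max_left _ _
  refine ⟨M, B, 2 * d + B, ?_, ?_, ?_⟩
  · refine Dg_add (Dg_mono he₀ (by omega)) ?_
    have h1 := Dg_mul (Dg_mul (Dg_C (n := n) M) (Dg_pow (Dg_rho hL hρ) 2))
      (Dg_pow (Dg_WW (n := n) zero_le_one) B)
    rw [zero_add, mul_one] at h1
    exact h1
  · intro z
    by_cases hz : R₁ ≤ nn z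
    · have h1 := hgrow M hM1 z hz
      have hz1 : 1 ≤ nn z := ((le_max_right _ _).trans (le_max_left _ _)).trans hz
      have h2 : 0 < δ ^ 2 / 2 * nn z ^ (2 * d + B) := by positivity
      linarith
    · push Not at hz
      rw [hevF]
      have hnn0 := nn_nonneg z
      have hM0 : 0 < M := by linarith
      by_cases hf0 : ev f z ≤ 0
      · have hzK : z ∈ Kc := ⟨le_of_lt hz, hf0⟩
        have h1 := hM₁ z hzK
        have hrne := hr0 z hzK
        have hrp : 0 < rr P q z ^ 2 := by positivity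
        rw [Real.norm_eq_abs] at h1
        have h2 : -(ev f z / rr P q z ^ 2) ≤ M₁ := (neg_le_abs _).trans h1
        have h3 : -(ev f z) ≤ M₁ * rr P q z ^ 2 := by
          have h4 : -(ev f z) = -(ev f z / rr P q z ^ 2) * rr P q z ^ 2 := by
            field_simp
          rw [h4]
          exact mul_le_mul_of_nonneg_right h2 hrp.le
        have h5 : M₁ * rr P q z ^ 2 < M * rr P q z ^ 2 := by
          refine mul_lt_mul_of_pos_right ?_ hrp
          have := le_max_right 1 (M₁ + 1)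
          linarith
        have h6 : M * rr P q z ^ 2 * 1 ≤ M * rr P q z ^ 2 * (1 + nn z) ^ B :=
          mul_le_mul_of_nonneg_left (one_le_pow₀ (by linarith)) (by positivity)
        linarith
      · push Not at hf0
        have : 0 ≤ M * rr P q z ^ 2 * (1 + nn z) ^ B := by positivity
        linarith
  · exact ⟨δ ^ 2 / 2, by positivity, R₁, fun z hz => hgrow M hM1 z hz⟩

end Pool.Agent.Work.MP_49847a_an
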