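import Pool.Agent.Work.MP_49847a_an.Rat.SJL

/-!
# Module Hom: homogenisation

Proof.  `p' = ∑_{i ≤ e} (C (1/√c) * X 0)^(e-i) * rename Fin.succ (homogeneousComponent i p)`; its value at
`(τ, z)` is `∑_i (τ/√c)^(e-i) p^{(i)}(z)`, homogeneous of degree `e`; at `τ = √c` it is `∑_i p^{(i)}(z) =
p(z)` (`totalDegree ≤ e`).  (exists_hom_eval) set the first variable equal to a constant
(`bind₁`/`aeval (Fin.cons (C t) X)`).
-/

namespace Pool.Agent.Work.MP_49847a_an

open MvPolynomial

private theorem eval_homog_aux {m i : ℕ} (g : MvPolynomial (Fin m) ℂ) (t : ℂ) (ζ : Fin m → ℂ) :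
    eval (fun j => t * ζ j) (homogeneousComponent i g) =
      t ^ i * eval ζ (homogeneousComponent i g) := by
  have hh := homogeneousComponent_isHomogeneous i g
  rw [eval_eq', eval_eq', Finset.mul_sum]
  refine Finset.sum_congr rfl fun d hd => ?_
  have h1 : ∑ j, d j = i := by
    rw [hh.degree_eq_sum_deg_support hd]
    exact (Finset.sum_subset (Finset.subset_univ _) fun j _ hj => by
      simpa using hj).symm
  have h2 : ∏ j, (t * ζ j) ^ d j = t ^ i * ∏ j, ζ j ^ d j := by
    rw [← h1, ← Finset.prod_pow_eq_pow_sum, ← Finset.prod_mul_distrib]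
    exact Finset.prod_congr rfl fun j _ => mul_pow _ _ _
  rw [h2]
  ring

theorem exists_hom {n e : ℕ} {c : ℝ} (hc : 0 < c) (p : MvPolynomial (Fin n) ℂ)
    (hp : p.totalDegree ≤ e) :
    ∃ p' : MvPolynomial (Fin (n + 1)) ℂ,
      (∀ (t : ℂ) (ζ : Fin (n + 1) → ℂ), eval (fun i => t * ζ i) p' = t ^ e * eval ζ p') ∧
      ∀ z : Fin n → ℂ, eval (Fin.cons ((Real.sqrt c : ℝ) : ℂ) z : Fin (n + 1) → ℂ) p' = eval z p := by
  have hc' : (Real.sqrt c : ℝ) ≠ 0 := (Real.sqrt_pos.2 hc).ne'
  have hcc : ((Real.sqrt c : ℝ) : ℂ) ≠ 0 := by exact_mod_cast hc'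
  refine ⟨∑ i ∈ Finset.range (e + 1), (C (((Real.sqrt c : ℝ) : ℂ)⁻¹) * X 0) ^ (e - i) *
    rename Fin.succ (homogeneousComponent i p), fun t ζ => ?_, fun z => ?_⟩
  · rw [map_sum, map_sum, Finset.mul_sum]
    refine Finset.sum_congr rfl fun i hi => ?_
    have hi' : i ≤ e := Nat.lt_succ_iff.1 (Finset.mem_range.1 hi)
    have h1 := eval_homog_aux (i := i) p t (fun j => ζ (Fin.succ j))
    simp only [map_mul, map_pow, eval_C, eval_X, eval_rename]
    have h2 : eval ((fun i => t * ζ i) ∘ Fin.succ) (homogeneousComponent i p) =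
        t ^ i * eval (ζ ∘ Fin.succ) (homogeneousComponent i p) := h1
    rw [h2]
    have h3 : t ^ e = t ^ (e - i) * t ^ i := by
      rw [← pow_add, Nat.sub_add_cancel hi']
    rw [h3, mul_left_comm (((Real.sqrt c : ℝ) : ℂ)⁻¹) t, mul_pow]
    ring
  · rw [map_sum]
    have h1 : ∀ i, eval (Fin.cons ((Real.sqrt c : ℝ) : ℂ) z : Fin (n + 1) → ℂ)
        ((C (((Real.sqrt c : ℝ) : ℂ)⁻¹) * X 0) ^ (e - i) *
          rename Fin.succ (homogeneousComponent i p)) = eval z (homogeneousComponent i p) := by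
      intro i
      simp only [map_mul, map_pow, eval_C, eval_X, eval_rename, Fin.cons_zero]
      rw [inv_mul_cancel₀ hcc, one_pow, one_mul]
      congr 1
    rw [Finset.sum_congr rfl fun i _ => h1 i, ← map_sum]
    congr 1
    have h2 : ∑ i ∈ Finset.range (e + 1), homogeneousComponent i p =
        ∑ i ∈ Finset.range (p.totalDegree + 1), homogeneousComponent i p := by
      symm
      refine Finset.sum_subset (fun x hx => ?_) fun x _ hx => ?_
      · rw [Finset.mem_range] at hx ⊢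
        omega
      · rw [Finset.mem_range, not_lt] at hx
        exact homogeneousComponent_eq_zero _ _ (by omega)
    rw [h2, sum_homogeneousComponent]

theorem exists_dehom {n : ℕ} (t : ℂ) (g : MvPolynomial (Fin (n + 1)) ℂ) :
    ∃ g' : MvPolynomial (Fin n) ℂ, ∀ z : Fin n → ℂ,
      eval z g' = eval (Fin.cons t z : Fin (n + 1) → ℂ) g := by
  refine ⟨bind₁ (Fin.cons (C t) X : Fin (n + 1) → MvPolynomial (Fin n) ℂ) g, fun z => ?_⟩
  rw [← aeval_eq_eval, ← aeval_eq_eval, aeval_bind₁]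
  congr 2
  funext i
  refine Fin.cases ?_ (fun l => ?_) i
  · simp
  · simp

theorem eval_homog {m i : ℕ} (g : MvPolynomial (Fin m) ℂ) (t : ℂ) (ζ : Fin m → ℂ) :
    eval (fun j => t * ζ j) (homogeneousComponent i g) =
      t ^ i * eval ζ (homogeneousComponent i g) := eval_homog_aux g t ζ

end Pool.Agent.Work.MP_49847a_an
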