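import Pool.Agent.Work.MP_49847a_an.KD

/-!
# Module KDM: Kadison-Dubois theorem for modules over a semiring

`S` is a semiring, `M` a convex cone with `S M ⊂ M`, `1 ∈ M` an order unit of `M`.

Proof.  Copy module `KD`.  (0) If `-1 ∈ M` then `M = A`: `f = (N + f) + N (-1)` with `N ≥ 0`,
`N - (-f) ∈ M`, and `N (-1) ∈ M` since the constant `N` is in `S`.  (1), (2): Hahn-Banach and
Krein-Milman for the set `K` of the linear `φ` with `φ 1 = 1`, `φ ≥ 0` on `M` (only the cone property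
and the order unit are used): an extreme point `φ` of `K` with `φ f ≤ 0`.
(3) If `s ∈ S` and `c - s ∈ S` then `φ(s a) = φ(s) φ(a)` for all `a ∈ A`: scale to `c = 1`
(`c ≥ 0` may be assumed, enlarge it, then `s/c`); for `0 < φ s < 1` both `a ↦ φ(s a)/φ(s)` and
`a ↦ φ((1-s) a)/φ(1-s)` are in `K` because `s M ⊂ M`, `(1-s) M ⊂ M`.  If `φ s = 0`: for `t ∈ M` with
`N - t ∈ M`, `0 ≤ φ(s t) ≤ N φ(s) = 0`, and every `a = N - (N - a)` is a difference of elements of `M`; the
same for `1 - s` if `φ s = 1`.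
-/

namespace Pool.Agent.Work.MP_49847a_an

/-- positive functionals -/
private def kmK {A : Type*} [CommRing A] [Algebra ℝ A] (S : Set A) : Set (A → ℝ) :=
  {φ | (∀ a b, φ (a + b) = φ a + φ b) ∧ (∀ (c : ℝ) a, φ (c • a) = c * φ a) ∧ φ 1 = 1 ∧
    ∀ s ∈ S, 0 ≤ φ s}

private theorem km_smul {A : Type*} [CommRing A] [Algebra ℝ A] {S M : Set A}
    (hmul : ∀ a ∈ S, ∀ b ∈ M, a * b ∈ M) (hreal : ∀ c : ℝ, 0 ≤ c → algebraMap ℝ A c ∈ S)
    {c : ℝ} (hc : 0 ≤ c) {a : A} (ha : a ∈ M) : c • a ∈ M := by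
  rw [Algebra.smul_def]
  exact hmul _ (hreal c hc) _ ha

private theorem km_algMap {A : Type*} [CommRing A] [Algebra ℝ A] {S : Set A} {φ : A → ℝ}
    (hφ : φ ∈ kmK S) (c : ℝ) : φ (algebraMap ℝ A c) = c := by
  rw [Algebra.algebraMap_eq_smul_one, hφ.2.1, hφ.2.2.1, mul_one]

private theorem km_neg {A : Type*} [CommRing A] [Algebra ℝ A] {S : Set A} {φ : A → ℝ}
    (hφ : φ ∈ kmK S) (a : A) : φ (-a) = -φ a := by
  have : (-a) = (-1 : ℝ) • a := by rw [neg_smul, one_smul]
  rw [this, hφ.2.1]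
  ring

private theorem km_sub {A : Type*} [CommRing A] [Algebra ℝ A] {S : Set A} {φ : A → ℝ}
    (hφ : φ ∈ kmK S) (a b : A) : φ (a - b) = φ a - φ b := by
  rw [sub_eq_add_neg, hφ.1, km_neg hφ]
  ring

private theorem km_zero {A : Type*} [CommRing A] [Algebra ℝ A] {S : Set A} {φ : A → ℝ}
    (hφ : φ ∈ kmK S) : φ 0 = 0 := by
  have := hφ.2.1 0 0
  rw [zero_smul, zero_mul] at this
  exact this

private theorem km_compact {A : Type*} [CommRing A] [Algebra ℝ A] (S : Set A)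
    (harch : ∀ a : A, ∃ N : ℝ, algebraMap ℝ A N - a ∈ S) : IsCompact (kmK S) := by
  choose N hN using harch
  have hb : kmK S ⊆ Set.pi Set.univ (fun a => Set.Icc (-N (-a)) (N a)) := by
    intro φ hφ a _
    constructor
    · have h1 := hφ.2.2.2 _ (hN (-a))
      rw [km_sub hφ, km_algMap hφ, km_neg hφ] at h1
      linarith
    · have h1 := hφ.2.2.2 _ (hN a)
      rw [km_sub hφ, km_algMap hφ] at h1
      linarith
  refine IsCompact.of_isClosed_subset (isCompact_univ_pi (fun a => isCompact_Icc)) ?_ hb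
  have e : kmK S = (⋂ a, ⋂ b, {φ : A → ℝ | φ (a + b) = φ a + φ b}) ∩
      ((⋂ c : ℝ, ⋂ a, {φ : A → ℝ | φ (c • a) = c * φ a}) ∩ ({φ : A → ℝ | φ 1 = 1} ∩
      ⋂ s : S, {φ : A → ℝ | 0 ≤ φ s})) := by
    ext φ
    simp only [kmK, Set.mem_ofPred_eq, Set.mem_inter_iff, Set.mem_iInter, Subtype.forall]
  rw [e]
  refine IsClosed.inter ?_ (IsClosed.inter ?_ (IsClosed.inter ?_ ?_))
  · exact isClosed_iInter fun a => isClosed_iInter fun b =>
      isClosed_eq (continuous_apply _) (by fun_prop)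
  · exact isClosed_iInter fun c => isClosed_iInter fun a =>
      isClosed_eq (continuous_apply _) (continuous_const.mul (continuous_apply _))
  · exact isClosed_eq (continuous_apply _) continuous_const
  · exact isClosed_iInter fun s => isClosed_le continuous_const (continuous_apply _)

private theorem km_exists {A : Type*} [CommRing A] [Algebra ℝ A] (S M : Set A)
    (hadd : ∀ a ∈ M, ∀ b ∈ M, a + b ∈ M) (hmul : ∀ a ∈ S, ∀ b ∈ M, a * b ∈ M)
    (hreal : ∀ c : ℝ, 0 ≤ c → algebraMap ℝ A c ∈ S) (h1M : (1 : A) ∈ M)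
    (harch : ∀ a : A, ∃ N : ℝ, algebraMap ℝ A N - a ∈ M) {f : A} (hf : f ∉ M)
    (hone : (-1 : A) ∉ M) : ∃ φ ∈ kmK M, φ f ≤ 0 := by
  have h0S : (0 : A) ∈ M := by
    have := hmul _ (hreal 0 le_rfl) _ h1M
    rwa [map_zero, zero_mul] at this
  have hnz : (1 : A) ≠ 0 := by
    intro h
    apply hone
    rw [h, neg_zero]
    exact h0S
  let C : PointedCone ℝ A :=
    { carrier := {x | ∃ s ∈ M, ∃ t : ℝ, 0 ≤ t ∧ x = s - t • f}
      add_mem' := by
        rintro x y ⟨s, hs, t, ht, rfl⟩ ⟨s', hs', t', ht', rfl⟩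
        exact ⟨s + s', hadd s hs s' hs', t + t', add_nonneg ht ht', by rw [add_smul]; ring⟩
      zero_mem' := ⟨0, h0S, 0, le_rfl, by simp⟩
      smul_mem' := by
        rintro c x ⟨s, hs, t, ht, rfl⟩
        refine ⟨(c : ℝ) • s, km_smul hmul hreal c.2 hs, c * t, mul_nonneg c.2 ht, ?_⟩
        change (c : ℝ) • (s - t • f) = _
        rw [smul_sub, smul_smul] }
  have hC : ∀ x, x ∈ C ↔ ∃ s ∈ M, ∃ t : ℝ, 0 ≤ t ∧ x = s - t • f := fun x => Iff.rfl
  obtain ⟨g, hg1, hg2⟩ := riesz_extension C (LinearPMap.mkSpanSingleton (1 : A) (1 : ℝ) hnz) (by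
    rintro ⟨x, hx⟩ hxC
    have hx' : x ∈ Submodule.span ℝ {(1 : A)} := hx
    rw [Submodule.mem_span_singleton] at hx'
    obtain ⟨c, rfl⟩ := hx'
    rw [LinearPMap.mkSpanSingleton'_apply]
    simp only [RingHom.id_apply, smul_eq_mul, mul_one]
    obtain ⟨s, hs, t, ht, h⟩ := (hC _).1 hxC
    change c • (1 : A) = s - t • f at h
    by_contra hc
    rw [not_le] at hc
    rcases ht.eq_or_lt with ht0 | ht0
    · rw [← ht0, zero_smul, sub_zero] at h
      apply hone
      have : (-1 : A) = (1 / (-c)) • s := by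
        rw [← h, smul_smul]
        have : 1 / -c * c = -1 := by
          rw [one_div, inv_neg, neg_mul, inv_mul_cancel₀ hc.ne]
        rw [this, neg_smul, one_smul]
      rw [this]
      exact km_smul hmul hreal (by apply one_div_nonneg.2; linarith) hs
    · apply hf
      have : f = (1 / t) • (s + (-c) • (1 : A)) := by
        have e1 : t • f = s + (-c) • (1 : A) := by
          rw [neg_smul, h]
          ring
        rw [← e1, smul_smul, one_div_mul_cancel ht0.ne', one_smul]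
      rw [this]
      apply km_smul hmul hreal (one_div_nonneg.2 ht0.le)
      apply hadd s hs
      exact km_smul hmul hreal (by linarith) (h1M)) (by
    intro y
    obtain ⟨N, hN⟩ := harch (-y)
    refine ⟨⟨N • (1 : A), Submodule.smul_mem _ _ (Submodule.mem_span_singleton_self _)⟩, ?_⟩
    rw [hC]
    refine ⟨N • (1 : A) + y, ?_, 0, le_rfl, by simp⟩
    rw [← Algebra.algebraMap_eq_smul_one]
    rwa [sub_neg_eq_add] at hN)
  refine ⟨g, ⟨fun a b => map_add g a b, fun c a => by rw [map_smul, smul_eq_mul], ?_, ?_⟩, ?_⟩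
  · have := hg1 ⟨1, Submodule.mem_span_singleton_self _⟩
    rw [LinearPMap.mkSpanSingleton'_apply_self] at this
    exact this
  · intro s hs
    exact hg2 s ((hC s).2 ⟨s, hs, 0, le_rfl, by simp⟩)
  · have := hg2 (-f) ((hC _).2 ⟨0, h0S, 1, zero_le_one, by simp⟩)
    rw [map_neg] at this
    linarith

private theorem km_real {A : Type*} [CommRing A] [Algebra ℝ A] {S M : Set A}
    (hmul : ∀ a ∈ S, ∀ b ∈ M, a * b ∈ M) (hreal : ∀ c : ℝ, 0 ≤ c → algebraMap ℝ A c ∈ S)
    (h1M : (1 : A) ∈ M) {c : ℝ} (hc : 0 ≤ c) : algebraMap ℝ A c ∈ M := by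
  have := hmul _ (hreal c hc) _ h1M
  rwa [mul_one] at this

private theorem km_diff {A : Type*} [CommRing A] [Algebra ℝ A] (M : Set A)
    (hadd : ∀ a ∈ M, ∀ b ∈ M, a + b ∈ M) (hreal : ∀ c : ℝ, 0 ≤ c → algebraMap ℝ A c ∈ M)
    (harch : ∀ a : A, ∃ N : ℝ, algebraMap ℝ A N - a ∈ M) (a : A) :
    ∃ N : ℝ, 0 < N ∧ algebraMap ℝ A N - a ∈ M := by
  obtain ⟨N, hN⟩ := harch a
  refine ⟨max N 0 + 1, by positivity, ?_⟩
  have e : algebraMap ℝ A (max N 0 + 1) - a =
      (algebraMap ℝ A N - a) + algebraMap ℝ A (max N 0 + 1 - N) := by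
    rw [map_sub (algebraMap ℝ A) (max N 0 + 1) N]
    ring
  rw [e]
  exact hadd _ hN _ (hreal _ (by linarith [le_max_left N 0]))

private theorem km_mult {A : Type*} [CommRing A] [Algebra ℝ A] (S M : Set A)
    (hadd : ∀ a ∈ M, ∀ b ∈ M, a + b ∈ M) (hmul : ∀ a ∈ S, ∀ b ∈ M, a * b ∈ M)
    (hreal : ∀ c : ℝ, 0 ≤ c → algebraMap ℝ A c ∈ S) (h1M : (1 : A) ∈ M)
    (harch : ∀ a : A, ∃ N : ℝ, algebraMap ℝ A N - a ∈ M) {φ : A → ℝ}
    (hφ : φ ∈ (kmK M).extremePoints ℝ) (s : A) (hs : s ∈ S) (c : ℝ)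
    (hcs : algebraMap ℝ A c - s ∈ S) (a : A) : φ (s * a) = φ s * φ a := by
  have hK : φ ∈ kmK M := hφ.1
  have hM : ∀ s ∈ S, s ∈ M := fun s hs => by
    have := hmul s hs 1 h1M
    rwa [mul_one] at this
  have hrealM : ∀ c : ℝ, 0 ≤ c → algebraMap ℝ A c ∈ M := fun c hc => hM _ (hreal c hc)
  have pos := km_diff M hadd hrealM harch
  -- the degenerate case
  have deg : ∀ s ∈ S, φ s = 0 → ∀ a, φ (s * a) = 0 := by
    intro s hs hs0
    have h1 : ∀ t ∈ M, φ (s * t) = 0 := by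
      intro t ht
      obtain ⟨N, hN, hN'⟩ := pos t
      have h2 : 0 ≤ φ (s * t) := hK.2.2.2 _ (hmul s hs t ht)
      have h3 : 0 ≤ φ (s * (algebraMap ℝ A N - t)) := hK.2.2.2 _ (hmul s hs _ hN')
      have h4 : s * (algebraMap ℝ A N - t) = N • s - s * t := by
        rw [Algebra.smul_def]
        ring
      rw [h4, km_sub hK, hK.2.1, hs0] at h3
      linarith
    intro a
    obtain ⟨N, hN, hN'⟩ := pos a
    have h2 : s * a = s * algebraMap ℝ A N - s * (algebraMap ℝ A N - a) := by ring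
    rw [h2, km_sub hK, h1 _ (hrealM N hN.le), h1 _ hN']
    ring
  have c0 : 0 ≤ φ s := hK.2.2.2 s (hM s hs)
  have c1 : 0 ≤ φ (algebraMap ℝ A c - s) := hK.2.2.2 _ (hM _ hcs)
  have c2 : φ (algebraMap ℝ A c - s) = c - φ s := by rw [km_sub hK, km_algMap hK]
  rcases c0.eq_or_lt with h | h
  · rw [deg s hs h.symm, ← h, zero_mul]
  · rcases c1.eq_or_lt with h' | h'
    · have h1 := deg _ hcs h'.symm a
      have h2 : (algebraMap ℝ A c - s) * a = c • a - s * a := by
        rw [Algebra.smul_def]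
        ring
      rw [h2, km_sub hK, hK.2.1] at h1
      have h3 : φ s = c := by linarith
      rw [h3]
      linarith
    · have hc : 0 < c := by linarith
      have m1 : (fun x => φ (s * x) / φ s) ∈ kmK M := by
        refine ⟨fun x y => ?_, fun c x => ?_, ?_, fun t ht => ?_⟩
        · simp only
          rw [mul_add, hK.1, add_div]
        · simp only
          rw [mul_smul_comm, hK.2.1, mul_div_assoc]
        · simp only
          rw [mul_one, div_self h.ne']
        · exact div_nonneg (hK.2.2.2 _ (hmul s hs t ht)) h.le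
      have m2 : (fun x => φ ((algebraMap ℝ A c - s) * x) / φ (algebraMap ℝ A c - s)) ∈ kmK M := by
        refine ⟨fun x y => ?_, fun c x => ?_, ?_, fun t ht => ?_⟩
        · simp only
          rw [mul_add, hK.1, add_div]
        · simp only
          rw [mul_smul_comm, hK.2.1, mul_div_assoc]
        · simp only
          rw [mul_one, div_self h'.ne']
        · exact div_nonneg (hK.2.2.2 _ (hmul _ hcs t ht)) h'.le
      have hseg : φ ∈ openSegment ℝ (fun x => φ (s * x) / φ s)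
          (fun x => φ ((algebraMap ℝ A c - s) * x) / φ (algebraMap ℝ A c - s)) := by
        refine ⟨φ s / c, φ (algebraMap ℝ A c - s) / c, div_pos h hc, div_pos h' hc, by
          rw [c2]; field_simp; ring, ?_⟩
        funext x
        simp only [Pi.add_apply, Pi.smul_apply, smul_eq_mul]
        have e1 : φ (s * x) + φ ((algebraMap ℝ A c - s) * x) = c * φ x := by
          rw [← hK.1, ← hK.2.1, Algebra.smul_def]
          congr 1
          ring
        rw [div_mul_div_comm, div_mul_div_comm, mul_comm c (φ s),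
          mul_comm c (φ (algebraMap ℝ A c - s)), mul_div_mul_left _ _ h.ne',
          mul_div_mul_left _ _ h'.ne', ← add_div, e1, mul_div_cancel_left₀ _ hc.ne']
      have h1 := (mem_extremePoints.1 hφ).2 _ m1 _ m2 hseg
      have h2 := congrFun h1.1 a
      change φ (s * a) / φ s = φ a at h2
      rw [div_eq_iff h.ne'] at h2
      rw [h2]
      ring

theorem kdm {A : Type*} [CommRing A] [Algebra ℝ A] (S M : Set A)
    (hreal : ∀ c : ℝ, 0 ≤ c → algebraMap ℝ A c ∈ S)
    (hadd : ∀ a ∈ M, ∀ b ∈ M, a + b ∈ M) (hmul : ∀ s ∈ S, ∀ a ∈ M, s * a ∈ M)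
    (hone : (1 : A) ∈ M)
    (harch : ∀ a : A, ∃ N : ℝ, algebraMap ℝ A N - a ∈ M) {f : A}
    (hf : ∀ φ : A →ₗ[ℝ] ℝ, φ 1 = 1 → (∀ a ∈ M, 0 ≤ φ a) →
      (∀ s ∈ S, (∃ c : ℝ, algebraMap ℝ A c - s ∈ S) → ∀ a, φ (s * a) = φ s * φ a) → 0 < φ f) :
    f ∈ M := by
  classical
  by_cases hneg : (-1 : A) ∈ M
  · obtain ⟨N, hN, hN'⟩ := km_diff M hadd (fun c hc => km_real hmul hreal hone hc) harch (-f)
    have : f = (algebraMap ℝ A N - -f) + algebraMap ℝ A N * (-1) := by ring
    rw [this]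
    exact hadd _ hN' _ (hmul _ (hreal N hN.le) _ hneg)
  by_contra hfS
  obtain ⟨φ0, hφ0, hφ0f⟩ := km_exists S M hadd hmul hreal hone harch hfS hneg
  have hcomp := km_compact M harch
  set l : StrongDual ℝ (A → ℝ) := -(ContinuousLinearMap.proj (R := ℝ) (φ := fun _ : A => ℝ) f)
    with hl
  have lap : ∀ φ : A → ℝ, l φ = -φ f := fun φ => rfl
  have hexp : IsExposed ℝ (kmK M) (l.toExposed (kmK M)) :=
    ContinuousLinearMap.toExposed.isExposed
  have hc2 : IsCompact (l.toExposed (kmK M)) := hexp.isCompact hcomp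
  have hne : (l.toExposed (kmK M)).Nonempty := by
    obtain ⟨ψ, hψ, hmax⟩ := hcomp.exists_isMaxOn ⟨φ0, hφ0⟩ l.continuous.continuousOn
    exact ⟨ψ, hψ, fun y hy => hmax hy⟩
  obtain ⟨φ, hφ⟩ := hc2.extremePoints_nonempty hne
  have hφK : φ ∈ (kmK M).extremePoints ℝ :=
    hexp.isExtreme.extremePoints_subset_extremePoints hφ
  have hφf : φ f ≤ 0 := by
    have := hφ.1.2 φ0 hφ0
    rw [lap, lap] at this
    linarith
  have hm := km_mult S M hadd hmul hreal hone harch hφK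
  have hK : φ ∈ kmK M := hφK.1
  let Φ : A →ₗ[ℝ] ℝ :=
    { toFun := φ
      map_add' := hK.1
      map_smul' := fun c a => by simpa using hK.2.1 c a }
  have := hf Φ hK.2.2.1 (fun s hs => hK.2.2.2 s hs) (fun s hs ⟨c, hc⟩ a => hm s hs c hc a)
  have h2 : Φ f = φ f := rfl
  rw [h2] at this
  linarith

end Pool.Agent.Work.MP_49847a_an
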