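import Pool.Agent.Work.MP_49847a_an.Rat.SJL

/-!
# Module Mult: multiplicativity of a functional on real and imaginary parts

Proof.  `‖h + ε‖² = |h|² + 2 Re(conj(ε) h) + 1` for `ε ∈ {1, I}`: with `s = |h + ε|²` (real polynomial
`A + 2 U + 1`, resp. `A + 2 V + 1`), `C (2 c₀ + 2) - s = 2 (C c₀ - A) + |h - ε|²` is in `SJ J`.  So `hm`
applies to `s` and to `A`: `L(s g) = L(s) L(g)`, `L(A g) = L(A) L(g)`; subtract (`L 1 = 1`, linearity).
-/

namespace Pool.Agent.Work.MP_49847a_an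

open MvPolynomial

theorem mult {n : ℕ} {J : Ideal (MvPolynomial (Fin n ⊕ Fin n) ℝ)}
    {L : MvPolynomial (Fin n ⊕ Fin n) ℝ →ₗ[ℝ] ℝ} (h1 : L 1 = 1)
    (hm : ∀ s, SJ J s → (∃ c : ℝ, SJ J (C c - s)) → ∀ g, L (s * g) = L s * L g)
    {h : MvPolynomial (Fin n) ℂ} {c₀ : ℝ} {A U V : MvPolynomial (Fin n ⊕ Fin n) ℝ}
    (hA : ∀ z, ev A z = ‖eval z h‖ ^ 2) (hc : SJ J (C c₀ - A))
    (hUV : ∀ z, eval z h = ((ev U z : ℝ) : ℂ) + ((ev V z : ℝ) : ℂ) * Complex.I)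
    (g : MvPolynomial (Fin n ⊕ Fin n) ℝ) :
    L (U * g) = L U * L g ∧ L (V * g) = L V * L g := by
  have hA1 : L (A * g) = L A * L g := hm A (SJ_sq hA) ⟨c₀, hc⟩ g
  have hsq : ∀ z, ‖eval z h‖ ^ 2 = ev U z ^ 2 + ev V z ^ 2 := by
    intro z
    rw [hUV z, ← Complex.normSq_eq_norm_sq, Complex.normSq_add_mul_I]
  have key : ∀ (ε : ℂ) (W : MvPolynomial (Fin n ⊕ Fin n) ℝ),
      (∀ z, ‖eval z h + ε‖ ^ 2 = ev A z + 2 * ev W z + 1) →
      (∀ z, ‖eval z h - ε‖ ^ 2 = ev A z - 2 * ev W z + 1) → L (W * g) = L W * L g := by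
    intro ε W hp hq
    have h2 : SJ J (A + C 2 * W + C 1) := by
      refine SJ_sq (p := h + C ε) fun z => ?_
      rw [ev_add, ev_add, ev_mul, ev_C, ev_C, map_add, eval_C, hp z]
    have h3 : SJ J (C (2 * c₀ + 2) - (A + C 2 * W + C 1)) := by
      have h4 : SJ J (A - C 2 * W + C 1) := by
        refine SJ_sq (p := h - C ε) fun z => ?_
        rw [ev_add, ev_sub, ev_mul, ev_C, ev_C, map_sub, eval_C, hq z]
      refine SJ_congr (SJ_add (SJ_mul (SJ_C (J := J) (c := 2) (by norm_num)) hc) h4) fun z => ?_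
      simp only [ev_add, ev_sub, ev_mul, ev_C]
      ring
    have h5 := hm _ h2 ⟨_, h3⟩ g
    have e1 : (A + C 2 * W + C 1) * g = A * g + (2 : ℝ) • (W * g) + g := by
      rw [C_1, MvPolynomial.smul_eq_C_mul]
      ring
    have e2 : (A + C 2 * W + C 1 : MvPolynomial (Fin n ⊕ Fin n) ℝ) = A + (2 : ℝ) • W + 1 := by
      rw [C_1, MvPolynomial.smul_eq_C_mul]
    rw [e1, e2] at h5
    simp only [map_add, map_smul, smul_eq_mul, h1, hA1] at h5
    linarith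
  refine ⟨key 1 U (fun z => ?_) (fun z => ?_), key Complex.I V (fun z => ?_) (fun z => ?_)⟩
  · rw [hA z, hsq z, hUV z, ← Complex.normSq_eq_norm_sq, Complex.normSq_apply]
    simp
    ring
  · rw [hA z, hsq z, hUV z, ← Complex.normSq_eq_norm_sq, Complex.normSq_apply]
    simp
    ring
  · rw [hA z, hsq z, hUV z, ← Complex.normSq_eq_norm_sq, Complex.normSq_apply]
    simp
    ring
  · rw [hA z, hsq z, hUV z, ← Complex.normSq_eq_norm_sq, Complex.normSq_apply]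
    simp
    ring

end Pool.Agent.Work.MP_49847a_an
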