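import Pool.Agent.Work.MP_49847a_an.Rat.SJL

/-!
# Module NulI: the annihilated holomorphic polynomials form an ideal; evaluations

`NulL L a`: `L(U g) = L(V g) = 0` for all real `g`, where `a = U + i V` (`exists_re_im`; `U`, `V` are unique
by `ev_ext`).
Proofs.  (nul_ideal) sums: clear.  Products: `b = U' + i V'`, `b a = (U'U - V'V) + i(U'V + V'U)`, and
`L((U'U - V'V) g) = L(U (U' g)) - L(V (V' g)) = 0`.
(nul_point) If `1` is not annihilated, the ideal is contained in a maximal ideal, which is the ideal of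
a point (`MvPolynomial.isMaximal_iff_eq_vanishingIdeal_singleton`, as in module `Lie`).  `NulL L 1`
would follow from `L(1) = 0`; conversely `NulL L 1` gives `L 1 = 0` (take `U = 1`, `V = 0`, `g = 1`),
excluded by `h1`.
(nul_eval) `X i - C (x i)` annihilated: `L(Re(z_i) g) = Re(x_i) L(g)`, `L(Im(z_i) g) = Im(x_i) L(g)`;
`MvPolynomial.induction_on F` for the statement `∀ g, L(F g) = ev F x · L(g)`; then `g = 1`.
-/

namespace Pool.Agent.Work.MP_49847a_an

open MvPolynomial

private theorem nulI_iff {n : ℕ} {L : MvPolynomial (Fin n ⊕ Fin n) ℝ →ₗ[ℝ] ℝ}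
    {a : MvPolynomial (Fin n) ℂ} {U V : MvPolynomial (Fin n ⊕ Fin n) ℝ}
    (h : ∀ z, eval z a = ((ev U z : ℝ) : ℂ) + ((ev V z : ℝ) : ℂ) * Complex.I) :
    NulL L a ↔ ∀ g, L (U * g) = 0 ∧ L (V * g) = 0 := by
  refine ⟨fun H => H U V h, fun H U' V' h' => ?_⟩
  have e1 : U' = U := ev_ext fun z => by
    have h2 := congrArg Complex.re ((h' z).symm.trans (h z))
    simpa using h2
  have e2 : V' = V := ev_ext fun z => by
    have h2 := congrArg Complex.im ((h' z).symm.trans (h z))
    simpa using h2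
  rw [e1, e2]
  exact H

theorem nul_ideal {n : ℕ} (L : MvPolynomial (Fin n ⊕ Fin n) ℝ →ₗ[ℝ] ℝ) :
    ∃ I : Ideal (MvPolynomial (Fin n) ℂ), ∀ a, a ∈ I ↔ NulL L a := by
  refine ⟨{ carrier := {a | NulL L a}, add_mem' := ?_, zero_mem' := ?_, smul_mem' := ?_ },
    fun a => Iff.rfl⟩
  · intro a b ha hb
    obtain ⟨U, V, h⟩ := exists_re_im a
    obtain ⟨U', V', h'⟩ := exists_re_im b
    have h2 : ∀ z, eval z (a + b) =
        ((ev (U + U') z : ℝ) : ℂ) + ((ev (V + V') z : ℝ) : ℂ) * Complex.I := by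
      intro z
      rw [map_add, h, h', ev_add, ev_add]
      push_cast
      ring
    refine (nulI_iff h2).2 fun g => ?_
    have ha2 := (nulI_iff h).1 ha g
    have hb2 := (nulI_iff h').1 hb g
    rw [add_mul, add_mul, map_add, map_add, ha2.1, ha2.2, hb2.1, hb2.2]
    simp
  · have h2 : ∀ z, eval z (0 : MvPolynomial (Fin n) ℂ) =
        ((ev (0 : MvPolynomial (Fin n ⊕ Fin n) ℝ) z : ℝ) : ℂ) +
          ((ev (0 : MvPolynomial (Fin n ⊕ Fin n) ℝ) z : ℝ) : ℂ) * Complex.I := by
      intro z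
      rw [map_zero, ev_zero]
      simp
    refine (nulI_iff h2).2 fun g => ?_
    rw [zero_mul, map_zero]
    exact ⟨rfl, rfl⟩
  · intro b a ha
    obtain ⟨U, V, h⟩ := exists_re_im a
    obtain ⟨U', V', h'⟩ := exists_re_im b
    have h2 : ∀ z, eval z (b • a) =
        ((ev (U' * U - V' * V) z : ℝ) : ℂ) + ((ev (U' * V + V' * U) z : ℝ) : ℂ) * Complex.I := by
      intro z
      rw [smul_eq_mul, map_mul, h, h', ev_add, ev_sub, ev_mul, ev_mul, ev_mul, ev_mul]
      push_cast
      linear_combination (((ev V' z : ℝ) : ℂ) * ((ev V z : ℝ) : ℂ)) * Complex.I_mul_I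
    refine (nulI_iff h2).2 fun g => ?_
    have ha1 := (nulI_iff h).1 ha (U' * g)
    have ha2 := (nulI_iff h).1 ha (V' * g)
    have e1 : (U' * U - V' * V) * g = U * (U' * g) - V * (V' * g) := by ring
    have e2 : (U' * V + V' * U) * g = V * (U' * g) + U * (V' * g) := by ring
    rw [e1, e2, map_sub, map_add, ha1.1, ha1.2, ha2.1, ha2.2]
    simp

theorem nul_point {n : ℕ} {L : MvPolynomial (Fin n ⊕ Fin n) ℝ →ₗ[ℝ] ℝ} (h1 : L 1 = 1) :
    ∃ x : Fin n → ℂ, ∀ a, NulL L a → eval x a = 0 := by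
  obtain ⟨I, hI⟩ := nul_ideal L
  have hne : I ≠ ⊤ := by
    intro h
    have h2 : NulL L 1 := (hI 1).1 ((Ideal.eq_top_iff_one I).1 h)
    have h3 := h2 1 0 (fun z => by rw [map_one, ev_one, ev_zero]; simp) 1
    rw [mul_one, h1] at h3
    exact one_ne_zero h3.1
  obtain ⟨M, hM, hIM⟩ := Ideal.exists_le_maximal I hne
  obtain ⟨z, hz⟩ := isMaximal_iff_eq_vanishingIdeal_singleton.1 hM
  refine ⟨z, fun a ha => ?_⟩
  have h2 := hIM ((hI a).2 ha)
  rw [hz, mem_vanishingIdeal_singleton_iff] at h2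
  rw [← coe_aeval_eq_eval]
  exact h2

theorem nul_eval {n : ℕ} {L : MvPolynomial (Fin n ⊕ Fin n) ℝ →ₗ[ℝ] ℝ} (h1 : L 1 = 1)
    {x : Fin n → ℂ} (hx : ∀ i, NulL L (X i - C (x i))) (F : MvPolynomial (Fin n ⊕ Fin n) ℝ) :
    L F = ev F x := by
  have hre : ∀ i g, L (X (Sum.inl i) * g) = (x i).re * L g ∧
      L (X (Sum.inr i) * g) = (x i).im * L g := by
    intro i g
    have h2 := hx i (X (Sum.inl i) - C (x i).re) (X (Sum.inr i) - C (x i).im) (fun z => by
      rw [map_sub, eval_X, eval_C, ev_sub, ev_sub, ev_C, ev_C]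
      have h3 : ev (X (Sum.inl i)) z = (z i).re := by simp [ev]
      have h4 : ev (X (Sum.inr i)) z = (z i).im := by simp [ev]
      rw [h3, h4]
      apply Complex.ext <;> simp) g
    rw [sub_mul, sub_mul, map_sub, map_sub, ← smul_eq_C_mul, ← smul_eq_C_mul, map_smul, map_smul,
      sub_eq_zero, sub_eq_zero] at h2
    exact h2
  have key : ∀ g, L (F * g) = ev F x * L g := by
    induction F using MvPolynomial.induction_on with
    | C a =>
      intro g
      rw [← smul_eq_C_mul, map_smul, ev_C, smul_eq_mul]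
    | add p q hp hq =>
      intro g
      rw [add_mul, map_add, hp, hq, ev_add, add_mul]
    | mul_X p i hp =>
      intro g
      rw [mul_assoc, hp, ev_mul]
      rcases i with i | i
      · rw [(hre i g).1]
        have h3 : ev (X (Sum.inl i)) x = (x i).re := by simp [ev]
        rw [h3, mul_assoc]
      · rw [(hre i g).2]
        have h3 : ev (X (Sum.inr i)) x = (x i).im := by simp [ev]
        rw [h3, mul_assoc]
  have h2 := key 1
  rwa [mul_one, h1, mul_one] at h2

end Pool.Agent.Work.MP_49847a_an
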