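import Pool.Agent.Work.MP_49847a_an.Rat.Fib
import Pool.Agent.Work.MP_49847a_an.Rat.NulI
import Pool.Agent.Work.MP_49847a_an.Rat.Mult

/-!
# Module Sta: the extreme states are the points of `XQ P q`

`L` is a state on the real polynomials on `ℂ × ℂⁿ`, it vanishes on the ideal `JJ ρ q` and is
multiplicative as in `kdm`.

Proof.  (1) `h_j = P_j(z) y` (`= Psi P q (j+1)`), `A_j` with `ev A_j = |h_j|²`: `C 1 - A_j =
∑_{i ≠ j} |h_i|² - (∑_i |h_i|² - 1)` is in `SJ (JJ ρ q)`, because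
`∑_i |h_i|² - 1 = |y|² (‖P‖² - |q|²) + (|q y|² - 1) ∈ JJ ρ q` (`JJ_rho`, `JJ_sq`).  For `h = q y`:
`C 1 - |q y|² ∈ JJ ρ q`.
(2) So by `mult`, with `h_j = U_j + i V_j` and `l_j = L(U_j) + i L(V_j)`:
`L((U_j - L U_j) g) = 0`, `L((V_j - L V_j) g) = 0`, that is `NulL L (h_j - C l_j)`; and
`NulL L (q y - 1)` since the real and imaginary parts of `q y - 1` are in `JJ ρ q` (`JJ_re_im`) and `L`
vanishes on it.
(3) `nul_point` gives `ξ` with `eval ξ a = 0` for all annihilated `a`: `q(x) ξ₀ = 1` (`x = Fin.tail ξ`)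
and `P_j(x) ξ₀ = l_j`.  `∑ |l_j|² = 1`: `L(A_j) = L(U_j²) + L(V_j²) = |l_j|²` by `mult` (`A_j = U_j² + V_j²`)
and `L(∑ A_j - 1) = 0`.  So `‖P(x)‖² |ξ₀|² = 1 = |q(x)|² |ξ₀|²` and `x ∈ XQ P q`.
(4) `fib`: the ideal generated by `Psi_j - Psi_j(ξ)` is the ideal of `ξ`; it is contained in the
ideal of the annihilated polynomials (`nul_ideal`), so `X i - C (ξ i)` is annihilated, and `nul_eval` gives
`L F = ev F ξ`.
-/

namespace Pool.Agent.Work.MP_49847a_an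

open MvPolynomial

private theorem sta_iff {n : ℕ} {L : MvPolynomial (Fin n ⊕ Fin n) ℝ →ₗ[ℝ] ℝ}
    {a : MvPolynomial (Fin n) ℂ} {U V : MvPolynomial (Fin n ⊕ Fin n) ℝ}
    (h : ∀ z, eval z a = ((ev U z : ℝ) : ℂ) + ((ev V z : ℝ) : ℂ) * Complex.I)
    (H : ∀ g, L (U * g) = 0 ∧ L (V * g) = 0) : NulL L a := by
  intro U' V' h'
  have e1 : U' = U := ev_ext fun z => by
    have h2 := congrArg Complex.re ((h' z).symm.trans (h z))
    simpa using h2
  have e2 : V' = V := ev_ext fun z => by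
    have h2 := congrArg Complex.im ((h' z).symm.trans (h z))
    simpa using h2
  rw [e1, e2]
  exact H

theorem state_point {n k : ℕ} {P : Fin k → MvPolynomial (Fin n) ℂ}
    {q : MvPolynomial (Fin n) ℂ} {ρ : MvPolynomial (Fin n ⊕ Fin n) ℝ}
    (hρ : ∀ z, ev ρ z = rr P q z) (hinj : InjQ P q) (hlevi : LeviQ P q)
    {L : MvPolynomial (Fin (n + 1) ⊕ Fin (n + 1)) ℝ →ₗ[ℝ] ℝ} (h1 : L 1 = 1)
    (hJ : ∀ G ∈ JJ ρ q, L G = 0)
    (hm : ∀ s, SJ (JJ ρ q) s → (∃ c : ℝ, SJ (JJ ρ q) (C c - s)) → ∀ g, L (s * g) = L s * L g) :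
    ∃ ξ : Fin (n + 1) → ℂ, Fin.tail ξ ∈ XQ P q ∧ ∀ F, L F = ev F ξ := by
  classical
  choose A hA using fun j => exists_norm_sq (uph (P j) * X 0 : MvPolynomial (Fin (n + 1)) ℂ)
  choose U V hUV using fun j => exists_re_im (uph (P j) * X 0 : MvPolynomial (Fin (n + 1)) ℂ)
  obtain ⟨A₀, hA₀⟩ := exists_norm_sq (uph q * X 0 : MvPolynomial (Fin (n + 1)) ℂ)
  obtain ⟨N, hN⟩ := exists_norm_sq (X 0 : MvPolynomial (Fin (n + 1)) ℂ)
  have hsum : ∑ i, A i - 1 ∈ JJ ρ q := by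
    have e : ∑ i, A i - 1 = N * up ρ + (A₀ - 1) := by
      refine ev_ext fun ζ => ?_
      rw [ev_sub, ev_one, ev_add, ev_sub, ev_one, ev_mul, ev_sum, ev_up, hρ, hN, hA₀]
      unfold rr nrm
      simp only [hA, map_mul, eval_uph, eval_X, norm_mul, mul_pow]
      rw [← Finset.sum_mul]
      ring
    rw [e]
    exact Ideal.add_mem _ (Ideal.mul_mem_left _ _ (JJ_rho ρ q)) (JJ_sq hA₀)
  have hc : ∀ j, SJ (JJ ρ q) (C 1 - A j) := by
    intro j
    have h2 : SJ (JJ ρ q) (∑ i ∈ Finset.univ.erase j, A i) :=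
      SJ_sum _ _ fun i _ => SJ_sq (hA i)
    have h3 : SJ (JJ ρ q) (-(∑ i, A i - 1)) := SJ_ideal (neg_mem hsum)
    refine SJ_congr (SJ_add h2 h3) fun z => ?_
    rw [← Finset.add_sum_erase Finset.univ A (Finset.mem_univ j)]
    rw [ev_sub, ev_C, ev_add, ev_neg, ev_sub, ev_add, ev_one]
    ring
  have hmult : ∀ j g, L (U j * g) = L (U j) * L g ∧ L (V j * g) = L (V j) * L g := fun j g =>
    mult h1 hm (hA j) (hc j) (hUV j) g
  set l : Fin k → ℂ := fun j => ((L (U j) : ℝ) : ℂ) + ((L (V j) : ℝ) : ℂ) * Complex.I with hl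
  have hnul : ∀ j, NulL L (uph (P j) * X 0 - C (l j)) := by
    intro j
    refine sta_iff (U := U j - C (L (U j))) (V := V j - C (L (V j))) (fun z => ?_) fun g => ?_
    · rw [map_sub, hUV j z, eval_C, hl, ev_sub, ev_sub, ev_C, ev_C]
      push_cast
      ring
    · rw [sub_mul, sub_mul, map_sub, map_sub, ← smul_eq_C_mul, ← smul_eq_C_mul, map_smul,
        map_smul, (hmult j g).1, (hmult j g).2]
      simp
  have hnul0 : NulL L (uph q * X 0 - 1) := by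
    intro U' V' h g
    obtain ⟨hU, hV⟩ := JJ_re_im (ρ := ρ) h
    exact ⟨hJ _ (Ideal.mul_mem_right _ _ hU), hJ _ (Ideal.mul_mem_right _ _ hV)⟩
  obtain ⟨ξ, hξ⟩ := nul_point h1
  have hq0 : eval (Fin.tail ξ) q * ξ 0 = 1 := by
    have h2 := hξ _ hnul0
    rw [map_sub, map_one, map_mul, eval_uph, eval_X, sub_eq_zero] at h2
    exact h2
  have hPl : ∀ j, eval (Fin.tail ξ) (P j) * ξ 0 = l j := by
    intro j
    have h2 := hξ _ (hnul j)
    rw [map_sub, eval_C, map_mul, eval_uph, eval_X, sub_eq_zero] at h2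
    exact h2
  have hξ0 : ξ 0 ≠ 0 := right_ne_zero_of_mul_eq_one hq0
  have hln : ∀ j, ‖l j‖ ^ 2 = L (A j) := by
    intro j
    have e : A j = U j * U j + V j * V j := ev_ext fun z => by
      rw [hA j z, hUV j z, ← Complex.normSq_eq_norm_sq, Complex.normSq_add_mul_I, ev_add, ev_mul,
        ev_mul]
      ring
    rw [e, map_add, (hmult j _).1, (hmult j _).2, hl, ← Complex.normSq_eq_norm_sq,
      Complex.normSq_add_mul_I]
    ring
  have hl1 : ∑ j, ‖l j‖ ^ 2 = 1 := by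
    have h2 := hJ _ hsum
    rw [map_sub, h1, map_sum, sub_eq_zero] at h2
    rw [← h2]
    exact Finset.sum_congr rfl fun j _ => hln j
  have hx : Fin.tail ξ ∈ XQ P q := by
    show nrm P (Fin.tail ξ) - ‖eval (Fin.tail ξ) q‖ ^ 2 = 0
    have e1 : nrm P (Fin.tail ξ) * ‖ξ 0‖ ^ 2 = 1 := by
      unfold nrm
      rw [Finset.sum_mul, ← hl1]
      refine Finset.sum_congr rfl fun j _ => ?_
      rw [← mul_pow, ← norm_mul, hPl]
    have e2 : ‖eval (Fin.tail ξ) q‖ ^ 2 * ‖ξ 0‖ ^ 2 = 1 := by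
      rw [← mul_pow, ← norm_mul, hq0]; simp
    have e4 : ‖ξ 0‖ ^ 2 ≠ 0 := by positivity
    refine (mul_eq_zero.1 (?_ : (nrm P (Fin.tail ξ) - ‖eval (Fin.tail ξ) q‖ ^ 2) *
      ‖ξ 0‖ ^ 2 = 0)).resolve_right e4
    rw [sub_mul, e1, e2, sub_self]
  refine ⟨ξ, hx, fun F => ?_⟩
  obtain ⟨I, hI⟩ := nul_ideal L
  have hfib := fib hinj hlevi hx hq0
  have hle : RingHom.ker (eval ξ) ≤ I := by
    rw [← hfib, Ideal.span_le]
    rintro _ ⟨j, rfl⟩
    refine (hI _).2 ?_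
    refine Fin.cases ?_ (fun j => ?_) j
    · have e : Psi P q 0 - C (eval ξ (Psi P q 0)) = uph q * X 0 - 1 := by
        unfold Psi
        rw [Fin.cons_zero, map_mul, eval_uph, eval_X, hq0, C_1]
      show NulL L (Psi P q 0 - C (eval ξ (Psi P q 0)))
      rw [e]
      exact hnul0
    · have e : Psi P q j.succ - C (eval ξ (Psi P q j.succ)) = uph (P j) * X 0 - C (l j) := by
        unfold Psi
        rw [Fin.cons_succ, map_mul, eval_uph, eval_X, hPl]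
      show NulL L (Psi P q j.succ - C (eval ξ (Psi P q j.succ)))
      rw [e]
      exact hnul j
  refine nul_eval h1 (fun i => (hI _).1 (hle ?_)) F
  rw [RingHom.mem_ker, map_sub, eval_X, eval_C, sub_self]

end Pool.Agent.Work.MP_49847a_an
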