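import Pool.Agent.Work.MP_49847a_an.Rat.UpL

/-!
# Module SubQ: substitution `y = 1/q(z)`

Proof.  (1) For `p ∈ ℂ[y,z]` there are `l₀` and for every `l ≥ l₀` a `p' ∈ ℂ[z]` with
`q(z)^l p(1/q(z), z) = p'(z)` whenever `q(z) ≠ 0` (induction on `p`, or `l₀` = degree in `y`).
(2) For a real polynomial `H` on `ℂ × ℂⁿ` there are `l₀` and for `l ≥ l₀` a real `H'` on `ℂⁿ` with
`|q(z)|^{2l} H(1/q(z), z) = H'(z)` whenever `q(z) ≠ 0` (`dec H` and (1)).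
(3) For `G ∈ JJ ρ q` there is a real polynomial `H` on `ℂ × ℂⁿ` with
`ev G (1/q(z), z) = rr(z) ev H (1/q(z), z)` whenever `q(z) ≠ 0` (`Submodule.span_induction`: the parts of
`q y - 1` vanish at these points).
(4) `up F` at `(1/q(z), z)` is `F(z)`; so for `l` large and `q(z) ≠ 0`:
`F(z) |q(z)|^{2l} = ∑_j |p'_j(z)|² + rr(z) H'(z)`.  Multiply by `|q(z)|²`: then it holds for all `z` (both
sides vanish where `q = 0`).
-/

namespace Pool.Agent.Work.MP_49847a_an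

open MvPolynomial

private theorem sub1 {n : ℕ} (q : MvPolynomial (Fin n) ℂ) (p : MvPolynomial (Fin (n + 1)) ℂ) :
    ∃ l₀ : ℕ, ∀ l, l₀ ≤ l → ∃ p' : MvPolynomial (Fin n) ℂ, ∀ z : Fin n → ℂ, eval z q ≠ 0 →
      eval z q ^ l * eval (Fin.cons (eval z q)⁻¹ z : Fin (n + 1) → ℂ) p = eval z p' := by
  induction p using MvPolynomial.induction_on with
  | C a =>
    refine ⟨0, fun l _ => ⟨q ^ l * C a, fun z _ => ?_⟩⟩
    simp
  | add p p₂ hp hp₂ =>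
    obtain ⟨l₀, h⟩ := hp
    obtain ⟨l₁, h'⟩ := hp₂
    refine ⟨max l₀ l₁, fun l hl => ?_⟩
    obtain ⟨r, hr⟩ := h l ((le_max_left _ _).trans hl)
    obtain ⟨r', hr'⟩ := h' l ((le_max_right _ _).trans hl)
    refine ⟨r + r', fun z hz => ?_⟩
    rw [map_add, map_add, mul_add, hr z hz, hr' z hz]
  | mul_X p i hp =>
    obtain ⟨l₀, h⟩ := hp
    refine Fin.cases ?_ (fun j => ?_) i
    · refine ⟨l₀ + 1, fun l hl => ?_⟩
      obtain ⟨r, hr⟩ := h (l - 1) (by omega)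
      refine ⟨r, fun z hz => ?_⟩
      obtain ⟨l', rfl⟩ : ∃ l', l = l' + 1 := ⟨l - 1, by omega⟩
      rw [← hr z hz, map_mul, eval_X, Fin.cons_zero, Nat.add_sub_cancel, pow_succ]
      field_simp
    · refine ⟨l₀, fun l hl => ?_⟩
      obtain ⟨r, hr⟩ := h l hl
      refine ⟨r * X j, fun z hz => ?_⟩
      rw [map_mul, map_mul, eval_X, eval_X, Fin.cons_succ, ← hr z hz, mul_assoc]

private theorem sub1n {n m : ℕ} (q : MvPolynomial (Fin n) ℂ)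
    (p : Fin m → MvPolynomial (Fin (n + 1)) ℂ) :
    ∃ l₀ : ℕ, ∀ l, l₀ ≤ l → ∃ p' : Fin m → MvPolynomial (Fin n) ℂ, ∀ z : Fin n → ℂ,
      eval z q ≠ 0 →
      (‖eval z q‖ ^ 2) ^ l * nrm p (Fin.cons (eval z q)⁻¹ z : Fin (n + 1) → ℂ) = nrm p' z := by
  choose l₀ h using fun j => sub1 q (p j)
  refine ⟨Finset.univ.sup l₀, fun l hl => ?_⟩
  choose p' hp' using fun j => h j l ((Finset.le_sup (Finset.mem_univ j)).trans hl)
  refine ⟨p', fun z hz => ?_⟩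
  unfold nrm
  rw [Finset.mul_sum]
  refine Finset.sum_congr rfl fun j _ => ?_
  rw [← hp' j z hz, norm_mul, norm_pow, mul_pow, ← pow_mul, ← pow_mul, mul_comm 2 l]

private theorem sub2 {n : ℕ} (q : MvPolynomial (Fin n) ℂ)
    (H : MvPolynomial (Fin (n + 1) ⊕ Fin (n + 1)) ℝ) :
    ∃ l₀ : ℕ, ∀ l, l₀ ≤ l → ∃ H' : MvPolynomial (Fin n ⊕ Fin n) ℝ, ∀ z : Fin n → ℂ,
      eval z q ≠ 0 →
      (‖eval z q‖ ^ 2) ^ l * ev H (Fin.cons (eval z q)⁻¹ z : Fin (n + 1) → ℂ) = ev H' z := by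
  obtain ⟨m, a, m', b, h⟩ := dec H
  obtain ⟨l₀, ha⟩ := sub1n q a
  obtain ⟨l₁, hb⟩ := sub1n q b
  refine ⟨max l₀ l₁, fun l hl => ?_⟩
  obtain ⟨a', ha'⟩ := ha l ((le_max_left _ _).trans hl)
  obtain ⟨b', hb'⟩ := hb l ((le_max_right _ _).trans hl)
  obtain ⟨A, hA⟩ := exists_nrm a'
  obtain ⟨B, hB⟩ := exists_nrm b'
  refine ⟨A - B, fun z hz => ?_⟩
  rw [h, mul_sub, ha' z hz, hb' z hz, ev_sub, hA, hB]

private theorem sub3 {n k : ℕ} {P : Fin k → MvPolynomial (Fin n) ℂ}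
    {q : MvPolynomial (Fin n) ℂ} {ρ : MvPolynomial (Fin n ⊕ Fin n) ℝ}
    (hρ : ∀ z, ev ρ z = rr P q z) {G : MvPolynomial (Fin (n + 1) ⊕ Fin (n + 1)) ℝ}
    (hG : G ∈ JJ ρ q) :
    ∃ H : MvPolynomial (Fin (n + 1) ⊕ Fin (n + 1)) ℝ, ∀ z : Fin n → ℂ, eval z q ≠ 0 →
      ev G (Fin.cons (eval z q)⁻¹ z : Fin (n + 1) → ℂ) =
        rr P q z * ev H (Fin.cons (eval z q)⁻¹ z : Fin (n + 1) → ℂ) := by
  unfold JJ at hG
  induction hG using Submodule.span_induction with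
  | mem G hG =>
    rcases hG with rfl | ⟨U, V, hUV, hG⟩
    · refine ⟨1, fun z _ => ?_⟩
      rw [ev_up, ev_one, mul_one, Fin.tail_cons, hρ]
    · refine ⟨0, fun z hz => ?_⟩
      have h1 := hUV (Fin.cons (eval z q)⁻¹ z : Fin (n + 1) → ℂ)
      rw [map_sub, map_mul, eval_uph, eval_X, Fin.tail_cons, Fin.cons_zero, map_one,
        mul_inv_cancel₀ hz, sub_self] at h1
      have hre := congrArg Complex.re h1
      have him := congrArg Complex.im h1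
      simp at hre him
      rw [ev_zero, mul_zero]
      rcases hG with rfl | rfl
      · exact hre.symm
      · exact him.symm
  | zero => exact ⟨0, fun z _ => by rw [ev_zero, mul_zero]⟩
  | add x y _ _ hx hy =>
    obtain ⟨H, hH⟩ := hx
    obtain ⟨H', hH'⟩ := hy
    refine ⟨H + H', fun z hz => ?_⟩
    rw [ev_add, ev_add, hH z hz, hH' z hz, mul_add]
  | smul a x _ hx =>
    obtain ⟨H, hH⟩ := hx
    refine ⟨a * H, fun z hz => ?_⟩
    rw [smul_eq_mul, ev_mul, ev_mul, hH z hz]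
    ring

theorem sub_q {n k : ℕ} {P : Fin k → MvPolynomial (Fin n) ℂ} {q : MvPolynomial (Fin n) ℂ}
    {ρ : MvPolynomial (Fin n ⊕ Fin n) ℝ} (hρ : ∀ z, ev ρ z = rr P q z)
    {Q : MvPolynomial (Fin n ⊕ Fin n) ℝ} (hQ : ∀ z, ev Q z = ‖eval z q‖ ^ 2)
    {F : MvPolynomial (Fin n ⊕ Fin n) ℝ} (h : SJ (JJ ρ q) (up F)) :
    ∃ l : ℕ, SJ (Ideal.span {ρ}) (F * Q ^ l) := by
  obtain ⟨m, p, G, hG, h⟩ := h
  obtain ⟨H, hH⟩ := sub3 hρ hG
  obtain ⟨l₀, h0⟩ := sub1n q p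
  obtain ⟨l₁, h1⟩ := sub2 q H
  obtain ⟨p', hp'⟩ := h0 (max l₀ l₁) (le_max_left _ _)
  obtain ⟨H', hH'⟩ := h1 (max l₀ l₁) (le_max_right _ _)
  set l := max l₀ l₁ with hl
  refine ⟨l + 1, m, fun j => q * p' j, Q * H' * ρ, ?_, fun z => ?_⟩
  · exact Ideal.mul_mem_left _ _ (Ideal.mem_span_singleton_self ρ)
  · have e : nrm (fun j => q * p' j) z = ‖eval z q‖ ^ 2 * nrm p' z := by
      unfold nrm
      rw [Finset.mul_sum]
      refine Finset.sum_congr rfl fun j _ => ?_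
      rw [map_mul, norm_mul, mul_pow]
    rw [e, ev_mul, ev_pow, ev_mul, ev_mul, hQ, hρ]
    by_cases hz : eval z q = 0
    · rw [hz]
      simp
    · have h2 := h (Fin.cons (eval z q)⁻¹ z : Fin (n + 1) → ℂ)
      rw [ev_up, Fin.tail_cons, hH z hz] at h2
      rw [h2, ← hp' z hz, ← hH' z hz]
      ring

end Pool.Agent.Work.MP_49847a_an
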