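import Pool.Agent.Work.MP_49847a_an.Rat.PosW
import Pool.Agent.Work.MP_49847a_an.Rat.KDM
import Pool.Agent.Work.MP_49847a_an.Rat.Arc
import Pool.Agent.Work.MP_49847a_an.Rat.Sta
import Pool.Agent.Work.MP_49847a_an.Rat.SubQ
import Pool.Agent.Work.MP_49847a_an.Rat.CpxQ

/-!
# Module Loc: positivity up to powers of `|q|²`, with a fixed power of `c + ‖z‖²`

Proof.  `N > nn z` on `XQ P q` (`rr_le_bound`), and `b |q|² - 1 > 0` on `XQ P q` for some `b`
(compactness, `q ≠ 0` there).  `pos_W` for `C N - ∑ |z_i|²` (as a real polynomial `WW n 0`) and for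
`C b * Q - 1` gives `K` such that both times `WW n c ^ K'` are in `SJ (span {ρ})` for `K' ≥ K`.
Fix `K' ≥ K`, `w = up (WW n c ^ K')`, and in `A = MvPolynomial (Fin (n+1) ⊕ Fin (n+1)) ℝ` put
`S = {s | SJ (JJ ρ q) s}`, `M = {g | SJ (JJ ρ q) (g * w)}`.
`arc` (`hi`): for `i = succ j`: `N - |z_j|² = (N - ∑ |z_i|²) + ∑_{i ≠ j} |z_i|²` (`up_SJ`).  For `i = 0`
(the variable `y`): `(b - |y|²) w = |y|² (b |q|² - 1) w + b (1 - |q y|²) w`, the last term is in `JJ ρ q`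
(`JJ_sq`).
Apply `kdm` to `up f`: let `φ` be as there.  `φ` vanishes on `JJ ρ q` (`± G · ` : `G * w ∈ JJ ρ q`, so
`G, -G ∈ M`).  `state_point`: `φ F = ev F ξ`, `Fin.tail ξ ∈ XQ P q`, so `φ (up f) = ev f (Fin.tail ξ) > 0`.
So `SJ (JJ ρ q) (up (f * WW n c ^ K'))`, and `sub_q` gives the claim.
-/

namespace Pool.Agent.Work.MP_49847a_an

open MvPolynomial

private theorem loc_b {n k d : ℕ} {P : Fin k → MvPolynomial (Fin n) ℂ}
    {q : MvPolynomial (Fin n) ℂ} (hL : Lead d P q)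
    {Q : MvPolynomial (Fin n ⊕ Fin n) ℝ} (hQ : ∀ z, ev Q z = ‖eval z q‖ ^ 2)
    (hq : ∀ z ∈ XQ P q, eval z q ≠ 0) :
    ∃ b : ℝ, 0 ≤ b ∧ ∀ z ∈ XQ P q, 0 < b * ‖eval z q‖ ^ 2 - 1 := by
  rcases (XQ P q).eq_empty_or_nonempty with h | h
  · exact ⟨0, le_rfl, fun z hz => by rw [h] at hz; exact hz.elim⟩
  · obtain ⟨z₀, hz₀, hmin⟩ := (isCompact_XQ hL).exists_isMinOn h (ev_continuous Q).continuousOn
    have h0 : 0 < ev Q z₀ := by
      rw [hQ]
      have := norm_pos_iff.2 (hq z₀ hz₀)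
      positivity
    refine ⟨2 / ev Q z₀, by positivity, fun z hz => ?_⟩
    have h1 : ev Q z₀ ≤ ev Q z := hmin hz
    rw [← hQ z]
    have h2 : 2 ≤ 2 / ev Q z₀ * ev Q z := by
      rw [div_mul_eq_mul_div, le_div_iff₀ h0]
      linarith
    linarith

private theorem ev_sqX {n : ℕ} (i : Fin n) (z : Fin n → ℂ) :
    ev (X (Sum.inl i) ^ 2 + X (Sum.inr i) ^ 2 : MvPolynomial (Fin n ⊕ Fin n) ℝ) z =
      ‖eval z (X i : MvPolynomial (Fin n) ℂ)‖ ^ 2 := by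
  rw [eval_X, ← Complex.normSq_eq_norm_sq, Complex.normSq_apply]
  simp only [ev, map_add, map_pow, eval_X, Sum.elim_inl, Sum.elim_inr]
  ring

theorem loc {n k d : ℕ} {P : Fin k → MvPolynomial (Fin n) ℂ} {q : MvPolynomial (Fin n) ℂ}
    (hL : Lead d P q) {ρ : MvPolynomial (Fin n ⊕ Fin n) ℝ} (hρ : ∀ z, ev ρ z = rr P q z)
    {Q : MvPolynomial (Fin n ⊕ Fin n) ℝ} (hQ : ∀ z, ev Q z = ‖eval z q‖ ^ 2)
    (hq : ∀ z ∈ XQ P q, eval z q ≠ 0) (hinj : InjQ P q) (hlevi : LeviQ P q)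
    {c : ℝ} (hc : 0 < c) :
    ∃ K : ℕ, ∀ K', K ≤ K' → ∀ f : MvPolynomial (Fin n ⊕ Fin n) ℝ,
      (∀ z ∈ XQ P q, 0 < ev f z) → ∃ l : ℕ, SJ (Ideal.span {ρ}) (f * WW n c ^ K' * Q ^ l) := by
  obtain ⟨R, hR, hR'⟩ := rr_le_bound hL
  obtain ⟨b, hb, hb'⟩ := loc_b hL hQ hq
  obtain ⟨K1, hK1⟩ := pos_W hL hρ hc (f := C R - WW n 0) (fun z hz => by
    rw [ev_sub, ev_C, ev_WW, zero_add]
    have := hR' z (le_of_eq hz)
    linarith)
  obtain ⟨K2, hK2⟩ := pos_W hL hρ hc (f := C b * Q - 1) (fun z hz => by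
    rw [ev_sub, ev_mul, ev_C, ev_one, hQ]
    exact hb' z hz)
  refine ⟨max K1 K2, fun K' hK' f hf => ?_⟩
  have h1 := hK1 K' ((le_max_left _ _).trans hK')
  have h2 := hK2 K' ((le_max_right _ _).trans hK')
  set w0 : MvPolynomial (Fin n ⊕ Fin n) ℝ := WW n c ^ K' with hw0
  have hw0S : SJ (Ideal.span {ρ}) w0 := SJ_pow (SJ_WW hc.le) K'
  set w : MvPolynomial (Fin (n + 1) ⊕ Fin (n + 1)) ℝ := up w0 with hw
  have hwS : SJ (JJ ρ q) w := up_SJ hw0S
  have hi : ∀ i : Fin (n + 1), ∃ N : ℝ,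
      SJ (JJ ρ q) ((C N - (X (Sum.inl i) ^ 2 + X (Sum.inr i) ^ 2)) * w) := by
    intro i
    refine Fin.cases ?_ (fun j => ?_) i
    · refine ⟨b, ?_⟩
      obtain ⟨A, hA⟩ := exists_norm_sq (uph q * X 0 : MvPolynomial (Fin (n + 1)) ℂ)
      have hA1 := JJ_sq (ρ := ρ) hA
      set Y : MvPolynomial (Fin (n + 1) ⊕ Fin (n + 1)) ℝ :=
        X (Sum.inl 0) ^ 2 + X (Sum.inr 0) ^ 2 with hY
      have hYS : SJ (JJ ρ q) Y := SJ_sq (ev_sqX 0)
      have hAY : A = Y * up Q := by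
        refine ev_ext fun ζ => ?_
        rw [hA, ev_mul, hY, ev_sqX, ev_up, hQ, map_mul, eval_uph, norm_mul]
        ring
      have e : (C b - Y) * w = Y * up ((C b * Q - 1) * w0) + (-(C b * w)) * (A - 1) := by
        have : up ((C b * Q - 1) * w0) = (C b * up Q - 1) * w := by
          rw [up_mul]
          congr 1
          unfold up
          simp
        rw [this, hAY]
        ring
      rw [e]
      exact SJ_add (SJ_mul hYS (up_SJ h2)) (SJ_ideal (Ideal.mul_mem_left _ _ hA1))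
    · refine ⟨R, ?_⟩
      have e : (C R - (X (Sum.inl j.succ) ^ 2 + X (Sum.inr j.succ) ^ 2)) * w =
          up ((C R - (X (Sum.inl j) ^ 2 + X (Sum.inr j) ^ 2)) * w0) := by
        rw [up_mul]
        congr 1
        unfold up
        simp
      rw [e]
      apply up_SJ
      have e2 : (C R - (X (Sum.inl j) ^ 2 + X (Sum.inr j) ^ 2)) * w0 =
          (C R - WW n 0) * w0 +
            (∑ i ∈ Finset.univ.erase j, (X (Sum.inl i) ^ 2 + X (Sum.inr i) ^ 2)) * w0 := by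
        have : WW n 0 = (X (Sum.inl j) ^ 2 + X (Sum.inr j) ^ 2) +
            ∑ i ∈ Finset.univ.erase j, (X (Sum.inl i) ^ 2 + X (Sum.inr i) ^ 2) := by
          unfold WW
          rw [C_0, zero_add]
          exact (Finset.add_sum_erase Finset.univ
            (fun i => (X (Sum.inl i) ^ 2 + X (Sum.inr i) ^ 2 : MvPolynomial (Fin n ⊕ Fin n) ℝ))
            (Finset.mem_univ j)).symm
        rw [this]
        ring
      rw [e2]
      exact SJ_add h1 (SJ_mul (SJ_sum _ _ fun i _ => SJ_sq (ev_sqX i)) hw0S)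
  have key : up f ∈ {g : MvPolynomial (Fin (n + 1) ⊕ Fin (n + 1)) ℝ | SJ (JJ ρ q) (g * w)} := by
    refine kdm {s | SJ (JJ ρ q) s} {g | SJ (JJ ρ q) (g * w)} ?_ ?_ ?_ ?_ ?_ ?_
    · intro c hc
      exact SJ_C hc
    · intro x hx y hy
      show SJ (JJ ρ q) ((x + y) * w)
      rw [add_mul]
      exact SJ_add hx hy
    · intro s hs x hx
      show SJ (JJ ρ q) (s * x * w)
      rw [mul_assoc]
      exact SJ_mul hs hx
    · show SJ (JJ ρ q) (1 * w)
      rw [one_mul]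
      exact hwS
    · intro a
      exact arc hwS hi a
    · intro φ hφ1 hφM hφm
      have hJ : ∀ G ∈ JJ ρ q, φ G = 0 := by
        intro G hG
        have h3 : 0 ≤ φ G := hφM G (SJ_ideal (Ideal.mul_mem_right _ _ hG))
        have h4 : 0 ≤ φ (-G) := hφM (-G) (SJ_ideal (Ideal.mul_mem_right _ _ (neg_mem hG)))
        rw [map_neg] at h4
        linarith
      obtain ⟨ξ, hξ, hξ'⟩ := state_point hρ hinj hlevi hφ1 hJ (fun s hs hs' g => hφm s hs hs' g)
      rw [hξ', ev_up]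
      exact hf _ hξ
  have key2 : SJ (JJ ρ q) (up (f * w0)) := by
    rw [up_mul]
    exact key
  exact sub_q hρ hQ key2

end Pool.Agent.Work.MP_49847a_an
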