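import Pool.Agent.Work.MP_49847a_an.Rat.CpxQ

/-!
# Module MaxP: `{‖P‖ < |q|}` is contained in the hull of `{‖P‖ = |q|}`

Proof.  (max_hull) Let `n ≥ 1`.  `U = {rr P q < 0}` is open, bounded (`isBounded_rr_le`), its frontier is
in `XQ P q` (continuity of `rr`); for a holomorphic polynomial `p` use
`Complex.norm_le_of_forall_mem_frontier_norm_le` (polynomials are differentiable; `DiffContOnCl`; the space
`Fin n → ℂ` is nontrivial).  For `n = 0` and `rr < 0` somewhere: `XQ P q` is empty, the statement is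
false in general, so `n ≠ 0` is assumed.
(two_points) Take `z₀` with `rr < 0`, `v = e_0` (first coordinate direction) and the real line `z₀ + t v`: by
boundedness and the intermediate value theorem there are `t₁ < 0 < t₂` with `z₀ + t_i v ∈ XQ P q`.
-/

namespace Pool.Agent.Work.MP_49847a_an

open MvPolynomial

variable {n k d : ℕ} {P : Fin k → MvPolynomial (Fin n) ℂ} {q : MvPolynomial (Fin n) ℂ}

private theorem mp_diff (p : MvPolynomial (Fin n) ℂ) :
    Differentiable ℂ (fun z : Fin n → ℂ => eval z p) := by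
  induction p using MvPolynomial.induction_on with
  | C a =>
    simp only [eval_C]
    exact differentiable_const a
  | add p q hp hq =>
    simp only [map_add]
    exact hp.add hq
  | mul_X p i hp =>
    simp only [map_mul, eval_X]
    exact hp.mul (differentiable_apply i)

private theorem mp_cont (P : Fin k → MvPolynomial (Fin n) ℂ) (q : MvPolynomial (Fin n) ℂ) :
    Continuous (rr P q) := by
  obtain ⟨ρ, hρ⟩ := exists_rho P q
  have : rr P q = ev ρ := by
    funext z
    exact (hρ z).symm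
  rw [this]
  exact ev_continuous ρ

theorem max_hull (hn : n ≠ 0) (hL : Lead d P q) {z : Fin n → ℂ} (hz : rr P q z < 0) :
    z ∈ hull (XQ P q) := by
  have : Nonempty (Fin n) := ⟨⟨0, Nat.pos_of_ne_zero hn⟩⟩
  have hcont := mp_cont P q
  have hopen : IsOpen {z | rr P q z < 0} := isOpen_lt hcont continuous_const
  have hbdd : Bornology.IsBounded {z | rr P q z < 0} :=
    (isBounded_rr_le hL).subset fun z (hz : rr P q z < 0) => (show rr P q z ≤ 0 from le_of_lt hz)
  have hfr : frontier {z | rr P q z < 0} ⊆ XQ P q := by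
    intro x hx
    rw [hopen.frontier_eq] at hx
    have h1 : rr P q x ≤ 0 :=
      closure_minimal (fun z (hz : rr P q z < 0) => (show rr P q z ≤ 0 from le_of_lt hz))
        (isClosed_le hcont continuous_const) hx.1
    have h2 : ¬ rr P q x < 0 := hx.2
    exact le_antisymm h1 (not_lt.1 h2)
  intro p c hp
  exact Complex.norm_le_of_forall_mem_frontier_norm_le hbdd (mp_diff p).diffContOnCl
    (fun w hw => hp w (hfr hw)) (subset_closure hz)

theorem two_points (hn : n ≠ 0) (hL : Lead d P q) {z : Fin n → ℂ} (hz : rr P q z < 0) :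
    ∃ a ∈ XQ P q, ∃ b ∈ XQ P q, a ≠ b := by
  have hcont := mp_cont P q
  set i₀ : Fin n := ⟨0, Nat.pos_of_ne_zero hn⟩
  obtain ⟨R, hR⟩ := (isBounded_rr_le hL).exists_norm_le
  set e : Fin n → ℂ := Pi.single i₀ 1 with he
  set γ : ℝ → (Fin n → ℂ) := fun t => z + (t : ℂ) • e with hγ
  have hγc : Continuous γ := by
    rw [hγ]
    exact continuous_const.add (Complex.continuous_ofReal.smul continuous_const)
  have hgc : Continuous fun t => rr P q (γ t) := hcont.comp hγc
  have hg0 : rr P q (γ 0) < 0 := by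
    have : γ 0 = z := by simp [hγ]
    rw [this]
    exact hz
  have hbig : ∀ t : ℝ, |R| + ‖z‖ < |t| → 0 < rr P q (γ t) := by
    intro t ht
    by_contra hcon
    push Not at hcon
    have h1 := hR (γ t) hcon
    have h2 : ‖(t : ℂ)‖ ≤ ‖γ t‖ + ‖z‖ := by
      have h3 : (t : ℂ) = (γ t) i₀ - z i₀ := by
        simp [hγ, he]
      rw [h3]
      refine (norm_sub_le _ _).trans (add_le_add (norm_le_pi_norm _ _) (norm_le_pi_norm _ _))
    rw [Complex.norm_real, Real.norm_eq_abs] at h2
    have := le_abs_self R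
    linarith
  set T : ℝ := |R| + ‖z‖ + 1 with hT
  have hT0 : 0 < T := by positivity
  have hp1 : 0 < rr P q (γ T) := hbig T (by rw [abs_of_pos hT0]; linarith)
  have hp2 : 0 < rr P q (γ (-T)) := hbig (-T) (by rw [abs_neg, abs_of_pos hT0]; linarith)
  obtain ⟨t₂, ht₂, h2⟩ := intermediate_value_Icc hT0.le hgc.continuousOn
    (⟨hg0.le, hp1.le⟩ : (0:ℝ) ∈ Set.Icc (rr P q (γ 0)) (rr P q (γ T)))
  obtain ⟨t₁, ht₁, h1⟩ := intermediate_value_Icc' (neg_nonpos.2 hT0.le) hgc.continuousOn
    (⟨hg0.le, hp2.le⟩ : (0:ℝ) ∈ Set.Icc (rr P q (γ 0)) (rr P q (γ (-T))))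
  refine ⟨γ t₂, h2, γ t₁, h1, ?_⟩
  intro h
  have h3 : t₂ = t₁ := by
    have h4 := congrFun h i₀
    have h5 : (t₂ : ℂ) = (t₁ : ℂ) := by simpa [hγ, he] using h4
    exact_mod_cast h5
  have h4 : t₂ = 0 := le_antisymm (h3 ▸ ht₁.2) ht₂.1
  have h2' : rr P q (γ t₂) = 0 := h2
  rw [h4] at h2'
  linarith

end Pool.Agent.Work.MP_49847a_an
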