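import Pool.Agent.Work.MP_49847a_an.Rat.MaxP
import Pool.Agent.Work.MP_49847a_an.Rat.HullT
import Pool.Agent.Work.MP_49847a_an.Rat.Ban

/-!
# Module NecA: `q` has no zero on the hull

Proof.  Let `a` be in the hull, `q(a) = 0`, and `z₀` with `rr(z₀) < 0`, i.e. `‖P(z₀)‖ < |q(z₀)|`; `z₀` is in
the hull (`max_hull`; `n ≠ 0` since the hull of the empty set is empty: for `n = 0` and `rr(z₀) < 0` the
set `XQ P q` is empty).  Let `g(x) = ∑_j P_j(x) conj(P_j(z₀)) - q(x) conj(q(z₀))`, a holomorphic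
polynomial.  By `hull_twoQ`, `g(x) ≠ 0` for `x ∈ hull`, `x ≠ z₀`, and `g(z₀) = rr(z₀) ≠ 0`.  So `g` has no
zero on the hull, and `ban` gives for every `δ > 0` a polynomial `G` with `|1 - g G| < δ` on `XQ P q`.
On `XQ P q`: `|∑_j P_j conj(P_j(z₀))| ≤ ‖P(x)‖ ‖P(z₀)‖ ≤ θ |q(x)| |q(z₀)|` with `θ < 1`.  Put
`ψ = - q conj(q(z₀)) G`.  Where `x ∈ XQ P q`: `q(x) ≠ 0` (else `P(x) = 0`, `g(x) = 0`), and
`- q(x) conj(q(z₀))/g(x) = 1/(1 - ε(x))` with `|ε| ≤ θ`, which has real part `≥ 1/2` and modulus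
`≤ 1/(1-θ)`; so `ψ(x) = (1 - (1 - g G))/(1 - ε)` has real part `≥ 1/2 - δ/(1-θ) ≥ 1/4` for small `δ`.
Let `B ≥ |ψ|` on `XQ P q`.  For large real `c`: `|c - ψ|² = c² - 2 c Re ψ + |ψ|² ≤ c² - c/2 + B² ≤
(c - 1/8)²` on `XQ P q` so `|c - ψ(a)| ≤ c - 1/8` as `a` is in the hull; but `ψ(a) = 0`.  Contradiction.
-/

namespace Pool.Agent.Work.MP_49847a_an

open MvPolynomial

private theorem neca_half {ε : ℂ} {θ : ℝ} (hθ : θ < 1) (h : ‖ε‖ ≤ θ) :
    (1 / 2 : ℝ) ≤ ((1 - ε)⁻¹).re ∧ ‖(1 - ε)⁻¹‖ ≤ 1 / (1 - θ) := by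
  have h0 : 0 ≤ ‖ε‖ := norm_nonneg _
  have h1 : 1 - θ ≤ ‖1 - ε‖ := by
    have := norm_sub_norm_le (1 : ℂ) ε
    rw [norm_one] at this
    linarith
  have h2 : 0 < ‖1 - ε‖ := by linarith
  constructor
  · rw [Complex.inv_re, Complex.normSq_eq_norm_sq, le_div_iff₀ (by positivity)]
    have h3 : ‖1 - ε‖ ^ 2 = 1 - 2 * ε.re + ‖ε‖ ^ 2 := by
      rw [← Complex.normSq_eq_norm_sq, ← Complex.normSq_eq_norm_sq, Complex.normSq_apply,
        Complex.normSq_apply]
      simp only [Complex.sub_re, Complex.sub_im, Complex.one_re, Complex.one_im]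
      ring
    rw [h3, Complex.sub_re, Complex.one_re]
    have h4 : ‖ε‖ ^ 2 ≤ 1 := by nlinarith
    linarith
  · rw [norm_inv, inv_eq_one_div]
    exact one_div_le_one_div_of_le (by linarith) h1

theorem nec_a {n k d : ℕ} {P : Fin k → MvPolynomial (Fin n) ℂ} {q : MvPolynomial (Fin n) ℂ}
    (hL : Lead d P q) (h : QuillenQ P q) (h0 : ∃ z, rr P q z < 0) :
    ∀ a ∈ hull (XQ P q), eval a q ≠ 0 := by
  intro a ha hqa
  obtain ⟨z₀, hz₀⟩ := h0
  have hne : (XQ P q).Nonempty := by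
    by_contra hcon
    rw [Set.not_nonempty_iff_eq_empty] at hcon
    rw [hcon] at ha
    have h1 := ha 1 0 (fun z hz => absurd hz (Set.notMem_empty z))
    rw [map_one, norm_one] at h1
    linarith
  have hn : n ≠ 0 := by
    rintro rfl
    obtain ⟨z, hz⟩ := hne
    have h1 : z = z₀ := Subsingleton.elim _ _
    rw [h1] at hz
    have h2 : rr P q z₀ = 0 := hz
    linarith
  have hXc := isCompact_XQ hL
  have hz₀h := max_hull hn hL hz₀
  -- the values at z₀
  set b := ‖eval z₀ q‖ with hb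
  set A := nrm P z₀ with hA
  have hrr : A - b ^ 2 < 0 := hz₀
  have hA0 : 0 ≤ A := nrm_nonneg P z₀
  have hb0 : 0 < b := by
    rcases (norm_nonneg (eval z₀ q)).eq_or_lt with h1 | h1
    · exfalso
      rw [← hb] at h1
      rw [← h1] at hrr
      nlinarith
    · exact h1
  set θ := √A / b with hθ
  have hθ0 : 0 ≤ θ := by positivity
  have hθ1 : θ < 1 := by
    rw [hθ, div_lt_one hb0]
    calc √A < √(b ^ 2) := Real.sqrt_lt_sqrt hA0 (by linarith)
      _ = b := Real.sqrt_sq hb0.le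
  -- the polynomial g
  set g : MvPolynomial (Fin n) ℂ :=
    ∑ j, C ((starRingEnd ℂ) (eval z₀ (P j))) * P j - C ((starRingEnd ℂ) (eval z₀ q)) * q with hg
  have hge : ∀ x, eval x g = ∑ j, eval x (P j) * (starRingEnd ℂ) (eval z₀ (P j)) -
      eval x q * (starRingEnd ℂ) (eval z₀ q) := by
    intro x
    simp only [hg, map_sub, map_sum, map_mul, eval_C]
    congr 1
    · exact Finset.sum_congr rfl fun j _ => mul_comm _ _
    · exact mul_comm _ _
  have hgz : eval z₀ g ≠ 0 := by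
    rw [hge]
    have e : ∑ j, eval z₀ (P j) * (starRingEnd ℂ) (eval z₀ (P j)) -
        eval z₀ q * (starRingEnd ℂ) (eval z₀ q) = ((A - b ^ 2 : ℝ) : ℂ) := by
      rw [hA, hb, nrm]
      push_cast
      congr 1
      · exact Finset.sum_congr rfl fun j _ => Complex.mul_conj' _
      · exact Complex.mul_conj' _
    rw [e]
    exact_mod_cast hrr.ne
  have hgh : ∀ x ∈ hull (XQ P q), eval x g ≠ 0 := by
    intro x hx hgx
    have h1 : x = z₀ := hull_twoQ hXc h hx hz₀h (by rw [← hge]; exact hgx)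
    rw [h1] at hgx
    exact hgz hgx
  set δ := (1 - θ) / 4 with hδ
  have hδ0 : 0 < δ := by rw [hδ]; linarith
  obtain ⟨G, hG⟩ := ban hXc hgh hδ0
  set ψ : MvPolynomial (Fin n) ℂ := -(C ((starRingEnd ℂ) (eval z₀ q)) * q * G) with hψ
  -- values of ψ on X
  have hψX : ∀ x ∈ XQ P q, 1 / 4 ≤ (eval x ψ).re ∧ ‖eval x ψ‖ ≤ 2 / (1 - θ) := by
    intro x hx
    have hxh := subset_hull (XQ P q) hx
    have hgx := hgh x hxh
    have hxr : nrm P x = ‖eval x q‖ ^ 2 := by
      have h1 : nrm P x - ‖eval x q‖ ^ 2 = 0 := hx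
      linarith
    set S := ∑ j, eval x (P j) * (starRingEnd ℂ) (eval z₀ (P j)) with hS
    have hSle : ‖S‖ ≤ ‖eval x q‖ * √A := by
      refine (cs_sum _ _).trans ?_
      have e1 : ∑ j, ‖(starRingEnd ℂ) (eval z₀ (P j))‖ ^ 2 = A := by
        rw [hA, nrm]
        refine Finset.sum_congr rfl fun j _ => ?_
        rw [RCLike.norm_conj]
      have e2 : ∑ j, ‖eval x (P j)‖ ^ 2 = ‖eval x q‖ ^ 2 := hxr
      rw [e1, e2, Real.sqrt_sq (norm_nonneg _)]
    set u := eval x q * (starRingEnd ℂ) (eval z₀ q) with hu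
    have hgx' : eval x g = S - u := hge x
    have hqx : eval x q ≠ 0 := by
      intro h1
      have h2 : S = 0 := by
        rw [h1, norm_zero, zero_mul] at hSle
        exact norm_le_zero_iff.1 hSle
      rw [hgx', h2, hu, h1, zero_mul, sub_zero] at hgx
      exact hgx rfl
    have hqn : 0 < ‖eval x q‖ := norm_pos_iff.2 hqx
    have hun : ‖u‖ = ‖eval x q‖ * b := by
      rw [hu, norm_mul, RCLike.norm_conj]
    have hu0 : u ≠ 0 := by
      rw [← norm_pos_iff, hun]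
      positivity
    set ε := S / u with hε
    have hεn : ‖ε‖ ≤ θ := by
      rw [hε, norm_div, hun, hθ, div_le_div_iff₀ (by positivity) hb0]
      calc ‖S‖ * b ≤ (‖eval x q‖ * √A) * b := mul_le_mul_of_nonneg_right hSle hb0.le
        _ = √A * (‖eval x q‖ * b) := by ring
    obtain ⟨hre, hno⟩ := neca_half hθ1 hεn
    have h1ε : (1 - ε) ≠ 0 := by
      intro h1
      rw [h1, inv_zero] at hre
      simp at hre
      linarith
    set η := 1 - eval x g * eval x G with hη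
    have hηn : ‖η‖ ≤ δ := (hG x hx).le
    have hψx : eval x ψ = (1 - ε)⁻¹ - η * (1 - ε)⁻¹ := by
      have e1 : eval x ψ = -(u * eval x G) := by
        simp only [hψ, map_neg, map_mul, eval_C, hu]
        ring
      have e2 : eval x g = -u * (1 - ε) := by
        rw [hgx', hε]
        field_simp
        ring
      rw [e1, hη, e2]
      field_simp
      ring
    have h1θ : 0 < 1 - θ := by linarith
    have hηε : ‖η * (1 - ε)⁻¹‖ ≤ 1 / 4 := by
      rw [norm_mul]
      calc ‖η‖ * ‖(1 - ε)⁻¹‖ ≤ δ * (1 / (1 - θ)) :=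
            mul_le_mul hηn hno (norm_nonneg _) hδ0.le
        _ = 1 / 4 := by rw [hδ]; field_simp
    constructor
    · rw [hψx, Complex.sub_re]
      have h2 := (Complex.abs_re_le_norm (η * (1 - ε)⁻¹)).trans hηε
      have h3 := (abs_le.1 h2).2
      linarith
    · rw [hψx]
      refine (norm_sub_le _ _).trans ?_
      have h2 : (1 : ℝ) / 4 ≤ 1 / (1 - θ) := by
        rw [div_le_div_iff₀ (by norm_num) h1θ]
        linarith
      have h3 : 2 / (1 - θ) = 1 / (1 - θ) + 1 / (1 - θ) := by ring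
      rw [h3]
      exact add_le_add hno (hηε.trans h2)
  set B := 2 / (1 - θ) with hB
  have hB0 : 0 < B := by
    have : 0 < 1 - θ := by linarith
    positivity
  set c : ℝ := 4 * B ^ 2 + 1 with hc
  have hc1 : 1 ≤ c := by
    have : 0 ≤ B ^ 2 := sq_nonneg B
    linarith
  have hfin := ha (C ((c : ℝ) : ℂ) - ψ) (c - 1 / 8) (by
    intro x hx
    obtain ⟨h1, h2⟩ := hψX x hx
    refine abs_le_of_sq_le_sq' ?_ (by linarith) |>.2
    rw [map_sub, eval_C]
    have e : ‖((c : ℝ) : ℂ) - eval x ψ‖ ^ 2 = c ^ 2 - 2 * c * (eval x ψ).re + ‖eval x ψ‖ ^ 2 := by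
      rw [← Complex.normSq_eq_norm_sq, ← Complex.normSq_eq_norm_sq, Complex.normSq_apply,
        Complex.normSq_apply]
      simp only [Complex.sub_re, Complex.sub_im, Complex.ofReal_re, Complex.ofReal_im]
      ring
    rw [e]
    have h3 : ‖eval x ψ‖ ^ 2 ≤ B ^ 2 := pow_le_pow_left₀ (norm_nonneg _) h2 2
    nlinarith)
  have hψa : eval a ψ = 0 := by
    simp only [hψ, map_neg, map_mul, hqa, mul_zero, zero_mul, neg_zero]
  rw [map_sub, eval_C, hψa, sub_zero, Complex.norm_real, Real.norm_of_nonneg (by linarith)] at hfin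
  linarith

end Pool.Agent.Work.MP_49847a_an
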