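import Pool.Agent.Work.MP_49847a_an.Rat.HullT
import Pool.Agent.Work.MP_49847a_an.Rat.CpxQ
import Pool.Agent.Work.MP_49847a_an.Rat.Ban

/-!
# Module NecB: injectivity is necessary

Proof.  `a, b ∈ XQ P q`, `P(a) q(b) = P(b) q(a)`, `q(a), q(b) ≠ 0`.  With `κ = q(a)/q(b)`:
`P(a) = κ P(b)`, `q(a) = κ q(b)`, so `∑_j P_j(a) conj(P_j(b)) - q(a) conj(q(b)) = κ rr(b) = 0` and
`hull_twoQ` (with `subset_hull`) gives `a = b`.
-/

namespace Pool.Agent.Work.MP_49847a_an

open MvPolynomial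

theorem nec_b {n k d : ℕ} {P : Fin k → MvPolynomial (Fin n) ℂ} {q : MvPolynomial (Fin n) ℂ}
    (hL : Lead d P q) (h : QuillenQ P q) (hq : ∀ a ∈ XQ P q, eval a q ≠ 0) : InjQ P q := by
  intro a ha b hb hab
  have hqa := hq a ha
  have hqb := hq b hb
  refine hull_twoQ (isCompact_XQ hL) h (subset_hull _ ha) (subset_hull _ hb) ?_
  have h1 : ∀ j, eval a (P j) = eval a q / eval b q * eval b (P j) := by
    intro j
    rw [div_mul_eq_mul_div, eq_div_iff hqb, hab j]
    ring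
  have h2 : ∑ j, eval a (P j) * (starRingEnd ℂ) (eval b (P j))
      = eval a q / eval b q * ((nrm P b : ℝ) : ℂ) := by
    unfold nrm
    push_cast
    rw [Finset.mul_sum]
    refine Finset.sum_congr rfl fun j _ => ?_
    rw [h1 j, mul_assoc, Complex.mul_conj']
  have h3 : eval a q * (starRingEnd ℂ) (eval b q)
      = eval a q / eval b q * ((‖eval b q‖ ^ 2 : ℝ) : ℂ) := by
    push_cast
    rw [← Complex.mul_conj']
    field_simp
  have h4 : rr P q b = 0 := hb
  rw [h2, h3, ← mul_sub, ← Complex.ofReal_sub]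
  unfold rr at h4
  rw [h4]
  simp

end Pool.Agent.Work.MP_49847a_an
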