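import Pool.Agent.Work.MP_49847a_an.Rat.SJL
import Pool.Agent.Work.MP_49847a_an.Rat.CpxQ
import Pool.Agent.Work.MP_49847a_an.OnlyImm

/-!
# Module NecC: positivity of the Levi form is necessary

Proof.  Let `x ∈ XQ P q`, `v ≠ 0` with `∑_j (dP_j v) conj P_j(x) = (dq v) conj q(x)`, and suppose that
`∑ |dP_j v|² ≤ |dq v|²`.  Let `κ = dq v / q(x)`.  Then
`∑_j |dP_j v - κ P_j(x)|² = ∑ |dP_j v|² - 2 Re(conj κ ∑ (dP_j v) conj P_j(x)) + |κ|² ‖P(x)‖²
 = ∑ |dP_j v|² - 2 |κ|² |q(x)|² + |κ|² |q(x)|² = ∑ |dP_j v|² - |dq v|² ≤ 0`,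
so `dP_j(x) v = κ P_j(x)` and `dq(x) v = κ q(x)`.
Now copy module `OnlyImm` (`only_imm`, its private lemma `taylor` may be copied): `A(t) = x + t v`,
`P_j(A t) = (1 + t κ) P_j(x) + t² α_j(t)`, `q(A t) = (1 + t κ) q(x) + t² β(t)`, all continuous in `t` real.
With `r(z,w) = ∑_j P_j(z) conj P_j(w) - q(z) conj q(w)` and `r(x,x) = 0`,
`γ = ∑_j α_j conj P_j(x) - β conj q(x)`:
`r(A,x) = t² γ`, `r(x,A) = t² conj γ`,
`r(A,A) = t² ((1 + t conj κ) γ + (1 + t κ) conj γ) + t⁴ (∑ |α_j|² - |β|²)`.
The polarised identity for `R = C c - |l|²` (`l = ∑_i conj(v_i)(X i - x i)`; `pol` of `ev R = nrm p + rr · ev H`: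
`pol_nrm`, `pol_add`, `pol_sub`, `pol_mul` with a real polynomial `ρ`, `ev ρ = rr`, and `pol_sum`), combined
over the four pairs of `A`, `x`, gives
`- t² s² = ∑_j |p_j(A) - p_j(x)|² + t² ω(t)`, `s = ∑ |v_i|²`, with
`ω = ((1 + t conj κ) γ + (1 + t κ) conj γ + t² (…)) h(A,A) - γ h(A,x) - conj γ h(x,A)`, `ω` continuous,
`ω(0) = 0` (`h = pol H`).  So `- s² ≥ Re ω(t) → 0`: contradiction.
-/

namespace Pool.Agent.Work.MP_49847a_an

open MvPolynomial Topology

private theorem necc_taylor {n : ℕ} (x v : Fin n → ℂ) (Q : MvPolynomial (Fin n) ℂ) :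
    ∃ q : ℂ → ℂ, Continuous q ∧ ∀ t : ℂ, eval (fun i => x i + t * v i) Q =
      eval x Q + t * (∑ i, eval x (pderiv i Q) * v i) + t ^ 2 * q t := by
  induction Q using MvPolynomial.induction_on with
  | C c => exact ⟨fun _ => 0, continuous_const, fun t => by simp⟩
  | add F G hF hG =>
    obtain ⟨q1, hq1, h1⟩ := hF
    obtain ⟨q2, hq2, h2⟩ := hG
    refine ⟨fun t => q1 t + q2 t, hq1.add hq2, fun t => ?_⟩
    simp only [map_add, h1, h2, add_mul, Finset.sum_add_distrib]
    ring
  | mul_X F j hF =>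
    obtain ⟨q, hq, h⟩ := hF
    have hd : ∑ i, eval x (pderiv i (F * X j)) * v i =
        (∑ i, eval x (pderiv i F) * v i) * x j + eval x F * v j := by
      have h1 : ∀ i, eval x (pderiv i (F * X j)) * v i =
          (eval x (pderiv i F) * v i) * x j + eval x F * (if i = j then v i else 0) := by
        intro i
        rw [Derivation.leibniz, smul_eq_mul, smul_eq_mul, map_add, map_mul, map_mul, eval_X,
          pderiv_X]
        by_cases hij : i = j
        · subst hij
          simp only [Pi.single_eq_same, map_one, if_true]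
          ring
        · rw [if_neg hij, Pi.single_apply, if_neg (Ne.symm hij)]
          simp only [map_zero]
          ring
      simp only [h1, Finset.sum_add_distrib, ← Finset.sum_mul, ← Finset.mul_sum,
        Finset.sum_ite_eq', Finset.mem_univ, if_true]
    refine ⟨fun t => q t * x j + (∑ i, eval x (pderiv i F) * v i) * v j + t * q t * v j,
      by fun_prop, fun t => ?_⟩
    rw [hd, map_mul, eval_X, h, map_mul, eval_X]
    ring

theorem nec_c {n k d : ℕ} {P : Fin k → MvPolynomial (Fin n) ℂ} {q : MvPolynomial (Fin n) ℂ}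
    (hL : Lead d P q) (h : QuillenQ P q) (hq : ∀ a ∈ XQ P q, eval a q ≠ 0) : LeviQ P q := by
  intro x hx v hv0 htan
  by_contra hneg
  push Not at hneg
  have hQ := h
  have hqx := hq x hx
  have hrx : nrm P x - ‖eval x q‖ ^ 2 = 0 := hx
  -- proportionality
  set κ₀ : ℂ := dq q x v / eval x q with hκ₀
  have hdq : dq q x v = κ₀ * eval x q := by
    rw [hκ₀]
    field_simp
  have hPxx : ∑ j, eval x (P j) * (starRingEnd ℂ) (eval x (P j)) =
      eval x q * (starRingEnd ℂ) (eval x q) := by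
    have h1 : nrm P x = ‖eval x q‖ ^ 2 := by linarith
    rw [nrm] at h1
    have h2 := congrArg (fun r : ℝ => (r : ℂ)) h1
    push_cast at h2
    rw [Complex.mul_conj', ← h2]
    exact Finset.sum_congr rfl fun j _ => Complex.mul_conj' _
  have hdd : ∀ j, dd P x v j = κ₀ * eval x (P j) := by
    have h1 : ((∑ j, ‖dd P x v j - κ₀ * eval x (P j)‖ ^ 2 : ℝ) : ℂ) =
        ((∑ j, ‖dd P x v j‖ ^ 2 - ‖dq q x v‖ ^ 2 : ℝ) : ℂ) := by
      have e1 : ((∑ j, ‖dd P x v j - κ₀ * eval x (P j)‖ ^ 2 : ℝ) : ℂ) =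
          ∑ j, dd P x v j * (starRingEnd ℂ) (dd P x v j) -
          (starRingEnd ℂ) κ₀ * ∑ j, dd P x v j * (starRingEnd ℂ) (eval x (P j)) -
          κ₀ * (starRingEnd ℂ) (∑ j, dd P x v j * (starRingEnd ℂ) (eval x (P j))) +
          κ₀ * (starRingEnd ℂ) κ₀ * ∑ j, eval x (P j) * (starRingEnd ℂ) (eval x (P j)) := by
        rw [map_sum, Finset.mul_sum, Finset.mul_sum, Finset.mul_sum, ← Finset.sum_sub_distrib,
          ← Finset.sum_sub_distrib, ← Finset.sum_add_distrib]
        push_cast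
        refine Finset.sum_congr rfl fun j _ => ?_
        rw [← Complex.mul_conj', map_sub, map_mul, map_mul, Complex.conj_conj]
        ring
      have e2 : ∑ j, dd P x v j * (starRingEnd ℂ) (eval x (P j)) =
          κ₀ * (eval x q * (starRingEnd ℂ) (eval x q)) := by
        rw [sub_eq_zero] at htan
        rw [htan, hdq]
        ring
      have e3 : ((∑ j, ‖dd P x v j‖ ^ 2 - ‖dq q x v‖ ^ 2 : ℝ) : ℂ) =
          ∑ j, dd P x v j * (starRingEnd ℂ) (dd P x v j) -
          dq q x v * (starRingEnd ℂ) (dq q x v) := by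
        push_cast
        congr 1
        · exact Finset.sum_congr rfl fun j _ => (Complex.mul_conj' _).symm
        · exact (Complex.mul_conj' _).symm
      rw [e1, e2, e3, hPxx, hdq]
      simp only [map_mul, Complex.conj_conj]
      ring
    have h2 : ∑ j, ‖dd P x v j - κ₀ * eval x (P j)‖ ^ 2 ≤ 0 := by
      have h3 : (∑ j, ‖dd P x v j - κ₀ * eval x (P j)‖ ^ 2 : ℝ) =
        (∑ j, ‖dd P x v j‖ ^ 2 - ‖dq q x v‖ ^ 2 : ℝ) := by exact_mod_cast h1
      rw [h3]
      exact hneg
    have h3 := (Finset.sum_eq_zero_iff_of_nonneg (s := Finset.univ)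
      (f := fun j => ‖dd P x v j - κ₀ * eval x (P j)‖ ^ 2) (fun j _ => by positivity)).1
      (le_antisymm h2 (Finset.sum_nonneg fun j _ => by positivity))
    intro j
    have h4 := h3 j (Finset.mem_univ j)
    exact sub_eq_zero.1 (norm_eq_zero.1 (pow_eq_zero_iff (two_ne_zero) |>.1 h4))
  -- the linear form
  set l : MvPolynomial (Fin n) ℂ := ∑ i, C ((starRingEnd ℂ) (v i)) * (X i - C (x i)) with hl
  set s : ℝ := ∑ i, ‖v i‖ ^ 2 with hs
  have hs0 : 0 < s := by
    have h1 : ∃ i, v i ≠ 0 := by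
      by_contra hcon
      push Not at hcon
      exact hv0 (funext hcon)
    obtain ⟨i, hi⟩ := h1
    refine Finset.sum_pos' (fun _ _ => by positivity) ⟨i, Finset.mem_univ i, by positivity⟩
  set A : ℝ → Fin n → ℂ := fun t i => x i + (t : ℂ) * v i with hA
  have hAc : Continuous A := by
    refine continuous_pi fun i => ?_
    fun_prop
  have hA0 : A 0 = x := by
    funext i
    simp [hA]
  have hlx : eval x l = 0 := by
    simp [hl]
  have hlA : ∀ t, eval (A t) l = ((t * s : ℝ) : ℂ) := by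
    intro t
    simp only [hl, hA, hs, map_sum, map_mul, eval_C, map_sub, eval_X, add_sub_cancel_left]
    push_cast
    rw [Finset.mul_sum]
    refine Finset.sum_congr rfl fun i _ => ?_
    rw [← Complex.mul_conj']
    ring
  obtain ⟨F, hF⟩ := exists_norm_sq l
  obtain ⟨B, hB⟩ := (isCompact_XQ hL).exists_bound_of_continuousOn (ev_continuous F).continuousOn
  obtain ⟨m, p, H, hR⟩ := hQ (C (B + 1) - F) (by
    intro z hz
    rw [ev_sub, ev_C]
    have h1 := hB z hz
    have h2 := le_abs_self (ev F z)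
    rw [Real.norm_eq_abs] at h1
    linarith)
  have hE : ∀ z w, ((B + 1 : ℝ) : ℂ) - eval z l * (starRingEnd ℂ) (eval w l) =
      ∑ j, eval z (p j) * (starRingEnd ℂ) (eval w (p j)) +
      (∑ j, eval z (P j) * (starRingEnd ℂ) (eval w (P j)) -
        eval z q * (starRingEnd ℂ) (eval w q)) * pol H z w := by
    intro z w
    obtain ⟨σ, hσ⟩ := exists_nrm p
    obtain ⟨A', hA'⟩ := exists_nrm P
    obtain ⟨B', hB'⟩ := exists_norm_sq q
    have hR' : C (B + 1) - F = σ + (A' - B') * H := by
      apply ev_ext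
      intro z
      rw [ev_add, ev_mul, ev_sub A' B', hσ, hA', hB', hR z, rr]
    have h1 := congrArg (fun G => pol G z w) hR'
    rw [pol_sub, pol_C, pol_sq hF, pol_add, pol_mul, pol_sub, pol_nrm hσ, pol_nrm hA',
      pol_sq hB'] at h1
    exact h1
  have hHc := pol_continuous H
  generalize pol H = h at hE hHc
  choose α hαc hα using fun j => necc_taylor x v (P j)
  obtain ⟨β, hβc, hβ⟩ := necc_taylor x v q
  have hPA : ∀ (t : ℝ) j, eval (A t) (P j) =
      (1 + t * κ₀) * eval x (P j) + (t : ℂ) ^ 2 * α j t := by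
    intro t j
    have h1 := hα j t
    have h2 : ∑ i, eval x (pderiv i (P j)) * v i = κ₀ * eval x (P j) := hdd j
    rw [h2] at h1
    rw [show A t = fun i => x i + (t : ℂ) * v i from rfl, h1]
    ring
  have hqA : ∀ (t : ℝ), eval (A t) q = (1 + t * κ₀) * eval x q + (t : ℂ) ^ 2 * β t := by
    intro t
    have h1 := hβ t
    have h2 : ∑ i, eval x (pderiv i q) * v i = κ₀ * eval x q := hdq
    rw [h2] at h1
    rw [show A t = fun i => x i + (t : ℂ) * v i from rfl, h1]
    ring
  set κ : ℝ → ℂ := fun t => ∑ j, α j t * (starRingEnd ℂ) (eval x (P j)) -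
    β t * (starRingEnd ℂ) (eval x q) with hκ
  set κ' : ℝ → ℂ := fun t => ∑ j, eval x (P j) * (starRingEnd ℂ) (α j t) -
    eval x q * (starRingEnd ℂ) (β t) with hκ'
  set μ : ℝ → ℂ := fun t => ∑ j, α j t * (starRingEnd ℂ) (α j t) -
    β t * (starRingEnd ℂ) (β t) with hμ
  have r1 : ∀ t : ℝ, ∑ j, eval (A t) (P j) * (starRingEnd ℂ) (eval x (P j)) -
      eval (A t) q * (starRingEnd ℂ) (eval x q) = (t : ℂ) ^ 2 * κ t := by
    intro t
    have e : ∑ j, eval (A t) (P j) * (starRingEnd ℂ) (eval x (P j)) =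
        (1 + t * κ₀) * ∑ j, eval x (P j) * (starRingEnd ℂ) (eval x (P j)) +
        (t : ℂ) ^ 2 * ∑ j, α j t * (starRingEnd ℂ) (eval x (P j)) := by
      rw [Finset.mul_sum, Finset.mul_sum, ← Finset.sum_add_distrib]
      refine Finset.sum_congr rfl fun j _ => ?_
      rw [hPA]
      ring
    rw [e, hPxx, hqA]
    simp only [hκ]
    ring
  have r2 : ∀ t : ℝ, ∑ j, eval x (P j) * (starRingEnd ℂ) (eval (A t) (P j)) -
      eval x q * (starRingEnd ℂ) (eval (A t) q) = (t : ℂ) ^ 2 * κ' t := by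
    intro t
    have e : ∑ j, eval x (P j) * (starRingEnd ℂ) (eval (A t) (P j)) =
        (1 + t * (starRingEnd ℂ) κ₀) * ∑ j, eval x (P j) * (starRingEnd ℂ) (eval x (P j)) +
        (t : ℂ) ^ 2 * ∑ j, eval x (P j) * (starRingEnd ℂ) (α j t) := by
      rw [Finset.mul_sum, Finset.mul_sum, ← Finset.sum_add_distrib]
      refine Finset.sum_congr rfl fun j _ => ?_
      rw [hPA]
      simp only [map_add, map_mul, map_pow, Complex.conj_ofReal, map_one]
      ring
    rw [e, hPxx, hqA]
    simp only [hκ', map_add, map_mul, map_pow, Complex.conj_ofReal, map_one]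
    ring
  have r3 : ∀ t : ℝ, ∑ j, eval (A t) (P j) * (starRingEnd ℂ) (eval (A t) (P j)) -
      eval (A t) q * (starRingEnd ℂ) (eval (A t) q) =
      (t : ℂ) ^ 2 * ((1 + t * (starRingEnd ℂ) κ₀) * κ t + (1 + t * κ₀) * κ' t +
        (t : ℂ) ^ 2 * μ t) := by
    intro t
    have e : ∑ j, eval (A t) (P j) * (starRingEnd ℂ) (eval (A t) (P j)) =
        (1 + t * κ₀) * (1 + t * (starRingEnd ℂ) κ₀) *
          ∑ j, eval x (P j) * (starRingEnd ℂ) (eval x (P j)) +
        (t : ℂ) ^ 2 * (1 + t * (starRingEnd ℂ) κ₀) *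
          ∑ j, α j t * (starRingEnd ℂ) (eval x (P j)) +
        (t : ℂ) ^ 2 * (1 + t * κ₀) * ∑ j, eval x (P j) * (starRingEnd ℂ) (α j t) +
        (t : ℂ) ^ 4 * ∑ j, α j t * (starRingEnd ℂ) (α j t) := by
      rw [Finset.mul_sum, Finset.mul_sum, Finset.mul_sum, Finset.mul_sum,
        ← Finset.sum_add_distrib, ← Finset.sum_add_distrib, ← Finset.sum_add_distrib]
      refine Finset.sum_congr rfl fun j _ => ?_
      rw [hPA]
      simp only [map_add, map_mul, map_pow, Complex.conj_ofReal, map_one]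
      ring
    rw [e, hPxx, hqA]
    simp only [hκ, hκ', hμ, map_add, map_mul, map_pow, Complex.conj_ofReal, map_one]
    ring
  set ω : ℝ → ℂ := fun t => ((1 + t * (starRingEnd ℂ) κ₀) * κ t + (1 + t * κ₀) * κ' t +
    (t : ℂ) ^ 2 * μ t) * h (A t) (A t) - κ t * h (A t) x - κ' t * h x (A t) with hω
  have hωc : Continuous ω := by
    have c1 : Continuous κ := by
      refine Continuous.sub (continuous_finsetSum _ fun j _ => ?_) ?_
      · exact ((hαc j).comp Complex.continuous_ofReal).mul continuous_const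
      · exact (hβc.comp Complex.continuous_ofReal).mul continuous_const
    have c2 : Continuous κ' := by
      refine Continuous.sub (continuous_finsetSum _ fun j _ => ?_) ?_
      · exact continuous_const.mul (Complex.continuous_conj.comp
          ((hαc j).comp Complex.continuous_ofReal))
      · exact continuous_const.mul (Complex.continuous_conj.comp
          (hβc.comp Complex.continuous_ofReal))
    have c3 : Continuous μ := by
      refine Continuous.sub (continuous_finsetSum _ fun j _ => ?_) ?_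
      · exact ((hαc j).comp Complex.continuous_ofReal).mul (Complex.continuous_conj.comp
          ((hαc j).comp Complex.continuous_ofReal))
      · exact (hβc.comp Complex.continuous_ofReal).mul (Complex.continuous_conj.comp
          (hβc.comp Complex.continuous_ofReal))
    have c4 : Continuous fun t => h (A t) (A t) :=
      hHc.comp (hAc.prodMk hAc)
    have c5 : Continuous fun t => h (A t) x :=
      hHc.comp (hAc.prodMk continuous_const)
    have c6 : Continuous fun t => h x (A t) :=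
      hHc.comp (continuous_const.prodMk hAc)
    have c7 : Continuous fun t : ℝ => (t : ℂ) := Complex.continuous_ofReal
    exact ((((((continuous_const.add (c7.mul continuous_const)).mul c1).add
      ((continuous_const.add (c7.mul continuous_const)).mul c2)).add ((c7.pow 2).mul c3)).mul
        c4).sub (c1.mul c5)).sub (c2.mul c6)
  have hω0 : ω 0 = 0 := by
    simp only [hω, hA0]
    push_cast
    ring
  have hmain : ∀ t : ℝ, -(((t * s) ^ 2 : ℝ) : ℂ) =
      ((∑ j, ‖eval (A t) (p j) - eval x (p j)‖ ^ 2 : ℝ) : ℂ) + (t : ℂ) ^ 2 * ω t := by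
    intro t
    have h1 := hE (A t) (A t)
    have h2 := hE (A t) x
    have h3 := hE x (A t)
    have h4 := hE x x
    rw [r3] at h1
    rw [r1] at h2
    rw [r2] at h3
    rw [hPxx, sub_self] at h4
    rw [hlA, Complex.conj_ofReal] at h1
    rw [hlx] at h2 h3 h4
    simp only [map_zero, mul_zero, zero_mul, sub_zero, add_zero] at h2 h3 h4
    have h5 : ((∑ j, ‖eval (A t) (p j) - eval x (p j)‖ ^ 2 : ℝ) : ℂ) =
        ∑ j, eval (A t) (p j) * (starRingEnd ℂ) (eval (A t) (p j)) -
        ∑ j, eval (A t) (p j) * (starRingEnd ℂ) (eval x (p j)) -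
        ∑ j, eval x (p j) * (starRingEnd ℂ) (eval (A t) (p j)) +
        ∑ j, eval x (p j) * (starRingEnd ℂ) (eval x (p j)) := by
      rw [← Finset.sum_sub_distrib, ← Finset.sum_sub_distrib, ← Finset.sum_add_distrib]
      push_cast
      refine Finset.sum_congr rfl fun j _ => ?_
      rw [← Complex.mul_conj', map_sub]
      ring
    rw [h5, hω]
    push_cast at h1 h2 h3 h4 ⊢
    linear_combination h1 - h2 - h3 + h4
  have hre : ∀ t : ℝ, t ≠ 0 → (ω t).re ≤ -s ^ 2 := by
    intro t ht
    have h1 := congrArg Complex.re (hmain t)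
    have h2 : ((t : ℂ) ^ 2 * ω t).re = t ^ 2 * (ω t).re := by
      rw [← Complex.ofReal_pow, Complex.re_ofReal_mul]
    rw [Complex.add_re, h2, ← Complex.ofReal_neg, Complex.ofReal_re, Complex.ofReal_re] at h1
    have h3 : 0 ≤ ∑ j, ‖eval (A t) (p j) - eval x (p j)‖ ^ 2 :=
      Finset.sum_nonneg fun _ _ => by positivity
    have h4 : 0 < t ^ 2 := by positivity
    have h5 : t ^ 2 * ((ω t).re + s ^ 2) ≤ 0 := by nlinarith
    have h6 : (ω t).re + s ^ 2 ≤ 0 := by
      by_contra hc
      push Not at hc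
      have := mul_pos h4 hc
      linarith
    linarith
  have hlim : Filter.Tendsto (fun t => (ω t).re) (𝓝[≠] 0) (𝓝 0) := by
    have h1 : Filter.Tendsto (fun t => (ω t).re) (𝓝 0) (𝓝 (ω 0).re) :=
      (Complex.continuous_re.comp hωc).tendsto 0
    rw [hω0, Complex.zero_re] at h1
    exact h1.mono_left nhdsWithin_le_nhds
  have hfin : (0 : ℝ) ≤ -s ^ 2 := by
    refine le_of_tendsto hlim ?_
    filter_upwards [self_mem_nhdsWithin] with t ht
    exact hre t ht
  nlinarith

end Pool.Agent.Work.MP_49847a_an
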