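import Pool.Agent.Work.MP_49847a_an.Rat.QP
import Pool.Agent.Work.MP_49847a_an.Rat.Glob

/-!
# Module PosW: positive polynomials times a large power of `c + ‖z‖²`
-/

namespace Pool.Agent.Work.MP_49847a_an

open MvPolynomial

theorem SJ_mono {n : ℕ} {J J' : Ideal (MvPolynomial (Fin n ⊕ Fin n) ℝ)} (hJ : J ≤ J')
    {F : MvPolynomial (Fin n ⊕ Fin n) ℝ} (h : SJ J F) : SJ J' F := by
  obtain ⟨m, p, G, hG, h⟩ := h
  exact ⟨m, p, G, hJ hG, h⟩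

theorem pos_W {n k d : ℕ} {P : Fin k → MvPolynomial (Fin n) ℂ} {q : MvPolynomial (Fin n) ℂ}
    (hL : Lead d P q) {ρ : MvPolynomial (Fin n ⊕ Fin n) ℝ} (hρ : ∀ z, ev ρ z = rr P q z)
    {c : ℝ} (hc : 0 < c) {f : MvPolynomial (Fin n ⊕ Fin n) ℝ}
    (hf : ∀ z ∈ XQ P q, 0 < ev f z) :
    ∃ K : ℕ, ∀ K', K ≤ K' → SJ (Ideal.span {ρ}) (f * WW n c ^ K') := by
  obtain ⟨M, B, e, h1, h2, h3⟩ := glob hL hρ hf
  obtain ⟨K, hK⟩ := quillen_polya hc h1 h2 h3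
  refine ⟨K, fun K' hK' => ?_⟩
  have h4 : SJ (Ideal.span {ρ}) ((f + C M * ρ ^ 2 * WW n 1 ^ B) * WW n c ^ K) :=
    SJ_mono bot_le hK
  have h5 : SJ (Ideal.span {ρ}) (f * WW n c ^ K) := by
    have e1 : f * WW n c ^ K = (f + C M * ρ ^ 2 * WW n 1 ^ B) * WW n c ^ K +
        (-(C M * ρ * WW n 1 ^ B * WW n c ^ K)) * ρ := by ring
    rw [e1]
    exact SJ_add h4 (SJ_ideal (Ideal.mul_mem_left _ _ (Ideal.mem_span_singleton_self ρ)))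
  have e2 : f * WW n c ^ K' = (f * WW n c ^ K) * WW n c ^ (K' - K) := by
    rw [mul_assoc, ← pow_add, Nat.add_sub_cancel' hK']
  rw [e2]
  exact SJ_mul h5 (SJ_pow (SJ_WW hc.le) _)

end Pool.Agent.Work.MP_49847a_an
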