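import Pool.Agent.Work.MP_49847a_an.Rat.Sph
import Pool.Agent.Work.MP_49847a_an.Rat.Avg
import Pool.Agent.Work.MP_49847a_an.Rat.Hom

/-!
# Module QP: Quillen's theorem for inhomogeneous polynomials

Proof.  `ev F = nrm a - nrm b`, degrees `≤ e`.  Let `a'_j, b'_j` be the homogenisations (`exists_hom`) on
`ℂ^(n+1) ∋ ζ = (τ, z)`, and `F'` the real polynomial with `ev F' = nrm a' - nrm b'` (`exists_nrm`).
`F'(t ζ) = |t|^{2e} F'(ζ)` and `F'(√c, z) = F(z)`.
(1) `F' > 0` on the unit sphere.  If `τ ≠ 0`, `ζ = (τ/√c) (√c, √c z/τ)`, so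
`F'(ζ) = |τ/√c|^{2e} F(√c z/τ) > 0`.  If `τ = 0`: `nn z = 1`; for small real `s > 0`,
`F'(s, z) = (s²/c)^e F((√c/s) z) ≥ (s²/c)^e δ (c/s²)^e = δ` by `Gr` (`nn((√c/s) z) = c/s² ≥ R₀`), and by
continuity (`ev_continuous`) `F'(0, z) ≥ δ > 0`.
(2) `sphere_pos` gives `g` with `F' = nrm g` on the sphere; let `E ≥` all `deg g_j`.  For `ζ` on the
sphere, `F'(rot s · ζ) = F'(ζ)`, so by `avg`, `F'(ζ) = ∑_j ∑_{i ≤ E} |g_j^{(i)}(ζ)|²`.
(3) For `z ∈ ℂⁿ` let `W = c + nn z`, `ζ = (√c, z)/√W` on the sphere: `F'(ζ) = W^{-e} F(z)` and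
`|g_j^{(i)}(ζ)|² = W^{-i} |g_j^{(i)}(√c, z)|²` (`eval_homog`).  Multiply by `W^(E+e)`:
`F(z) W^E = ∑_j ∑_{i ≤ E} W^(E+e-i) |g_{j,i}(z)|²`, `g_{j,i}(z) = g_j^{(i)}(√c, z)` (`exists_dehom`), and
this is `nrm s z`: `SJ` for the ideal `⊥` (`SJ_sum`, `SJ_mul`, `SJ_pow`, `SJ_WW`, `SJ_sq`).
-/

namespace Pool.Agent.Work.MP_49847a_an

open MvPolynomial

private theorem qp_nn_smul {m : ℕ} (t : ℂ) (ζ : Fin m → ℂ) :
    nn (fun i => t * ζ i) = ‖t‖ ^ 2 * nn ζ := by
  unfold nn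
  rw [Finset.mul_sum]
  exact Finset.sum_congr rfl fun i _ => by rw [norm_mul, mul_pow]

private theorem qp_nn_cons {n : ℕ} (t : ℂ) (z : Fin n → ℂ) :
    nn (Fin.cons t z : Fin (n + 1) → ℂ) = ‖t‖ ^ 2 + nn z := by
  unfold nn
  rw [Fin.sum_univ_succ]
  simp

private theorem qp_nrm_smul {m l e : ℕ} (g : Fin l → MvPolynomial (Fin m) ℂ)
    (hg : ∀ j (t : ℂ) (ζ : Fin m → ℂ), eval (fun i => t * ζ i) (g j) = t ^ e * eval ζ (g j))
    (t : ℂ) (ζ : Fin m → ℂ) : nrm g (fun i => t * ζ i) = (‖t‖ ^ 2) ^ e * nrm g ζ := by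
  unfold nrm
  rw [Finset.mul_sum]
  refine Finset.sum_congr rfl fun j _ => ?_
  rw [hg, norm_mul, norm_pow, mul_pow]
  ring

theorem quillen_polya {n e : ℕ} {c : ℝ} (hc : 0 < c) {F : MvPolynomial (Fin n ⊕ Fin n) ℝ}
    (hD : Dg e F) (hpos : ∀ z, 0 < ev F z) (hg : Gr e F) :
    ∃ K : ℕ, SJ ⊥ (F * WW n c ^ K) := by
  obtain ⟨m, a, m', b, ha, hb, hF⟩ := hD
  have hsc : 0 < Real.sqrt c := Real.sqrt_pos.2 hc
  have hsc2 : Real.sqrt c ^ 2 = c := Real.sq_sqrt hc.le
  set γ : ℂ := ((Real.sqrt c : ℝ) : ℂ) with hγ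
  have hγ0 : γ ≠ 0 := by
    rw [hγ]
    exact_mod_cast hsc.ne'
  have hγn : ‖γ‖ ^ 2 = c := by
    rw [hγ, Complex.norm_real, Real.norm_of_nonneg hsc.le, hsc2]
  choose a' ha1 ha2 using fun j => exists_hom hc (a j) (ha j)
  choose b' hb1 hb2 using fun j => exists_hom hc (b j) (hb j)
  obtain ⟨A', hA'⟩ := exists_nrm a'
  obtain ⟨B', hB'⟩ := exists_nrm b'
  set F' := A' - B' with hF'
  have hevF' : ∀ ζ, ev F' ζ = nrm a' ζ - nrm b' ζ := fun ζ => by rw [hF', ev_sub, hA', hB']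
  have hscale : ∀ (t : ℂ) (ζ : Fin (n + 1) → ℂ), ev F' (fun i => t * ζ i) =
      (‖t‖ ^ 2) ^ e * ev F' ζ := by
    intro t ζ
    rw [hevF', hevF', qp_nrm_smul a' ha1, qp_nrm_smul b' hb1]
    ring
  have hres : ∀ z : Fin n → ℂ, ev F' (Fin.cons γ z : Fin (n + 1) → ℂ) = ev F z := by
    intro z
    rw [hevF', hF]
    unfold nrm
    congr 1
    · exact Finset.sum_congr rfl fun j _ => by rw [ha2]
    · exact Finset.sum_congr rfl fun j _ => by rw [hb2]
  -- values at points with nonzero first coordinate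
  have hval : ∀ (τ : ℂ) (z : Fin n → ℂ), τ ≠ 0 → ev F' (Fin.cons τ z : Fin (n + 1) → ℂ) =
      (‖τ / γ‖ ^ 2) ^ e * ev F (fun i => γ / τ * z i) := by
    intro τ z hτ
    have h1 : (Fin.cons τ z : Fin (n + 1) → ℂ) =
        fun i => (τ / γ) * (Fin.cons γ (fun i => γ / τ * z i) : Fin (n + 1) → ℂ) i := by
      funext i
      refine Fin.cases ?_ (fun j => ?_) i
      · simp only [Fin.cons_zero]
        field_simp
      · simp only [Fin.cons_succ]
        field_simp
    rw [h1, hscale, hres]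
  -- positivity on the sphere
  have hsph : ∀ ζ : Fin (n + 1) → ℂ, nn ζ = 1 → 0 < ev F' ζ := by
    intro ζ hζ
    rw [← Fin.cons_self_tail ζ] at hζ ⊢
    set τ := ζ 0
    set z := Fin.tail ζ
    by_cases hτ : τ = 0
    · rw [hτ] at hζ ⊢
      rw [qp_nn_cons, norm_zero] at hζ
      have hz : nn z = 1 := by linarith
      obtain ⟨δ, hδ, R₀, hR₀⟩ := hg
      have hcont : Filter.Tendsto (fun s : ℝ => ev F' (Fin.cons (s : ℂ) z : Fin (n + 1) → ℂ))
          (nhdsWithin 0 (Set.Ioi 0)) (nhds (ev F' (Fin.cons (0 : ℂ) z : Fin (n + 1) → ℂ))) := by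
        have h1 : Continuous (fun s : ℝ => ev F' (Fin.cons (s : ℂ) z : Fin (n + 1) → ℂ)) := by
          refine (ev_continuous F').comp (continuous_pi fun i => ?_)
          refine Fin.cases ?_ (fun j => ?_) i
          · simp only [Fin.cons_zero]
            exact Complex.continuous_ofReal
          · simp only [Fin.cons_succ]
            exact continuous_const
        have h2 := (h1.tendsto 0).mono_left (nhdsWithin_le_nhds (s := Set.Ioi (0:ℝ)))
        rwa [Complex.ofReal_zero] at h2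
      have hge : δ ≤ ev F' (Fin.cons (0 : ℂ) z : Fin (n + 1) → ℂ) := by
        refine ge_of_tendsto hcont ?_
        have hr : 0 < Real.sqrt (c / (|R₀| + 1)) := Real.sqrt_pos.2 (by positivity)
        filter_upwards [Ioo_mem_nhdsGT hr] with s hs
        have hs0 : 0 < s := hs.1
        have hs2 : s ^ 2 ≤ c / (|R₀| + 1) := by
          have := pow_le_pow_left₀ hs0.le hs.2.le 2
          rwa [Real.sq_sqrt (by positivity)] at this
        have hsne : (s : ℂ) ≠ 0 := by exact_mod_cast hs0.ne'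
        have hsn : ‖(s : ℂ)‖ ^ 2 = s ^ 2 := by
          rw [Complex.norm_real, Real.norm_of_nonneg hs0.le]
        have hn : nn (fun i => γ / (s : ℂ) * z i) = c / s ^ 2 := by
          rw [qp_nn_smul, hz, mul_one, norm_div, div_pow, hγn, hsn]
        have hbig : R₀ ≤ c / s ^ 2 := by
          rw [le_div_iff₀ (by positivity)]
          have h3 := le_abs_self R₀
          have h4 : s ^ 2 * (|R₀| + 1) ≤ c := by
            rwa [le_div_iff₀ (by positivity)] at hs2
          nlinarith [sq_nonneg s, abs_nonneg R₀]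
        rw [hval _ z hsne, norm_div, div_pow, hγn, hsn]
        have h5 := hR₀ (fun i => γ / (s : ℂ) * z i) (by rw [hn]; exact hbig)
        rw [hn] at h5
        have h6 : (s ^ 2 / c) ^ e * (δ * (c / s ^ 2) ^ e) = δ := by
          have h7 : (s ^ 2 / c) ^ e * (c / s ^ 2) ^ e = 1 := by
            rw [← mul_pow]
            have : s ^ 2 / c * (c / s ^ 2) = 1 := by
              field_simp
            rw [this, one_pow]
          calc (s ^ 2 / c) ^ e * (δ * (c / s ^ 2) ^ e) =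
                δ * ((s ^ 2 / c) ^ e * (c / s ^ 2) ^ e) := by ring
            _ = δ := by rw [h7, mul_one]
        calc δ = (s ^ 2 / c) ^ e * (δ * (c / s ^ 2) ^ e) := h6.symm
          _ ≤ _ := mul_le_mul_of_nonneg_left h5 (by positivity)
      linarith
    · rw [hval τ z hτ]
      have h1 : 0 < ‖τ / γ‖ := norm_pos_iff.2 (div_ne_zero hτ hγ0)
      exact mul_pos (by positivity) (hpos _)
  obtain ⟨l, g, hgs⟩ := sphere_pos hsph
  set E : ℕ := Finset.univ.sup (fun j => (g j).totalDegree) with hE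
  have hEj : ∀ j, (g j).totalDegree ≤ E := fun j =>
    Finset.le_sup (f := fun j => (g j).totalDegree) (Finset.mem_univ j)
  have hhom : ∀ ζ : Fin (n + 1) → ℂ, nn ζ = 1 → ev F' ζ =
      ∑ j, ∑ i ∈ Finset.range (E + 1), ‖eval ζ (homogeneousComponent i (g j))‖ ^ 2 := by
    intro ζ hζ
    have h1 : ∀ s ∈ Finset.range (E + 1), nrm g (fun i => rot E s * ζ i) = ev F' ζ := by
      intro s _
      rw [← hgs _ (by rw [qp_nn_smul, norm_rot, hζ]; norm_num), hscale, norm_rot]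
      simp
    have h2 := avg g hEj ζ
    rw [Finset.sum_congr rfl h1, Finset.sum_const, Finset.card_range, nsmul_eq_mul] at h2
    have h3 : ((E : ℝ) + 1) ≠ 0 := by positivity
    push_cast at h2
    exact mul_left_cancel₀ h3 h2
  choose G hG using fun (j : Fin l) (i : ℕ) => exists_dehom γ (homogeneousComponent i (g j))
  choose Nr hNr using fun (j : Fin l) (i : ℕ) => exists_norm_sq (G j i)
  refine ⟨E, SJ_congr (F := ∑ j, ∑ i ∈ Finset.range (E + 1), WW n c ^ (E + e - i) * Nr j i) ?_ ?_⟩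
  · refine SJ_sum _ _ fun j _ => SJ_sum _ _ fun i _ => SJ_mul (SJ_pow (SJ_WW hc.le) _) ?_
    exact SJ_sq (p := G j i) (hNr j i)
  · intro z
    have hW : 0 < c + nn z := by
      have := nn_nonneg z
      linarith
    set W := c + nn z with hWdef
    have hsW : 0 < Real.sqrt W := Real.sqrt_pos.2 hW
    set w : ℂ := ((Real.sqrt W : ℝ) : ℂ)⁻¹ with hw
    have hwn : ‖w‖ ^ 2 = W⁻¹ := by
      rw [hw, norm_inv, Complex.norm_real, Real.norm_of_nonneg hsW.le, inv_pow,
        Real.sq_sqrt hW.le]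
    have hζ : nn (fun i => w * (Fin.cons γ z : Fin (n + 1) → ℂ) i) = 1 := by
      rw [qp_nn_smul, qp_nn_cons, hγn, hwn, ← hWdef, inv_mul_cancel₀ hW.ne']
    have h1 := hhom _ hζ
    rw [hscale, hres, hwn] at h1
    have h2 : ∀ j i, ‖eval (fun i => w * (Fin.cons γ z : Fin (n + 1) → ℂ) i)
        (homogeneousComponent i (g j))‖ ^ 2 = W⁻¹ ^ i * ‖eval z (G j i)‖ ^ 2 := by
      intro j i
      rw [eval_homog, norm_mul, norm_pow, mul_pow, ← hG j i z, ← hwn]
      ring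
    simp only [h2] at h1
    rw [ev_mul, ev_pow, ev_WW, ev_sum]
    simp only [ev_sum, ev_mul, ev_pow, ev_WW, hNr]
    rw [← hWdef]
    have h3 : ev F z * W ^ E = W ^ (E + e) * (W⁻¹ ^ e * ev F z) := by
      rw [pow_add, inv_pow]
      field_simp
    rw [h3, h1, Finset.mul_sum]
    refine Finset.sum_congr rfl fun j _ => ?_
    rw [Finset.mul_sum]
    refine Finset.sum_congr rfl fun i hi => ?_
    have hi' : i ≤ E + e := by
      rw [Finset.mem_range] at hi
      omega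
    have h4 : W ^ (E + e) = W ^ (E + e - i) * W ^ i := by
      rw [← pow_add]
      congr 1
      omega
    rw [h4, inv_pow]
    field_simp

end Pool.Agent.Work.MP_49847a_an
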