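import Pool.Agent.Work.MP_49847a_an.Main

/-!
# Hypersurfaces `‖P‖ = |q|`: definitions

`P = (P_1, …, P_k)` and `q` are holomorphic polynomials on `ℂⁿ`.

* `rr P q z = ‖P(z)‖² - |q(z)|²`, `XQ P q = {z : ‖P(z)‖ = |q(z)|}`;
* `nn z = ∑ |z_i|²`;
* `Lead d P q`: all degrees are at most `d` and `‖P(z)‖² - |q(z)|² ≥ δ ‖z‖^{2d}` near infinity
  (some `δ > 0`), that is, the leading part of bidegree `(d,d)` is positive;
* `hull X`: the polynomial hull;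
* `InjQ P q`: `P/q` is injective on `XQ P q` (written without division);
* `LeviQ P q`: the Levi form of `‖P‖² - |q|²` is positive on the complex tangent vectors at the points
  of `XQ P q`;
* `QuillenQ P q`: every real polynomial which is positive on `XQ P q` is a sum of squared moduli of
  holomorphic polynomials modulo `‖P‖² - |q|²`;
* `SumsOn X`: every real polynomial which is positive on `X` agrees on `X` with a sum of squared
  moduli of holomorphic polynomials;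
* `GeneratesQ P q`: every real polynomial vanishing on `XQ P q` is divisible by `‖P‖² - |q|²`.
-/

namespace Pool.Agent.Work.MP_49847a_an

open MvPolynomial

/-- `∑ |z_i|²` -/
noncomputable def nn {n : ℕ} (z : Fin n → ℂ) : ℝ := ∑ i, ‖z i‖ ^ 2

/-- the real function `‖P(z)‖² - |q(z)|²` -/
noncomputable def rr {n k : ℕ} (P : Fin k → MvPolynomial (Fin n) ℂ) (q : MvPolynomial (Fin n) ℂ)
    (z : Fin n → ℂ) : ℝ := nrm P z - ‖eval z q‖ ^ 2

/-- the set `‖P(z)‖ = |q(z)|` -/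
def XQ {n k : ℕ} (P : Fin k → MvPolynomial (Fin n) ℂ) (q : MvPolynomial (Fin n) ℂ) :
    Set (Fin n → ℂ) := {z | rr P q z = 0}

/-- degrees at most `d`, and `‖P‖² - |q|² ≥ δ ‖z‖^{2d}` near infinity -/
def Lead {n k : ℕ} (d : ℕ) (P : Fin k → MvPolynomial (Fin n) ℂ) (q : MvPolynomial (Fin n) ℂ) :
    Prop :=
  (∀ j, (P j).totalDegree ≤ d) ∧ q.totalDegree ≤ d ∧
    ∃ δ : ℝ, 0 < δ ∧ ∃ R₀ : ℝ, ∀ z, R₀ ≤ nn z → δ * nn z ^ d ≤ rr P q z

/-- the polynomial hull of a set -/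
def hull {n : ℕ} (X : Set (Fin n → ℂ)) : Set (Fin n → ℂ) :=
  {a | ∀ (p : MvPolynomial (Fin n) ℂ) (c : ℝ), (∀ z ∈ X, ‖eval z p‖ ≤ c) → ‖eval a p‖ ≤ c}

/-- `P/q` is injective on `XQ P q` -/
def InjQ {n k : ℕ} (P : Fin k → MvPolynomial (Fin n) ℂ) (q : MvPolynomial (Fin n) ℂ) : Prop :=
  ∀ a ∈ XQ P q, ∀ b ∈ XQ P q,
    (∀ j, eval a (P j) * eval b q = eval b (P j) * eval a q) → a = b

/-- the derivative `dq(a) v` -/
noncomputable def dq {n : ℕ} (q : MvPolynomial (Fin n) ℂ) (a v : Fin n → ℂ) : ℂ :=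
  ∑ i, eval a (pderiv i q) * v i

/-- the Levi form of `‖P‖² - |q|²` is positive on complex tangent vectors: with
`r = ‖P‖² - |q|²`, `∂r(a) v = ∑_j (dP(a)v)_j conj(P_j(a)) - (dq(a)v) conj(q(a))` and the Levi form is
`∑_j |(dP(a)v)_j|² - |dq(a)v|²` -/
def LeviQ {n k : ℕ} (P : Fin k → MvPolynomial (Fin n) ℂ) (q : MvPolynomial (Fin n) ℂ) : Prop :=
  ∀ a ∈ XQ P q, ∀ v : Fin n → ℂ, v ≠ 0 →
    ∑ j, dd P a v j * (starRingEnd ℂ) (eval a (P j)) - dq q a v * (starRingEnd ℂ) (eval a q) = 0 →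
    0 < ∑ j, ‖dd P a v j‖ ^ 2 - ‖dq q a v‖ ^ 2

/-- every real polynomial positive on `XQ P q` is a Hermitian sum of squares modulo
`‖P‖² - |q|²` -/
def QuillenQ {n k : ℕ} (P : Fin k → MvPolynomial (Fin n) ℂ) (q : MvPolynomial (Fin n) ℂ) : Prop :=
  ∀ R : MvPolynomial (Fin n ⊕ Fin n) ℝ, (∀ z ∈ XQ P q, 0 < ev R z) →
    ∃ (m : ℕ) (p : Fin m → MvPolynomial (Fin n) ℂ) (H : MvPolynomial (Fin n ⊕ Fin n) ℝ),
      ∀ z, ev R z = nrm p z + rr P q z * ev H z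

/-- every real polynomial positive on `X` agrees on `X` with a Hermitian sum of squares -/
def SumsOn {n : ℕ} (X : Set (Fin n → ℂ)) : Prop :=
  ∀ R : MvPolynomial (Fin n ⊕ Fin n) ℝ, (∀ z ∈ X, 0 < ev R z) →
    ∃ (m : ℕ) (p : Fin m → MvPolynomial (Fin n) ℂ), ∀ z ∈ X, ev R z = nrm p z

/-- every real polynomial which vanishes on `XQ P q` is a multiple of `‖P‖² - |q|²` -/
def GeneratesQ {n k : ℕ} (P : Fin k → MvPolynomial (Fin n) ℂ) (q : MvPolynomial (Fin n) ℂ) :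
    Prop :=
  ∀ F : MvPolynomial (Fin n ⊕ Fin n) ℝ, (∀ z ∈ XQ P q, ev F z = 0) →
    ∃ H : MvPolynomial (Fin n ⊕ Fin n) ℝ, ∀ z, ev F z = rr P q z * ev H z

/-! Auxiliary notions for the proof. -/

/-- the real polynomial `F` is a Hermitian sum of squares modulo the ideal `J` -/
def SJ {n : ℕ} (J : Ideal (MvPolynomial (Fin n ⊕ Fin n) ℝ)) (F : MvPolynomial (Fin n ⊕ Fin n) ℝ) :
    Prop :=
  ∃ (m : ℕ) (p : Fin m → MvPolynomial (Fin n) ℂ), ∃ G ∈ J, ∀ z, ev F z = nrm p z + ev G z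

/-- the real polynomial `c + ‖z‖²` -/
noncomputable def WW (n : ℕ) (c : ℝ) : MvPolynomial (Fin n ⊕ Fin n) ℝ :=
  C c + ∑ i : Fin n, (X (Sum.inl i) ^ 2 + X (Sum.inr i) ^ 2)

/-- `F` is a difference of Hermitian sums of squares of polynomials of degree at most `e` -/
def Dg {n : ℕ} (e : ℕ) (F : MvPolynomial (Fin n ⊕ Fin n) ℝ) : Prop :=
  ∃ (m : ℕ) (a : Fin m → MvPolynomial (Fin n) ℂ) (m' : ℕ) (b : Fin m' → MvPolynomial (Fin n) ℂ),
    (∀ j, (a j).totalDegree ≤ e) ∧ (∀ j, (b j).totalDegree ≤ e) ∧ ∀ z, ev F z = nrm a z - nrm b z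

/-- `F ≥ δ ‖z‖^{2e}` near infinity for some `δ > 0` -/
def Gr {n : ℕ} (e : ℕ) (F : MvPolynomial (Fin n ⊕ Fin n) ℝ) : Prop :=
  ∃ δ : ℝ, 0 < δ ∧ ∃ R₀ : ℝ, ∀ z, R₀ ≤ nn z → δ * nn z ^ e ≤ ev F z

/-- a real polynomial on `ℂⁿ` as a polynomial on `ℂ × ℂⁿ` -/
noncomputable def up {n : ℕ} (F : MvPolynomial (Fin n ⊕ Fin n) ℝ) :
    MvPolynomial (Fin (n + 1) ⊕ Fin (n + 1)) ℝ := rename (Sum.map Fin.succ Fin.succ) F

/-- a holomorphic polynomial on `ℂⁿ` as a polynomial on `ℂ × ℂⁿ` -/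
noncomputable def uph {n : ℕ} (p : MvPolynomial (Fin n) ℂ) : MvPolynomial (Fin (n + 1)) ℂ :=
  rename Fin.succ p

/-- the ideal of the real polynomials on `ℂ × ℂⁿ ∋ (y, z)` generated by `ρ(z)` and the real and
imaginary parts of `q(z) y - 1` -/
noncomputable def JJ {n : ℕ} (ρ : MvPolynomial (Fin n ⊕ Fin n) ℝ) (q : MvPolynomial (Fin n) ℂ) :
    Ideal (MvPolynomial (Fin (n + 1) ⊕ Fin (n + 1)) ℝ) :=
  Ideal.span ({up ρ} ∪ {G | ∃ U V : MvPolynomial (Fin (n + 1) ⊕ Fin (n + 1)) ℝ,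
    (∀ ζ, eval ζ (uph q * X 0 - 1) = ((ev U ζ : ℝ) : ℂ) + ((ev V ζ : ℝ) : ℂ) * Complex.I) ∧
      (G = U ∨ G = V)})

/-- the holomorphic polynomials whose real and imaginary parts are annihilated by `L`, together with
all their multiples -/
def NulL {n : ℕ} (L : MvPolynomial (Fin n ⊕ Fin n) ℝ →ₗ[ℝ] ℝ) (a : MvPolynomial (Fin n) ℂ) : Prop :=
  ∀ U V : MvPolynomial (Fin n ⊕ Fin n) ℝ,
    (∀ z, eval z a = ((ev U z : ℝ) : ℂ) + ((ev V z : ℝ) : ℂ) * Complex.I) →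
      ∀ g, L (U * g) = 0 ∧ L (V * g) = 0

end Pool.Agent.Work.MP_49847a_an
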