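import Pool.Agent.Work.MP_49847a_an.Rat.Suf
import Pool.Agent.Work.MP_49847a_an.Rat.NecA
import Pool.Agent.Work.MP_49847a_an.Rat.NecB
import Pool.Agent.Work.MP_49847a_an.Rat.NecC

/-!
# Assembly
-/

namespace Pool.Agent.Work.MP_49847a_an

open MvPolynomial

variable {n k d : ℕ} {P : Fin k → MvPolynomial (Fin n) ℂ} {q : MvPolynomial (Fin n) ℂ}

theorem quillenQ_iff (hL : Lead d P q) (h0 : ∃ z, rr P q z < 0) :
    QuillenQ P q ↔ (∀ a ∈ hull (XQ P q), eval a q ≠ 0) ∧ InjQ P q ∧ LeviQ P q := by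
  constructor
  · intro h
    have h1 := nec_a hL h h0
    have h2 : ∀ a ∈ XQ P q, eval a q ≠ 0 := fun a ha => h1 a (subset_hull _ ha)
    exact ⟨h1, nec_b hL h h2, nec_c hL h h2⟩
  · rintro ⟨h1, h2, h3⟩ R hR
    obtain ⟨ρ, hρ⟩ := exists_rho P q
    obtain ⟨m, p, G, hG, h⟩ := suff hL hρ h1 h2 h3 hR
    obtain ⟨H, hH⟩ := Ideal.mem_span_singleton'.1 hG
    refine ⟨m, p, H, fun z => ?_⟩
    rw [h z, ← hH, ev_mul, hρ]
    ring

theorem mainQ (hL : Lead d P q) (h0 : ∃ z, rr P q z < 0) :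
    (QuillenQ P q ↔ (∀ a ∈ hull (XQ P q), eval a q ≠ 0) ∧ InjQ P q ∧ LeviQ P q) ∧
    (GeneratesQ P q → (SumsOn (XQ P q) ↔
      (∀ a ∈ hull (XQ P q), eval a q ≠ 0) ∧ InjQ P q ∧ LeviQ P q)) := by
  refine ⟨quillenQ_iff hL h0, fun hG => ?_⟩
  rw [← quillenQ_iff hL h0]
  constructor
  · intro hS R hR
    obtain ⟨m, p, hp⟩ := hS R hR
    obtain ⟨F, hF⟩ := exists_nrm p
    obtain ⟨H, hH⟩ := hG (R - F) (fun z hz => by rw [ev_sub, hF, hp z hz, sub_self])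
    refine ⟨m, p, H, fun z => ?_⟩
    have := hH z
    rw [ev_sub, hF] at this
    linarith
  · intro hQ R hR
    obtain ⟨m, p, H, h⟩ := hQ R hR
    refine ⟨m, p, fun z hz => ?_⟩
    rw [h z, show rr P q z = 0 from hz]
    ring

end Pool.Agent.Work.MP_49847a_an
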