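import Pool.Agent.Work.MP_49847a_an.Rat.SJL

/-!
# Module Rem: removal of the powers of `|q|²`

`M = {F | SJ J (F * w)}`: a convex cone (`SJ_add`), stable under multiplication by elements of `SJ J`
(`SJ_mul`), and archimedean (`harch`).

Proof.  Let `Mc = {F | ∀ δ > 0, SJ J ((F + C δ) * w)}` (`M ⊂ Mc` by `hw`).  Claim: `F * Q ∈ Mc` implies
`F ∈ Mc`; then the theorem follows by induction on `l`.
Let `e = 1 - q G` (`E1` with values `|e|²`), `c = 1/2`.  For `m ≥ 1` and a holomorphic `a`: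
(1) `(c^m |a|² - |a e^m|²) ∈ M`: `|a|² (c^m - |e|^{2m}) = |a|² (c^{m-1} + c^{m-2}|e|² + … + |e|^{2(m-1)})
(c - |e|²)` and `he`.
(2) `1 - e^m = q g` with `g = G (1 + e + … + e^{m-1})`.
Let `δ > 0`, `ev F = nrm a - nrm b` (`dec`), `E = e^m`.  `|1 - E|² = 1 - 2 Re E + |E|²`, so
`F = F |1-E|² + 2 F Re E - F |E|²`.
For `η > 0`: `2 |a_j|² Re E ≥ - η |a_j|² - (1/η) |a_j E|²` and `- 2 |b_j|² Re E ≥ - η |b_j|² - (1/η) |b_j E|²`
modulo Hermitian squares (`|√η a + a E/√η|²`, `|√η b - b E/√η|²`), and `- F |E|² ≥ - ∑ |a_j E|²`.  Hence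
`F + δ - F |1-E|² - (element of SJ)` is `≥ δ - η ∑(|a_j|² + |b_j|²) - (1/η + 1) ∑ (|a_j E|² + |b_j E|²)`
in `M`; by `harch` `N - ∑(|a_j|² + |b_j|²) ∈ M` for some `N ≥ 1`; choose `η = δ/(4N)`, then `m` with
`(1/η + 1) c^m N ≤ δ/4`: by (1) this is `≥ δ/2` modulo `M`.
Finally `F |1-E|² + δ/2 ∈ M`: it is `|g|² (F |q|² + δ') + (δ/2 - δ' |g|²)`, with `δ' > 0` so small that
`δ/2 - δ' |g|² ∈ M` (`harch`), and `F |q|² + δ' ∈ M` by assumption.
-/

namespace Pool.Agent.Work.MP_49847a_an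

open MvPolynomial

private def remS {n : ℕ} (J : Ideal (MvPolynomial (Fin n ⊕ Fin n) ℝ)) (φ : (Fin n → ℂ) → ℝ) :
    Prop := ∃ F : MvPolynomial (Fin n ⊕ Fin n) ℝ, (∀ z, ev F z = φ z) ∧ SJ J F

private def remM {n : ℕ} (J : Ideal (MvPolynomial (Fin n ⊕ Fin n) ℝ))
    (w : MvPolynomial (Fin n ⊕ Fin n) ℝ) (φ : (Fin n → ℂ) → ℝ) : Prop :=
  ∃ F : MvPolynomial (Fin n ⊕ Fin n) ℝ, (∀ z, ev F z = φ z) ∧ SJ J (F * w)

section

variable {n : ℕ} {J : Ideal (MvPolynomial (Fin n ⊕ Fin n) ℝ)}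
  {w : MvPolynomial (Fin n ⊕ Fin n) ℝ}

private theorem remS_sq (p : MvPolynomial (Fin n) ℂ) : remS J (fun z => ‖eval z p‖ ^ 2) := by
  obtain ⟨F, hF⟩ := exists_norm_sq p
  exact ⟨F, hF, SJ_sq hF⟩

private theorem remS_nrm {m : ℕ} (p : Fin m → MvPolynomial (Fin n) ℂ) : remS J (nrm p) := by
  obtain ⟨F, hF⟩ := exists_nrm p
  exact ⟨F, hF, SJ_nrm hF⟩

private theorem remS_C {c : ℝ} (hc : 0 ≤ c) : remS J (fun _ => c) :=
  ⟨C c, fun z => ev_C c z, SJ_C hc⟩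

private theorem remS_add {φ ψ : (Fin n → ℂ) → ℝ} (h : remS J φ) (h' : remS J ψ) :
    remS J (fun z => φ z + ψ z) := by
  obtain ⟨F, hF, h⟩ := h
  obtain ⟨G, hG, h'⟩ := h'
  exact ⟨F + G, fun z => by rw [ev_add, hF, hG], SJ_add h h'⟩

private theorem remS_mul {φ ψ : (Fin n → ℂ) → ℝ} (h : remS J φ) (h' : remS J ψ) :
    remS J (fun z => φ z * ψ z) := by
  obtain ⟨F, hF, h⟩ := h
  obtain ⟨G, hG, h'⟩ := h'
  exact ⟨F * G, fun z => by rw [ev_mul, hF, hG], SJ_mul h h'⟩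

private theorem remM_congr {φ ψ : (Fin n → ℂ) → ℝ} (h : remM J w φ) (he : ∀ z, ψ z = φ z) :
    remM J w ψ := by
  obtain ⟨F, hF, h⟩ := h
  exact ⟨F, fun z => by rw [hF, he], h⟩

private theorem remM_add {φ ψ : (Fin n → ℂ) → ℝ} (h : remM J w φ) (h' : remM J w ψ) :
    remM J w (fun z => φ z + ψ z) := by
  obtain ⟨F, hF, h⟩ := h
  obtain ⟨G, hG, h'⟩ := h'
  exact ⟨F + G, fun z => by rw [ev_add, hF, hG], by rw [add_mul]; exact SJ_add h h'⟩

private theorem remM_mul {φ ψ : (Fin n → ℂ) → ℝ} (h : remS J φ) (h' : remM J w ψ) :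
    remM J w (fun z => φ z * ψ z) := by
  obtain ⟨F, hF, h⟩ := h
  obtain ⟨G, hG, h'⟩ := h'
  exact ⟨F * G, fun z => by rw [ev_mul, hF, hG], by rw [mul_assoc]; exact SJ_mul h h'⟩

private theorem remM_of (hw : SJ J w) {φ : (Fin n → ℂ) → ℝ} (h : remS J φ) : remM J w φ := by
  obtain ⟨F, hF, h⟩ := h
  exact ⟨F, hF, SJ_mul h hw⟩

private theorem remM_pow {S : (Fin n → ℂ) → ℝ} (hS : remS J S) {c : ℝ} (hc : 0 ≤ c)
    {e : MvPolynomial (Fin n) ℂ} (he : remM J w (fun z => c - ‖eval z e‖ ^ 2)) (hw : SJ J w)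
    (m : ℕ) : remM J w (fun z => c ^ m * S z - ‖eval z (e ^ m)‖ ^ 2 * S z) := by
  induction m with
  | zero =>
    refine remM_congr (remM_of hw (remS_C le_rfl)) fun z => ?_
    simp
  | succ m ih =>
    refine remM_congr (remM_add (remM_mul (remS_C hc) ih)
      (remM_mul (remS_mul hS (remS_sq (e ^ m))) he)) fun z => ?_
    rw [pow_succ e, map_mul, norm_mul]
    ring

private theorem rem_step (hw : SJ J w)
    (harch : ∀ F : MvPolynomial (Fin n ⊕ Fin n) ℝ, ∃ N : ℝ, SJ J ((C N - F) * w))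
    {q G : MvPolynomial (Fin n) ℂ}
    (he : remM J w (fun z => 1 / 2 - ‖eval z (1 - q * G)‖ ^ 2)) {F : MvPolynomial (Fin n ⊕ Fin n) ℝ}
    (h : ∀ δ : ℝ, 0 < δ → remM J w (fun z => ev F z * ‖eval z q‖ ^ 2 + δ)) (δ : ℝ) (hδ : 0 < δ) :
    remM J w (fun z => ev F z + δ) := by
  obtain ⟨m1, a, m2, b, hab⟩ := dec F
  have hN0 : ∀ φ : (Fin n → ℂ) → ℝ, (∃ P : MvPolynomial (Fin n ⊕ Fin n) ℝ, ∀ z, ev P z = φ z) →
      ∃ N : ℝ, 1 ≤ N ∧ remM J w (fun z => N - φ z) := by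
    rintro φ ⟨P, hP⟩
    obtain ⟨N, hN⟩ := harch P
    refine ⟨N + (|N| + 1), by linarith [neg_abs_le N], ?_⟩
    refine remM_congr (remM_add ⟨C N - P, fun z => rfl, hN⟩
      (remM_of hw (remS_C (c := |N| + 1) (by positivity)))) fun z => ?_
    rw [ev_sub, ev_C, hP]
    ring
  have hSab : remS J (fun z => nrm a z + nrm b z) := remS_add (remS_nrm a) (remS_nrm b)
  obtain ⟨N, hN1, hN⟩ := hN0 (fun z => nrm a z + nrm b z) (by
    obtain ⟨P, hP, _⟩ := hSab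
    exact ⟨P, hP⟩)
  have hN2 : 0 < N := by linarith
  set η : ℝ := δ / (4 * N) with hη
  have hη0 : 0 < η := by positivity
  obtain ⟨m, hm⟩ : ∃ m : ℕ, (1 / η + 1) * (1 / 2 : ℝ) ^ m * N ≤ δ / 4 := by
    have h1 : 0 < δ / 4 / ((1 / η + 1) * N) := by positivity
    obtain ⟨m, hm⟩ := exists_pow_lt_of_lt_one h1 (show (1 / 2 : ℝ) < 1 by norm_num)
    refine ⟨m, ?_⟩
    have h2 : 0 < (1 / η + 1) * N := by positivity
    rw [lt_div_iff₀ h2] at hm
    linarith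
  set e : MvPolynomial (Fin n) ℂ := 1 - q * G with hedef
  set E : MvPolynomial (Fin n) ℂ := e ^ m with hE
  set g : MvPolynomial (Fin n) ℂ := G * ∑ i ∈ Finset.range m, e ^ i with hg
  have hqg : 1 - E = q * g := by
    have h1 := geom_sum_mul e m
    rw [hE, hg]
    have h2 : e - 1 = -(q * G) := by rw [hedef]; ring
    rw [h2] at h1
    linear_combination h1
  obtain ⟨N', hN1', hN'⟩ := hN0 (fun z => ‖eval z g‖ ^ 2) (exists_norm_sq g)
  have hN2' : 0 < N' := by linarith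
  have p1 := remM_pow hSab (c := 1 / 2) (by norm_num) he hw m
  have hroot : Real.sqrt η ≠ 0 := (Real.sqrt_pos.mpr hη0).ne'
  have hss : Real.sqrt η ^ 2 = η := Real.sq_sqrt hη0.le
  have hcst : 0 ≤ δ / 2 - η * N - (1 / η + 1) * (1 / 2 : ℝ) ^ m * N := by
    have : η * N = δ / 4 := by
      rw [hη]
      field_simp
    linarith
  have q1 : remM J w (fun z => ‖eval z g‖ ^ 2 * (ev F z * ‖eval z q‖ ^ 2 + δ / (2 * N'))) :=
    remM_mul (remS_sq g) (h (δ / (2 * N')) (by positivity))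
  have q2 : remM J w (fun z => δ / (2 * N') * (N' - ‖eval z g‖ ^ 2)) :=
    remM_mul (remS_C (by positivity)) hN'
  have q3 := remM_of hw (remS_mul (remS_nrm (J := J) a)
    (remS_sq (C ((Real.sqrt η : ℝ) : ℂ) + C (((1 / Real.sqrt η : ℝ)) : ℂ) * E)))
  have q4 := remM_of hw (remS_mul (remS_nrm (J := J) b)
    (remS_sq (C ((Real.sqrt η : ℝ) : ℂ) - C (((1 / Real.sqrt η : ℝ)) : ℂ) * E)))
  have q5 := remM_of hw (remS_mul (remS_C (J := J) (n := n) (c := 2) (by norm_num))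
    (remS_mul (remS_nrm (J := J) b) (remS_sq E)))
  have q6 := remM_mul (remS_C (J := J) (n := n) hη0.le) hN
  have q7 := remM_mul (remS_C (J := J) (n := n) (c := 1 / η + 1) (by positivity)) p1
  have q8 := remM_mul (remS_C (J := J) (n := n) (c := (1 / η + 1) * (1 / 2 : ℝ) ^ m)
    (by positivity)) hN
  have q9 := remM_of hw (remS_C (J := J) (n := n) hcst)
  refine remM_congr (remM_add (remM_add (remM_add (remM_add q1 q2) (remM_add q3 q4))
    (remM_add q5 q6)) (remM_add (remM_add q7 q8) q9)) fun z => ?_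
  have hz1 : ‖eval z q‖ ^ 2 * ‖eval z g‖ ^ 2 = 1 - 2 * (eval z E).re + ‖eval z E‖ ^ 2 := by
    rw [← mul_pow, ← norm_mul, ← map_mul, ← hqg, map_sub, map_one, ← Complex.normSq_eq_norm_sq,
      ← Complex.normSq_eq_norm_sq, Complex.normSq_apply, Complex.normSq_apply]
    simp only [Complex.sub_re, Complex.sub_im, Complex.one_re, Complex.one_im]
    ring
  have hz2 : ∀ s : ℝ, ‖((Real.sqrt η : ℝ) : ℂ) + (s : ℂ) * eval z E‖ ^ 2
      = η + 2 * (Real.sqrt η * s) * (eval z E).re + s ^ 2 * ‖eval z E‖ ^ 2 := by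
    intro s
    rw [← Complex.normSq_eq_norm_sq, ← Complex.normSq_eq_norm_sq, Complex.normSq_apply,
      Complex.normSq_apply]
    simp only [Complex.add_re, Complex.add_im, Complex.ofReal_re, Complex.ofReal_im,
      Complex.mul_re, Complex.mul_im, zero_mul, sub_zero, add_zero, zero_add]
    linear_combination hss
  have hz3 := hz2 (1 / Real.sqrt η)
  have hz4 := hz2 (-(1 / Real.sqrt η))
  have e1 : Real.sqrt η * (1 / Real.sqrt η) = 1 := by field_simp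
  have e2 : (1 / Real.sqrt η) ^ 2 = 1 / η := by rw [div_pow, one_pow, hss]
  rw [e1, e2] at hz3
  rw [mul_neg, e1, neg_sq, e2] at hz4
  have hz5 : ‖eval z (C ((Real.sqrt η : ℝ) : ℂ) + C (((1 / Real.sqrt η : ℝ)) : ℂ) * E)‖ ^ 2
      = η + 2 * 1 * (eval z E).re + 1 / η * ‖eval z E‖ ^ 2 := by
    rw [map_add, map_mul, eval_C, eval_C]
    exact hz3
  have hz6 : ‖eval z (C ((Real.sqrt η : ℝ) : ℂ) - C (((1 / Real.sqrt η : ℝ)) : ℂ) * E)‖ ^ 2
      = η + 2 * -1 * (eval z E).re + 1 / η * ‖eval z E‖ ^ 2 := by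
    rw [map_sub, map_mul, eval_C, eval_C, ← hz4]
    congr 2
    push_cast
    ring
  have e3 : δ / (2 * N') * N' = δ / 2 := by field_simp
  rw [hz5, hz6, hab z]
  linear_combination (nrm b z - nrm a z) * hz1 - e3

end

theorem rem {n : ℕ} {J : Ideal (MvPolynomial (Fin n ⊕ Fin n) ℝ)}
    {w : MvPolynomial (Fin n ⊕ Fin n) ℝ} (hw : SJ J w)
    (harch : ∀ F : MvPolynomial (Fin n ⊕ Fin n) ℝ, ∃ N : ℝ, SJ J ((C N - F) * w))
    {q G : MvPolynomial (Fin n) ℂ} {Q E1 : MvPolynomial (Fin n ⊕ Fin n) ℝ}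
    (hQ : ∀ z, ev Q z = ‖eval z q‖ ^ 2) (hE1 : ∀ z, ev E1 z = ‖1 - eval z q * eval z G‖ ^ 2)
    (he : SJ J ((C (1 / 2) - E1) * w)) {F : MvPolynomial (Fin n ⊕ Fin n) ℝ} {l : ℕ}
    (h : SJ J (F * w * Q ^ l)) {δ : ℝ} (hδ : 0 < δ) : SJ J ((F + C δ) * w) := by
  have he' : remM J w (fun z => 1 / 2 - ‖eval z (1 - q * G)‖ ^ 2) := by
    refine ⟨C (1 / 2) - E1, fun z => ?_, he⟩
    change _ = 1 / 2 - ‖eval z (1 - q * G)‖ ^ 2
    rw [ev_sub, ev_C, hE1 z, map_sub, map_one, map_mul]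
  have key : ∀ (l : ℕ) (F : MvPolynomial (Fin n ⊕ Fin n) ℝ),
      (∀ δ : ℝ, 0 < δ → remM J w (fun z => ev F z * ev Q z ^ l + δ)) →
      ∀ δ : ℝ, 0 < δ → remM J w (fun z => ev F z + δ) := by
    intro l
    induction l with
    | zero =>
      intro F hF δ hδ
      exact remM_congr (hF δ hδ) fun z => by rw [pow_zero, mul_one]
    | succ l ih =>
      intro F hF
      refine rem_step hw harch he' fun δ hδ => ?_
      have h1 := ih (F * Q) (fun δ' hδ' => remM_congr (hF δ' hδ') fun z => by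
        rw [ev_mul]; ring) δ hδ
      exact remM_congr h1 fun z => by rw [ev_mul, hQ]
  obtain ⟨F', hF', h'⟩ := key l F (fun δ' hδ' => by
    refine remM_congr (remM_add (φ := fun z => ev F z * ev Q z ^ l) ⟨F * Q ^ l, fun z => ?_, ?_⟩
      (remM_of hw (remS_C hδ'.le))) fun z => rfl
    · rw [ev_mul, ev_pow]
    · rw [mul_right_comm]
      exact h) δ hδ
  refine SJ_congr h' fun z => ?_
  rw [ev_mul, ev_mul, hF', ev_add, ev_C]

end Pool.Agent.Work.MP_49847a_an
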