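import Pool.Agent.Work.MP_49847a_an.Rat.RDefs

/-!
# Module SJL: Hermitian sums of squares modulo an ideal form a semiring; evaluation lemmas
-/

namespace Pool.Agent.Work.MP_49847a_an

open MvPolynomial

variable {n : ℕ}

theorem ev_neg (F : MvPolynomial (Fin n ⊕ Fin n) ℝ) (z : Fin n → ℂ) : ev (-F) z = -ev F z := by
  simp [ev]

theorem ev_one (z : Fin n → ℂ) : ev (1 : MvPolynomial (Fin n ⊕ Fin n) ℝ) z = 1 := by
  simp [ev]

theorem ev_zero (z : Fin n → ℂ) : ev (0 : MvPolynomial (Fin n ⊕ Fin n) ℝ) z = 0 := by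
  simp [ev]

theorem ev_pow (F : MvPolynomial (Fin n ⊕ Fin n) ℝ) (K : ℕ) (z : Fin n → ℂ) :
    ev (F ^ K) z = ev F z ^ K := by
  simp [ev]

theorem ev_sum {ι : Type*} (s : Finset ι) (F : ι → MvPolynomial (Fin n ⊕ Fin n) ℝ)
    (z : Fin n → ℂ) : ev (∑ i ∈ s, F i) z = ∑ i ∈ s, ev (F i) z := by
  simp [ev]

theorem ev_smul (c : ℝ) (F : MvPolynomial (Fin n ⊕ Fin n) ℝ) (z : Fin n → ℂ) :
    ev (c • F) z = c * ev F z := by
  simp [ev, smul_eval]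

theorem ev_WW (c : ℝ) (z : Fin n → ℂ) : ev (WW n c) z = c + nn z := by
  unfold WW nn
  rw [ev_add, ev_C, ev_sum]
  congr 1
  refine Finset.sum_congr rfl fun i _ => ?_
  rw [← Complex.normSq_eq_norm_sq, Complex.normSq_apply]
  simp only [ev, map_add, map_pow, eval_X, Sum.elim_inl, Sum.elim_inr]
  ring

theorem nn_nonneg (z : Fin n → ℂ) : 0 ≤ nn z :=
  Finset.sum_nonneg fun _ _ => by positivity

theorem exists_nrm_WW {c : ℝ} (hc : 0 ≤ c) : ∃ (m : ℕ) (p : Fin m → MvPolynomial (Fin n) ℂ),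
    (∀ j, (p j).totalDegree ≤ 1) ∧ ∀ z, nrm p z = c + nn z := by
  refine ⟨n + 1, Fin.cons (C ((Real.sqrt c : ℝ) : ℂ)) (fun i => X i), ?_, fun z => ?_⟩
  · intro j
    refine Fin.cases ?_ (fun i => ?_) j
    · simp
    · simp
  · unfold nrm nn
    rw [Fin.sum_univ_succ]
    simp [Real.sq_sqrt hc]

variable {J : Ideal (MvPolynomial (Fin n ⊕ Fin n) ℝ)}

theorem SJ_congr {F G : MvPolynomial (Fin n ⊕ Fin n) ℝ} (h : SJ J F) (he : ∀ z, ev G z = ev F z) :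
    SJ J G := by
  have : G = F := ev_ext he
  rw [this]
  exact h

theorem SJ_add {F G : MvPolynomial (Fin n ⊕ Fin n) ℝ} (h : SJ J F) (h' : SJ J G) :
    SJ J (F + G) := by
  obtain ⟨m, p, A, hA, h⟩ := h
  obtain ⟨m', p', B, hB, h'⟩ := h'
  obtain ⟨s, hs⟩ := nrm_append p p'
  refine ⟨m + m', s, A + B, J.add_mem hA hB, fun z => ?_⟩
  rw [ev_add, ev_add, h z, h' z, hs z]
  ring

theorem SJ_mul {F G : MvPolynomial (Fin n ⊕ Fin n) ℝ} (h : SJ J F) (h' : SJ J G) :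
    SJ J (F * G) := by
  obtain ⟨m, p, A, hA, h⟩ := h
  obtain ⟨m', p', B, hB, h'⟩ := h'
  obtain ⟨s, hs⟩ := nrm_mul p p'
  obtain ⟨σ, hσ⟩ := exists_nrm p
  obtain ⟨σ', hσ'⟩ := exists_nrm p'
  refine ⟨m * m', s, σ * B + σ' * A + A * B,
    J.add_mem (J.add_mem (J.mul_mem_left _ hB) (J.mul_mem_left _ hA)) (J.mul_mem_left _ hB),
    fun z => ?_⟩
  rw [ev_mul, h z, h' z, hs z, ev_add, ev_add, ev_mul, ev_mul, ev_mul, hσ, hσ']
  ring

theorem SJ_nrm {m : ℕ} {p : Fin m → MvPolynomial (Fin n) ℂ} {F : MvPolynomial (Fin n ⊕ Fin n) ℝ}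
    (h : ∀ z, ev F z = nrm p z) : SJ J F :=
  ⟨m, p, 0, J.zero_mem, fun z => by rw [h z, ev_zero, add_zero]⟩

theorem SJ_sq {p : MvPolynomial (Fin n) ℂ} {F : MvPolynomial (Fin n ⊕ Fin n) ℝ}
    (h : ∀ z, ev F z = ‖eval z p‖ ^ 2) : SJ J F :=
  SJ_nrm (p := fun _ : Fin 1 => p) fun z => by rw [h z, nrm_one]

theorem SJ_C {c : ℝ} (hc : 0 ≤ c) : SJ J (C c) := by
  obtain ⟨s, hs⟩ := nrm_const (n := n) hc
  exact SJ_nrm (p := s) fun z => by rw [ev_C, hs z]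

theorem SJ_one : SJ J 1 := by
  have := SJ_C (J := J) zero_le_one
  rwa [C_1] at this

theorem SJ_ideal {G : MvPolynomial (Fin n ⊕ Fin n) ℝ} (h : G ∈ J) : SJ J G := by
  refine ⟨0, Fin.elim0, G, h, fun z => ?_⟩
  simp [nrm]

theorem SJ_WW {c : ℝ} (hc : 0 ≤ c) : SJ J (WW n c) := by
  obtain ⟨m, p, _, hp⟩ := exists_nrm_WW (n := n) hc
  exact SJ_nrm (p := p) fun z => by rw [ev_WW, hp z]

theorem SJ_pow {F : MvPolynomial (Fin n ⊕ Fin n) ℝ} (h : SJ J F) (K : ℕ) : SJ J (F ^ K) := by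
  induction K with
  | zero => rw [pow_zero]; exact SJ_one
  | succ K ih => rw [pow_succ]; exact SJ_mul ih h

theorem SJ_sum {ι : Type*} (s : Finset ι) (F : ι → MvPolynomial (Fin n ⊕ Fin n) ℝ)
    (h : ∀ i ∈ s, SJ J (F i)) : SJ J (∑ i ∈ s, F i) := by
  classical
  induction s using Finset.induction_on with
  | empty =>
    rw [Finset.sum_empty]
    exact SJ_ideal J.zero_mem
  | insert a s ha ih =>
    rw [Finset.sum_insert ha]
    exact SJ_add (h a (Finset.mem_insert_self a s)) (ih fun i hi => h i (Finset.mem_insert_of_mem hi))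

theorem exists_rho {k : ℕ} (P : Fin k → MvPolynomial (Fin n) ℂ) (q : MvPolynomial (Fin n) ℂ) :
    ∃ ρ : MvPolynomial (Fin n ⊕ Fin n) ℝ, ∀ z, ev ρ z = rr P q z := by
  obtain ⟨A, hA⟩ := exists_nrm P
  obtain ⟨B, hB⟩ := exists_norm_sq q
  exact ⟨A - B, fun z => by rw [ev_sub, hA, hB, rr]⟩

end Pool.Agent.Work.MP_49847a_an
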