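import Pool.Agent.Work.MP_49847a_an.Rat.SJL

/-!
# Module Sph: Quillen's theorem on the unit sphere

Proof.  Apply `quillen_iff` (module Main) to `P = X : Fin m → MvPolynomial (Fin m) ℂ`: `nrm X ζ = nn ζ`,
`XX X` is the unit sphere; `FiniteMap X` (`X i ∈ Algebra.adjoin ℂ (Set.range X)`,
`isIntegral_algebraMap`), `StrPsc X` (`dd X a v j = v j`: `pderiv_X`) and `InjX X` are immediate.
-/

namespace Pool.Agent.Work.MP_49847a_an

open MvPolynomial

theorem sphere_pos {m : ℕ} {F : MvPolynomial (Fin m ⊕ Fin m) ℝ}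
    (hF : ∀ ζ : Fin m → ℂ, nn ζ = 1 → 0 < ev F ζ) :
    ∃ (l : ℕ) (g : Fin l → MvPolynomial (Fin m) ℂ), ∀ ζ : Fin m → ℂ, nn ζ = 1 →
      ev F ζ = nrm g ζ := by
  have hnn : ∀ ζ : Fin m → ℂ, nrm (fun i : Fin m => (X i : MvPolynomial (Fin m) ℂ)) ζ = nn ζ := by
    intro ζ
    simp [nrm, nn]
  have hfin : FiniteMap (fun i : Fin m => (X i : MvPolynomial (Fin m) ℂ)) := by
    intro i
    exact isIntegral_algebraMap (R := Algebra.adjoin ℂ
      (Set.range (fun i : Fin m => (X i : MvPolynomial (Fin m) ℂ))))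
      (x := ⟨X i, Algebra.subset_adjoin ⟨i, rfl⟩⟩)
  have hdd : ∀ (a v : Fin m → ℂ) (j : Fin m),
      dd (fun i : Fin m => (X i : MvPolynomial (Fin m) ℂ)) a v j = v j := by
    intro a v j
    unfold dd
    rw [Finset.sum_eq_single j]
    · simp
    · intro b _ hb
      rw [pderiv_X_of_ne hb.symm]
      simp
    · simp
  have hs : StrPsc (fun i : Fin m => (X i : MvPolynomial (Fin m) ℂ)) := by
    intro a _ v hv _
    obtain ⟨j, hj⟩ : ∃ j, v j ≠ 0 := by
      by_contra hcon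
      push Not at hcon
      exact hv (funext hcon)
    refine Finset.sum_pos' (fun i _ => by positivity) ⟨j, Finset.mem_univ j, ?_⟩
    rw [hdd]
    have := norm_pos_iff.mpr hj
    positivity
  have hinj : InjX (fun i : Fin m => (X i : MvPolynomial (Fin m) ℂ)) := by
    intro a _ b _ h
    funext j
    simpa using h j
  obtain ⟨l, g, H, hg⟩ := (quillen_iff hfin).2 ⟨hs, hinj⟩ F
    (fun z hz => hF z (by rw [← hnn z]; exact hz))
  refine ⟨l, g, fun ζ hζ => ?_⟩
  rw [hg ζ, hnn ζ, hζ]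
  ring

end Pool.Agent.Work.MP_49847a_an
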