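import Pool.Agent.Work.MP_49847a_an.Rat.Loc
import Pool.Agent.Work.MP_49847a_an.Rat.Ban
import Pool.Agent.Work.MP_49847a_an.Rat.Cop
import Pool.Agent.Work.MP_49847a_an.Rat.Rem

/-!
# Module Suf: sufficiency

Proof.  (half) For `c > 0` there is `K` such that `SJ (span {ρ}) (f * WW n c ^ K)` for every `f > 0`
on `XQ P q`.
`ban` with `δ = 1/2` gives `G`, `e = 1 - q G`, `|e|² ≤ 1/4 < 1/2` on `XQ P q`.  `pos_W` for
`C (1/2) - E1` and for `C N - WW n 0` (`rr_le_bound`) and `loc` give `K` with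
`SJ ((C (1/2) - E1) * w)`, `SJ ((C N - WW n 0) * w)`, `w = WW n c ^ K`, and `loc` applies to this `K`.
`arc` gives `harch`.  For `f > 0` on `XQ P q` there is `δ > 0` with `f - δ > 0` there (compactness;
`δ = 1` if `XQ P q` is empty); `loc` and `rem` for `F = f - C δ`.
(suff) `cop` with the two exponents and `N ≥ nn z` on `XQ P q`: `f = (f A) WW 1^K + (f B) WW 2^K'`.
-/

namespace Pool.Agent.Work.MP_49847a_an

open MvPolynomial

variable {n k d : ℕ} {P : Fin k → MvPolynomial (Fin n) ℂ} {q : MvPolynomial (Fin n) ℂ}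

private theorem suf_arch {ρ : MvPolynomial (Fin n ⊕ Fin n) ℝ} {R : ℝ}
    {w0 : MvPolynomial (Fin n ⊕ Fin n) ℝ} (hw0S : SJ (Ideal.span {ρ}) w0)
    (h1 : SJ (Ideal.span {ρ}) ((C R - WW n 0) * w0)) (F : MvPolynomial (Fin n ⊕ Fin n) ℝ) :
    ∃ N : ℝ, SJ (Ideal.span {ρ}) ((C N - F) * w0) := by
  refine arc hw0S (fun j => ⟨R, ?_⟩) F
  have e2 : (C R - (X (Sum.inl j) ^ 2 + X (Sum.inr j) ^ 2)) * w0 =
      (C R - WW n 0) * w0 +
        (∑ i ∈ Finset.univ.erase j, (X (Sum.inl i) ^ 2 + X (Sum.inr i) ^ 2)) * w0 := by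
    have : WW n 0 = (X (Sum.inl j) ^ 2 + X (Sum.inr j) ^ 2) +
        ∑ i ∈ Finset.univ.erase j, (X (Sum.inl i) ^ 2 + X (Sum.inr i) ^ 2) := by
      unfold WW
      rw [C_0, zero_add]
      exact (Finset.add_sum_erase Finset.univ
        (fun i => (X (Sum.inl i) ^ 2 + X (Sum.inr i) ^ 2 : MvPolynomial (Fin n ⊕ Fin n) ℝ))
        (Finset.mem_univ j)).symm
    rw [this]
    ring
  rw [e2]
  refine SJ_add h1 (SJ_mul (SJ_sum _ _ fun i _ => SJ_sq (p := X i) fun z => ?_) hw0S)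
  rw [eval_X, ← Complex.normSq_eq_norm_sq, Complex.normSq_apply]
  simp only [ev, map_add, map_pow, eval_X, Sum.elim_inl, Sum.elim_inr]
  ring

theorem half (hL : Lead d P q) {ρ : MvPolynomial (Fin n ⊕ Fin n) ℝ}
    (hρ : ∀ z, ev ρ z = rr P q z) (hq : ∀ z ∈ hull (XQ P q), eval z q ≠ 0) (hinj : InjQ P q)
    (hlevi : LeviQ P q) {c : ℝ} (hc : 0 < c) :
    ∃ K : ℕ, ∀ f : MvPolynomial (Fin n ⊕ Fin n) ℝ, (∀ z ∈ XQ P q, 0 < ev f z) →
      SJ (Ideal.span {ρ}) (f * WW n c ^ K) := by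
  have hq' : ∀ z ∈ XQ P q, eval z q ≠ 0 := fun z hz => hq z (subset_hull _ hz)
  obtain ⟨G, hG⟩ := ban (isCompact_XQ hL) hq (δ := 1 / 2) (by norm_num)
  obtain ⟨Q, hQ⟩ := exists_norm_sq q
  obtain ⟨E1, hE1⟩ := exists_norm_sq (1 - q * G)
  have hE1' : ∀ z, ev E1 z = ‖1 - eval z q * eval z G‖ ^ 2 := fun z => by
    rw [hE1, map_sub, map_one, map_mul]
  obtain ⟨R, hR, hR'⟩ := rr_le_bound hL
  obtain ⟨K1, hK1⟩ := pos_W hL hρ hc (f := C R - WW n 0) (fun z hz => by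
    rw [ev_sub, ev_C, ev_WW, zero_add]
    have := hR' z (le_of_eq hz)
    linarith)
  obtain ⟨K2, hK2⟩ := pos_W hL hρ hc (f := C (1 / 2) - E1) (fun z hz => by
    rw [ev_sub, ev_C, hE1']
    have h1 := hG z hz
    have h2 := norm_nonneg (1 - eval z q * eval z G)
    nlinarith)
  obtain ⟨K3, hK3⟩ := loc hL hρ hQ hq' hinj hlevi hc
  refine ⟨max (max K1 K2) K3, fun f hf => ?_⟩
  set K := max (max K1 K2) K3 with hK
  have h1 := hK1 K (((le_max_left _ _).trans (le_max_left _ _)))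
  have h2 := hK2 K (((le_max_right _ _).trans (le_max_left _ _)))
  have h3 := hK3 K (le_max_right _ _)
  have hw0S : SJ (Ideal.span {ρ}) (WW n c ^ K) := SJ_pow (SJ_WW hc.le) K
  obtain ⟨δ, hδ, hδ'⟩ : ∃ δ : ℝ, 0 < δ ∧ ∀ z ∈ XQ P q, 0 < ev (f - C δ) z := by
    rcases (XQ P q).eq_empty_or_nonempty with h | h
    · exact ⟨1, one_pos, fun z hz => by rw [h] at hz; exact hz.elim⟩
    · obtain ⟨z₀, hz₀, hmin⟩ :=
        (isCompact_XQ hL).exists_isMinOn h (ev_continuous f).continuousOn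
      have h0 := hf z₀ hz₀
      refine ⟨ev f z₀ / 2, by linarith, fun z hz => ?_⟩
      have h4 : ev f z₀ ≤ ev f z := hmin hz
      rw [ev_sub, ev_C]
      linarith
  obtain ⟨l, hl⟩ := h3 (f - C δ) hδ'
  have := rem hw0S (suf_arch hw0S h1) hQ hE1' h2 hl hδ
  rwa [sub_add_cancel] at this

theorem suff (hL : Lead d P q) {ρ : MvPolynomial (Fin n ⊕ Fin n) ℝ}
    (hρ : ∀ z, ev ρ z = rr P q z) (hq : ∀ z ∈ hull (XQ P q), eval z q ≠ 0) (hinj : InjQ P q)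
    (hlevi : LeviQ P q) {f : MvPolynomial (Fin n ⊕ Fin n) ℝ} (hf : ∀ z ∈ XQ P q, 0 < ev f z) :
    SJ (Ideal.span {ρ}) f := by
  obtain ⟨K, hK⟩ := half hL hρ hq hinj hlevi (c := 1) one_pos
  obtain ⟨K', hK'⟩ := half hL hρ hq hinj hlevi (c := 2) two_pos
  obtain ⟨R, hR, hR'⟩ := rr_le_bound hL
  obtain ⟨A, B, hAB, h1⟩ := cop n K K' R
  have hA := hK (f * A) fun z hz => by
    rw [ev_mul]
    exact mul_pos (hf z hz) (hAB z (hR' z (le_of_eq hz)).le).1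
  have hB := hK' (f * B) fun z hz => by
    rw [ev_mul]
    exact mul_pos (hf z hz) (hAB z (hR' z (le_of_eq hz)).le).2
  have e : f = f * A * WW n 1 ^ K + f * B * WW n 2 ^ K' := by
    rw [mul_assoc, mul_assoc, ← mul_add, h1, mul_one]
  rw [e]
  exact SJ_add hA hB

end Pool.Agent.Work.MP_49847a_an
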