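import Pool.Agent.Work.MP_49847a_an.Rat.SJL

/-!
# Module UpL: polynomials on `ℂ × ℂⁿ`

Proofs.  `eval_rename`; `Fin.tail ζ = fun i => ζ (Fin.succ i)`.  (up_SJ): `p_j` is replaced by
`uph p_j`, `G ∈ span {ρ}` is a multiple of `ρ` and `up` is a ring homomorphism (`rename`), `up ρ ∈ JJ ρ q`.
(JJ_re_im): the two parts are generators.
-/

namespace Pool.Agent.Work.MP_49847a_an

open MvPolynomial

variable {n : ℕ}

theorem ev_up (F : MvPolynomial (Fin n ⊕ Fin n) ℝ) (ζ : Fin (n + 1) → ℂ) :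
    ev (up F) ζ = ev F (Fin.tail ζ) := by
  unfold ev up
  rw [eval_rename]
  have : (Sum.elim (fun i => (ζ i).re) (fun i => (ζ i).im) : Fin (n + 1) ⊕ Fin (n + 1) → ℝ) ∘
      Sum.map Fin.succ Fin.succ =
      Sum.elim (fun i => (Fin.tail ζ i).re) (fun i => (Fin.tail ζ i).im) := by
    funext i
    rcases i with i | i <;> rfl
  rw [this]

theorem eval_uph (p : MvPolynomial (Fin n) ℂ) (ζ : Fin (n + 1) → ℂ) :
    eval ζ (uph p) = eval (Fin.tail ζ) p := by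
  unfold uph
  rw [eval_rename]
  rfl

theorem up_mul (F G : MvPolynomial (Fin n ⊕ Fin n) ℝ) : up (F * G) = up F * up G :=
  map_mul _ _ _

theorem up_pow (F : MvPolynomial (Fin n ⊕ Fin n) ℝ) (K : ℕ) : up (F ^ K) = up F ^ K :=
  map_pow _ _ _

theorem JJ_rho (ρ : MvPolynomial (Fin n ⊕ Fin n) ℝ) (q : MvPolynomial (Fin n) ℂ) :
    up ρ ∈ JJ ρ q :=
  Ideal.subset_span (Or.inl rfl)

theorem up_SJ {ρ : MvPolynomial (Fin n ⊕ Fin n) ℝ} {q : MvPolynomial (Fin n) ℂ}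
    {F : MvPolynomial (Fin n ⊕ Fin n) ℝ} (h : SJ (Ideal.span {ρ}) F) : SJ (JJ ρ q) (up F) := by
  obtain ⟨m, p, G, hG, h⟩ := h
  obtain ⟨H, hH⟩ := Ideal.mem_span_singleton'.1 hG
  refine ⟨m, fun j => uph (p j), up G, ?_, fun ζ => ?_⟩
  · rw [← hH, up_mul]
    exact Ideal.mul_mem_left _ _ (JJ_rho ρ q)
  · rw [ev_up, ev_up, h]
    congr 1
    unfold nrm
    exact Finset.sum_congr rfl fun j _ => by rw [eval_uph]

theorem JJ_re_im {ρ : MvPolynomial (Fin n ⊕ Fin n) ℝ} {q : MvPolynomial (Fin n) ℂ}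
    {U V : MvPolynomial (Fin (n + 1) ⊕ Fin (n + 1)) ℝ}
    (h : ∀ ζ, eval ζ (uph q * X 0 - 1) = ((ev U ζ : ℝ) : ℂ) + ((ev V ζ : ℝ) : ℂ) * Complex.I) :
    U ∈ JJ ρ q ∧ V ∈ JJ ρ q :=
  ⟨Ideal.subset_span (Or.inr ⟨U, V, h, Or.inl rfl⟩),
    Ideal.subset_span (Or.inr ⟨U, V, h, Or.inr rfl⟩)⟩

/-- `|q y|² - 1` is in the ideal -/
theorem JJ_sq {ρ : MvPolynomial (Fin n ⊕ Fin n) ℝ} {q : MvPolynomial (Fin n) ℂ}
    {A : MvPolynomial (Fin (n + 1) ⊕ Fin (n + 1)) ℝ}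
    (hA : ∀ ζ, ev A ζ = ‖eval ζ (uph q * X 0)‖ ^ 2) : A - 1 ∈ JJ ρ q := by
  obtain ⟨U, V, h⟩ := exists_re_im (uph q * X 0 - 1 : MvPolynomial (Fin (n + 1)) ℂ)
  obtain ⟨hU, hV⟩ := JJ_re_im (ρ := ρ) h
  have e : A - 1 = (C 2 + U) * U + V * V := by
    refine ev_ext fun ζ => ?_
    rw [ev_sub, ev_one, ev_add, ev_mul, ev_mul, ev_add, ev_C, hA]
    have h1 : eval ζ (uph q * X 0) =
        (((1 + ev U ζ : ℝ)) : ℂ) + ((ev V ζ : ℝ) : ℂ) * Complex.I := by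
      have h2 := h ζ
      rw [map_sub, map_one, sub_eq_iff_eq_add] at h2
      rw [h2]
      push_cast
      ring
    rw [h1, ← Complex.normSq_eq_norm_sq, Complex.normSq_add_mul_I]
    ring
  rw [e]
  exact Ideal.add_mem _ (Ideal.mul_mem_left _ _ hU) (Ideal.mul_mem_left _ _ hV)

end Pool.Agent.Work.MP_49847a_an
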